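import Pool.Agent.H35.MICA.Pth
import Pool.Agent.H7.MIC.Inf

/-!
# Polynomials in the time which are bounded at typical samples
-/

set_option autoImplicit false

namespace Pool.LSH

open Finset
open Pool.Agent.H49.Ent Pool.Agent.H32.Dense Pool.STK Pool.STAT Pool.MIC Pool.MicA Pool.PTH
open Pool.MIC7 (cond_false_card)
open Pool.BFL (Pb)
open scoped Polynomial

section

variable {Ω S : Type} [Fintype Ω]

theorem pos_of_law {q : Ω → ℝ} (hq : ∀ ω, 0 ≤ q ω) {E : Ω → Prop} (h : 0 < Pb q E) :
    ∃ ω, 0 < q ω ∧ E ω := by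
  classical
  by_contra hcon
  push Not at hcon
  have : Pb q E = 0 := by
    unfold Pb
    refine Finset.sum_eq_zero fun ω _ => ?_
    split_ifs with hE
    · by_contra h0
      exact hcon ω ((hq ω).lt_of_ne (Ne.symm h0)) hE
    · rfl
  linarith

theorem Pb_or' {p : Ω → ℝ} (hp : ∀ ω, 0 ≤ p ω) (A B : Ω → Prop) :
    Pb p (fun ω => A ω ∨ B ω) ≤ Pb p A + Pb p B := by
  classical
  unfold Pb
  rw [← Finset.sum_add_distrib]
  refine Finset.sum_le_sum fun ω _ => ?_
  have := hp ω
  by_cases h1 : A ω <;> by_cases h2 : B ω <;> simp [h1, h2, this]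

/-- **Most classes have many values on the event.** -/
theorem big_ev {q : Ω → ℝ} (hq : IsLaw q) (g : Ω → S) (T : Ω → ℕ) {m y N : ℕ}
    (hT : ∀ ω, T ω < 2 ^ m) (hy : y ≤ m) (hN : 1 ≤ N) {D : ℝ} (E : Ω → Prop)
    (h : m * Real.log 2 - D ≤ CH q T g) :
    Pb q (fun ω => E ω ∧ (st (cond q E True) g T (g ω)).card ≤ N * (2 * 2 ^ (m - y) + 1)) *
      (y * Real.log 2 - Real.log (4 * N)) ≤ D + Real.log 2 := by
  classical
  have h0 := hq.nonneg
  have hl2 : 0 ≤ Real.log 2 := Real.log_nonneg (by norm_num)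
  have hcard : Real.log (((Finset.range (2 ^ m)).card : ℕ) : ℝ) = m * Real.log 2 := by
    rw [Finset.card_range, Nat.cast_pow, Nat.cast_ofNat, Real.log_pow]
  have hD : 0 ≤ D := by
    have h1 := CH_le_card h0 hq.sum_one T g (fun _ => Finset.range (2 ^ m)) (fun ω _ =>
      Finset.mem_range.2 (hT ω))
    rw [Ex_const hq.sum_one, hcard] at h1
    linarith
  obtain ⟨B, hB⟩ : ∃ B : Ω → Prop, B = fun ω =>
    (st (cond q E True) g T (g ω)).card ≤ N * (2 * 2 ^ (m - y) + 1) := ⟨_, rfl⟩
  have hB' : (fun ω => E ω ∧ (st (cond q E True) g T (g ω)).card ≤ N * (2 * 2 ^ (m - y) + 1)) =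
      fun ω => E ω ∧ B ω := by rw [hB]
  rw [hB']
  rcases (Pb_nonneg h0 E).eq_or_lt with hE | hE
  · have h1 : Pb q (fun ω => E ω ∧ B ω) ≤ Pb q E := Pool.MIC.Pb_mono_ae h0 fun ω _ h => h.1
    have h2 := Pb_nonneg h0 (fun ω => E ω ∧ B ω)
    have h3 : Pb q (fun ω => E ω ∧ B ω) = 0 := le_antisymm (by linarith) h2
    rw [h3, zero_mul]
    linarith
  · have hl := isLaw_ev hq E hE
    have a1 := CH_le_add h0 T E g
    have a2 := CH_prop_le h0 hq.sum_one E g
    have a3 : CH q T (fun ω => (E ω, g ω)) = CH q T (fun ω => (g ω, E ω)) := CH_swc h0 T E g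
    have a4 := CH_two h0 T g E
    have a5 := cond_false_card hq E T g (Finset.range (2 ^ m)) (fun ω _ =>
      Finset.mem_range.2 (hT ω))
    rw [hcard] at a5
    have a6 := Pb_not hq.sum_one E
    have key : m * Real.log 2 - (D + Real.log 2) / Pb q E ≤ CH (cond q E True) T g := by
      rw [sub_le_iff_le_add, ← sub_le_iff_le_add', le_div_iff₀ hE]
      have b1 : Pb q E * (m * Real.log 2) + Pb q (fun ω => ¬ E ω) * (m * Real.log 2) =
          m * Real.log 2 := by
        rw [← add_mul, a6, one_mul]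
      have b2 : (m * Real.log 2 - CH (cond q E True) T g) * Pb q E =
          Pb q E * (m * Real.log 2) - Pb q E * CH (cond q E True) T g := by ring
      rw [b2]
      linarith
    have h1 := big_class hl g T hT hy hN key
    have h2 := Pb_cond_ge E B hE
    rw [← hB] at h1
    rw [← h2]
    have h3 := mul_le_mul_of_nonneg_left h1 hE.le
    have h4 : Pb q E * ((D + Real.log 2) / Pb q E) = D + Real.log 2 := by
      field_simp
    rw [h4] at h3
    linarith

end

/-- **Polynomials in the time which are bounded at typical samples** have bounded coefficients. -/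
theorem rem_smp (N : ℕ) (hN : 1 ≤ N) (e : ℝ) (he : 0 < e) : ∃ (κ : ℝ) (z₀ : ℕ), 0 < κ ∧
    ∀ (J w₀ w z : ℕ) (D : NDat2) (q : D.Ω → ℝ), z₀ ≤ z → w₀ ≤ w → w + z ≤ J → IsLaw q →
      (∀ ω, D.T ω < 2 ^ J) → Det q D.ln (fun ω => D.T ω / 2 ^ (J - w₀)) → D.TmU J w₀ z κ q →
      ∀ (E : D.Ω → Prop) (R : D.Ω → ℝ[X]) (B : ℝ), 0 ≤ B →
      (∀ ω ω', 0 < q ω → 0 < q ω' → D.wn J w ω = D.wn J w ω' → R ω = R ω') →
      (∀ ω, 0 < q ω → (R ω).natDegree < N) →
      (∀ ω, 0 < q ω → E ω → |(R ω).eval ((thr D J w ω : ℝ) / 2 ^ (J - w))| ≤ B) →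
      Pb q (fun ω => ¬ ∀ a, |(R ω).coeff a| ≤ B * 2 ^ z) ≤ Pb q (fun ω => ¬ E ω) + e := by
  classical
  have hN0 : (0 : ℝ) < N := by exact_mod_cast hN
  refine ⟨e / (16 * N), 40 * N ^ 2 + 5 * N + ⌈32 * N / e⌉₊, by positivity, ?_⟩
  intro J w₀ w z D q hz hw0 hwJ hq hTJ hln hU E R B hB0 hR hdeg hval
  obtain ⟨y, hy⟩ : ∃ y, y = z / (2 * N) := ⟨_, rfl⟩
  have hz4 : 4 * N ≤ z := by nlinarith
  have hyz : y ≤ z := by
    rw [hy]
    exact Nat.div_le_self _ _
  -- the times in the classes
  have hlow := Pool.TMU.CH_low hq D.T D.ln (w := w) hw0 (by omega) hln hU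
  have hlow' : ((J - w : ℕ) : ℝ) * Real.log 2 - e / (16 * N) * z ≤
      CH q (thr D J w) (D.wn J w) := by
    refine hlow.trans ?_
    refine CH_mono_left hq.nonneg ?_
    intro ω ω' _ _ e'
    have e1 : thr D J w ω = thr D J w ω' := (Prod.ext_iff.1 e').1
    have e2 : D.T ω / 2 ^ (J - w) = D.T ω' / 2 ^ (J - w) :=
      (Prod.ext_iff.1 (Prod.ext_iff.1 e').2).2
    unfold thr at e1
    rw [← Nat.div_add_mod (D.T ω) (2 ^ (J - w)), ← Nat.div_add_mod (D.T ω') (2 ^ (J - w)),
      e1, e2]
  have hbig := big_ev hq (D.wn J w) (thr D J w) (m := J - w) (y := y)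
    (fun ω => Nat.mod_lt _ (by positivity)) (by omega) hN E hlow'
  -- the bad classes
  have hsub : Pb q (fun ω => ¬ ∀ a, |(R ω).coeff a| ≤ B * 2 ^ z) ≤
      Pb q (fun ω => ¬ E ω) + Pb q (fun ω => E ω ∧
        (st (cond q E True) (D.wn J w) (thr D J w) (D.wn J w ω)).card ≤
          N * (2 * 2 ^ (J - w - y) + 1)) := by
    refine le_trans (Pool.MIC.Pb_mono_ae hq.nonneg fun ω hω hbad => ?_)
      (Pb_or' hq.nonneg (fun ω => ¬ E ω) _)
    by_contra hcon
    rw [not_or, not_not] at hcon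
    obtain ⟨hE, hcard⟩ := hcon
    refine hbad fun a => ?_
    have hcard' : ¬ (st (cond q E True) (D.wn J w) (thr D J w) (D.wn J w ω)).card ≤
        N * (2 * 2 ^ (J - w - y) + 1) := fun h => hcard ⟨hE, h⟩
    obtain ⟨t, ht1, ht2⟩ := (sep_or (st (cond q E True) (D.wn J w) (thr D J w) (D.wn J w ω))
      (2 ^ (J - w - y)) N).resolve_right hcard'
    have hnode : ∀ p, ∃ ω', 0 < q ω' ∧ E ω' ∧ D.wn J w ω' = D.wn J w ω ∧ thr D J w ω' = t p := by
      intro p
      obtain ⟨ω', h1, h2, h3⟩ := mem_st.1 (ht1 p)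
      have h4 := ev_pos hq.nonneg E h1
      exact ⟨ω', h4.1, h4.2, h2, h3⟩
    have hpw : (0 : ℝ) < 2 ^ (J - w) := by positivity
    by_cases haN : a < N
    · by_cases hB1 : B = 0
      · -- the polynomial vanishes at the nodes
        have h1 : ∀ s : ℝ, |(Polynomial.C s * R ω).coeff a| ≤ N * (2 * 2 ^ y) ^ N := by
          intro s
          refine coeff_nodes (N := N) (y := y) (fun p => (t p : ℝ) / 2 ^ (J - w)) (fun p => ?_)
            (fun p p' hp => ?_) (Polynomial.C s * R ω) ?_ (fun p => ?_) ⟨a, haN⟩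
          · rw [abs_of_nonneg (by positivity), div_le_one hpw]
            obtain ⟨ω', -, -, -, h3⟩ := hnode p
            have h4 : t p < 2 ^ (J - w) := by
              rw [← h3]
              exact Nat.mod_lt _ (by positivity)
            exact_mod_cast h4.le
          · have h3 := ht2 p p' hp
            rw [← sub_div, abs_div, abs_of_pos hpw, div_le_div_iff₀ (by positivity) hpw, one_mul]
            have h4 : (2 : ℝ) ^ (J - w) = ((2 ^ (J - w - y) : ℕ) : ℝ) * 2 ^ y := by
              push_cast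
              rw [← pow_add]
              congr 1
              omega
            rw [h4]
            exact mul_le_mul_of_nonneg_right h3 (by positivity)
          · exact (Polynomial.natDegree_C_mul_le _ _).trans_lt (hdeg ω hω)
          · obtain ⟨ω', h2, hE', h3, h4⟩ := hnode p
            have h5 := hval ω' h2 hE'
            rw [hR ω' ω h2 hω h3, h4, hB1] at h5
            rw [Polynomial.eval_mul, Polynomial.eval_C, abs_mul]
            have h6 : |(R ω).eval ((t p : ℝ) / 2 ^ (J - w))| = 0 :=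
              le_antisymm h5 (abs_nonneg _)
            rw [h6, mul_zero]
            exact zero_le_one
        by_contra hne
        rw [hB1, zero_mul, not_le] at hne
        have h2 := h1 ((N * (2 * 2 ^ y) ^ N + 1) / |(R ω).coeff a|)
        rw [Polynomial.coeff_C_mul, abs_mul, abs_of_nonneg (by positivity),
          div_mul_cancel₀ _ hne.ne'] at h2
        linarith
      · have hBp : 0 < B := hB0.lt_of_ne (Ne.symm hB1)
        have h1 := coeff_nodes (N := N) (y := y) (fun p => (t p : ℝ) / 2 ^ (J - w)) (fun p => ?_)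
          (fun p p' hp => ?_) (Polynomial.C (1 / B) * R ω) ?_ (fun p => ?_) ⟨a, haN⟩
        · rw [Polynomial.coeff_C_mul, abs_mul, abs_of_pos (by positivity : (0 : ℝ) < 1 / B),
            one_div, inv_mul_le_iff₀ hBp] at h1
          refine h1.trans (mul_le_mul_of_nonneg_left ?_ hBp.le)
          have h3 : (2 * 2 ^ y : ℝ) ^ N = 2 ^ ((y + 1) * N) := by
            rw [← pow_succ', ← pow_mul]
          have h4 : (N : ℝ) ≤ 2 ^ N := by
            have := Nat.lt_two_pow_self (n := N)
            exact_mod_cast this.le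
          rw [h3]
          calc (N : ℝ) * 2 ^ ((y + 1) * N) ≤ 2 ^ N * 2 ^ ((y + 1) * N) :=
                mul_le_mul_of_nonneg_right h4 (by positivity)
            _ = 2 ^ (N + (y + 1) * N) := by rw [pow_add]
            _ ≤ 2 ^ z := by
                refine pow_le_pow_right₀ (by norm_num) ?_
                have h5 : y * (2 * N) ≤ z := by
                  rw [hy]
                  exact Nat.div_mul_le_self _ _
                nlinarith
        · rw [abs_of_nonneg (by positivity), div_le_one hpw]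
          obtain ⟨ω', -, -, -, h3⟩ := hnode p
          have h4 : t p < 2 ^ (J - w) := by
            rw [← h3]
            exact Nat.mod_lt _ (by positivity)
          exact_mod_cast h4.le
        · have h3 := ht2 p p' hp
          rw [← sub_div, abs_div, abs_of_pos hpw, div_le_div_iff₀ (by positivity) hpw, one_mul]
          have h4 : (2 : ℝ) ^ (J - w) = ((2 ^ (J - w - y) : ℕ) : ℝ) * 2 ^ y := by
            push_cast
            rw [← pow_add]
            congr 1
            omega
          rw [h4]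
          exact mul_le_mul_of_nonneg_right h3 (by positivity)
        · exact (Polynomial.natDegree_C_mul_le _ _).trans_lt (hdeg ω hω)
        · obtain ⟨ω', h2, hE', h3, h4⟩ := hnode p
          have h5 := hval ω' h2 hE'
          rw [hR ω' ω h2 hω h3, h4] at h5
          rw [Polynomial.eval_mul, Polynomial.eval_C, abs_mul,
            abs_of_pos (by positivity : (0 : ℝ) < 1 / B), one_div, inv_mul_le_iff₀ hBp]
          linarith
    · rw [Polynomial.coeff_eq_zero_of_natDegree_lt ((hdeg ω hω).trans_le (not_lt.1 haN)), abs_zero]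
      positivity
  refine hsub.trans ?_
  -- numbers
  obtain ⟨P, hP⟩ : ∃ P, P = Pb q (fun ω => E ω ∧
      (st (cond q E True) (D.wn J w) (thr D J w) (D.wn J w ω)).card ≤
        N * (2 * 2 ^ (J - w - y) + 1)) := ⟨_, rfl⟩
  rw [← hP] at hbig ⊢
  have hP0 : 0 ≤ P := by
    rw [hP]
    exact Pb_nonneg hq.nonneg _
  have hzN : (40 * (N : ℝ) ^ 2 + 5 * N) + 32 * N / e ≤ z := by
    have h1 : ((40 * N ^ 2 + 5 * N + ⌈32 * N / e⌉₊ : ℕ) : ℝ) ≤ z := by exact_mod_cast hz
    push_cast at h1
    have h2 := Nat.le_ceil (32 * N / e)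
    linarith
  have hlogN : Real.log (4 * N) ≤ 4 * N := by
    have := Real.log_le_sub_one_of_pos (show (0 : ℝ) < 4 * N by positivity)
    linarith
  have hyr : (z : ℝ) / (2 * N) - 1 ≤ y := by
    have h1 : z < 2 * N * (y + 1) := by
      rw [hy]
      exact Nat.lt_mul_div_succ z (by omega)
    have h2 : (z : ℝ) < 2 * N * (y + 1) := by exact_mod_cast h1
    rw [sub_le_iff_le_add, div_le_iff₀ (by positivity)]
    linarith
  have hl2 : 0.69 ≤ Real.log 2 := by linarith [Real.log_two_gt_d9]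
  have hl2' : Real.log 2 ≤ 0.7 := by linarith [Real.log_two_lt_d9]
  have hdiv : 0 ≤ 32 * N / e := by positivity
  have hz0 : (0 : ℝ) < z := by nlinarith
  have h1 : (z : ℝ) / (8 * N) ≤ y * Real.log 2 - Real.log (4 * N) := by
    obtain ⟨u, hu⟩ : ∃ u : ℝ, u = z / N := ⟨_, rfl⟩
    have hu1 : 40 * (N : ℝ) + 5 ≤ u := by
      rw [hu, le_div_iff₀ hN0]
      nlinarith
    have hu2 : (z : ℝ) / (2 * N) = u / 2 := by
      rw [hu]
      field_simp
    have hu3 : (z : ℝ) / (8 * N) = u / 8 := by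
      rw [hu]
      field_simp
    rw [hu2] at hyr
    rw [hu3]
    have hy0 : 0 ≤ u / 2 - 1 := by linarith
    have h2 : (u / 2 - 1) * 0.69 ≤ y * Real.log 2 :=
      mul_le_mul hyr hl2 (by norm_num) (by linarith)
    nlinarith
  have h2 : P * ((z : ℝ) / (8 * N)) ≤ e / (16 * N) * z + Real.log 2 :=
    (mul_le_mul_of_nonneg_left h1 hP0).trans hbig
  have h3 : Real.log 2 ≤ e / (16 * N) * z := by
    have h4 : 32 * N / e ≤ z := by nlinarith
    rw [div_le_iff₀ he] at h4
    rw [div_mul_eq_mul_div, le_div_iff₀ (by positivity)]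
    nlinarith
  have h4 : e / (16 * N) * z + e / (16 * N) * z = e * (z / (8 * N)) := by
    field_simp
    ring
  have h5 : P * ((z : ℝ) / (8 * N)) ≤ e * (z / (8 * N)) := by linarith
  have h6 : (0 : ℝ) < z / (8 * N) := by positivity
  have h7 := le_of_mul_le_mul_right h5 h6
  linarith

end Pool.LSH
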