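import Pool.Agent.H12.LSH.Shd
import Pool.Agent.H12.LSH.Rem
import Pool.Agent.H41.GSD.HtB

/-!
# The heights of a line at a place are constant in a short window
-/

set_option autoImplicit false

namespace Pool.LSH

open Finset MvPolynomial
open Pool.Agent.H49.Ent Pool.Agent.H32.Dense Pool.STK Pool.STAT Pool.MIC Pool.MicA Pool.PTH
open Pool.MIC.Frm (nat pt)
open Pool.BFL (Pl Pb)
open scoped Polynomial

/-- A polynomial with bounded coefficients on the unit interval. -/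
theorem pol_lip {Q : ℝ[X]} {N : ℕ} (hN : Q.natDegree < N) {A : ℝ} (hA : 0 ≤ A)
    (h : ∀ a, |Q.coeff a| ≤ A) {x y : ℝ} (hx : |x| ≤ 1) (hy : |y| ≤ 1) :
    |Q.eval x - Q.eval y| ≤ N * N * A * |x - y| := by
  rw [Polynomial.eval_eq_sum_range' hN, Polynomial.eval_eq_sum_range' hN, ← Finset.sum_sub_distrib]
  refine (Finset.abs_sum_le_sum_abs _ _).trans ?_
  have pw : ∀ m : ℕ, |x ^ m - y ^ m| ≤ m * |x - y| := by
    intro m
    induction m with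
    | zero => simp
    | succ m ih =>
      have e : x ^ (m + 1) - y ^ (m + 1) = x * (x ^ m - y ^ m) + (x - y) * y ^ m := by ring
      rw [e]
      refine (abs_add_le _ _).trans ?_
      rw [abs_mul, abs_mul, abs_pow]
      have h1 : |x| * |x ^ m - y ^ m| ≤ 1 * (m * |x - y|) :=
        mul_le_mul hx ih (abs_nonneg _) zero_le_one
      have h2 : |x - y| * |y| ^ m ≤ |x - y| * 1 :=
        mul_le_mul_of_nonneg_left (pow_le_one₀ (abs_nonneg _) hy) (abs_nonneg _)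
      push_cast
      linarith
  have h1 : ∀ m ∈ range N, |Q.coeff m * x ^ m - Q.coeff m * y ^ m| ≤ N * A * |x - y| := by
    intro m hm
    rw [← mul_sub, abs_mul]
    have h2 : (m : ℝ) ≤ N := by exact_mod_cast (mem_range.1 hm).le
    calc |Q.coeff m| * |x ^ m - y ^ m| ≤ A * (m * |x - y|) :=
          mul_le_mul (h m) (pw m) (abs_nonneg _) hA
      _ = m * (A * |x - y|) := by ring
      _ ≤ N * (A * |x - y|) := mul_le_mul_of_nonneg_right h2 (by positivity)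
      _ = N * A * |x - y| := by ring
  refine (Finset.sum_le_sum h1).trans (le_of_eq ?_)
  rw [Finset.sum_const, card_range, nsmul_eq_mul]
  ring

section

variable {D : NDat2} {n K J a₀ w₀ z M : ℕ} {lam gam : ℕ → ℝ} {κ C₁ : ℝ} {q : D.Ω → ℝ}

theorem wn_coarse {w' w : ℕ} (h : w' ≤ w) (hw : w ≤ J) {ω ω' : D.Ω}
    (e : D.wn J w ω = D.wn J w ω') : D.wn J w' ω = D.wn J w' ω' := by
  have e1 : D.ln ω = D.ln ω' := (Prod.ext_iff.1 e).1
  have e2 : D.T ω / 2 ^ (J - w) = D.T ω' / 2 ^ (J - w) := (Prod.ext_iff.1 e).2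
  have h3 : (2 : ℕ) ^ (J - w') = 2 ^ (J - w) * 2 ^ (w - w') := by
    rw [← pow_add]
    congr 1
    omega
  unfold NDat2.wn
  rw [e1, h3, ← Nat.div_div_eq_div_mul, ← Nat.div_div_eq_div_mul, e2]

theorem det_c (hO : D.Ok2 n K J a₀ w₀ z M lam gam κ C₁ q) {a : ℕ × ℕ} {w : ℕ} (h1 : a.1 ≤ M)
    (h2 : a.2 ≤ M) (h3 : w₀ + a.2 * z ≤ w) (h4 : w ≤ J) : Det q (D.wn J w) (D.c a.1 a.2) :=
  fun _ _ p p' e => hO.c_wn a.1 h1 a.2 h2 _ _ p p' (wn_coarse h3 h4 e)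

theorem rp_spec (J w : ℕ) (ω₀ : D.Ω) {ω : D.Ω} (hω : 0 < q ω) :
    0 < q (rp D q J w ω₀ (D.wn J w ω)) ∧ D.wn J w (rp D q J w ω₀ (D.wn J w ω)) = D.wn J w ω := by
  have h : ∃ ω', 0 < q ω' ∧ D.wn J w ω' = D.wn J w ω := ⟨ω, hω, rfl⟩
  unfold rp
  rw [dif_pos h]
  exact h.choose_spec

theorem cl_eq {w : ℕ} (ω₀ : D.Ω) {a : ℕ × ℕ} (hd : Det q (D.wn J w) (D.c a.1 a.2)) {ω : D.Ω}
    (hω : 0 < q ω) : cl D q J w ω₀ a (D.wn J w ω) = D.c a.1 a.2 ω := by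
  obtain ⟨h1, h2⟩ := rp_spec J w ω₀ hω
  exact hd _ _ h1 hω h2

theorem hz_eq {w : ℕ} (ω₀ : D.Ω) {a : ℕ × ℕ} (hd : Det q (D.wn J w) (D.c a.1 a.2)) {ω : D.Ω}
    (hω : 0 < q ω) (l : ℕ) :
    hz D q J w ω₀ a (D.wn J w ω) l = (Qp D J w a.1 a.2 ω l).eval 0 := by
  obtain ⟨h1, h2⟩ := rp_spec J w ω₀ hω
  unfold hz
  rw [Qp_congr hd h1 hω h2]

/-- The beginning of the short window in the long one. -/
noncomputable def th0 (D : NDat2) (J w' w : ℕ) (ω : D.Ω) : ℝ :=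
  ((D.T ω / 2 ^ (J - w) % 2 ^ (w - w') : ℕ) : ℝ) / 2 ^ (w - w')

theorem Qp_win {w' w : ℕ} (h : w' ≤ w) (hw : w ≤ J) (i j : ℕ) (ω : D.Ω) (l : ℕ) (s : ℝ) :
    (Qp D J w i j ω l).eval s = (Qp D J w' i j ω l).eval (th0 D J w' w ω + s / 2 ^ (w - w')) := by
  suffices e : (tp D J w ω).eval s = (tp D J w' ω).eval (th0 D J w' w ω + s / 2 ^ (w - w')) by
    unfold Qp
    rw [Polynomial.eval_mul, Polynomial.eval_mul, Polynomial.eval_comp, Polynomial.eval_comp, e,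
      Polynomial.eval_C, Polynomial.eval_C]
  unfold tp th0
  rw [Polynomial.eval_add, Polynomial.eval_add, Polynomial.eval_C, Polynomial.eval_C,
    Polynomial.eval_mul, Polynomial.eval_mul, Polynomial.eval_C, Polynomial.eval_C,
    Polynomial.eval_X, Polynomial.eval_X]
  have h3 : (2 : ℕ) ^ (J - w') = 2 ^ (J - w) * 2 ^ (w - w') := by
    rw [← pow_add]
    congr 1
    omega
  have h4 : (2 : ℝ) ^ w = 2 ^ w' * 2 ^ (w - w') := by
    rw [← pow_add]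
    congr 1
    omega
  have h5 := Nat.div_add_mod (D.T ω / 2 ^ (J - w)) (2 ^ (w - w'))
  rw [Nat.div_div_eq_div_mul, ← h3] at h5
  have h6 : ((2 ^ (w - w') * (D.T ω / 2 ^ (J - w')) +
      D.T ω / 2 ^ (J - w) % 2 ^ (w - w') : ℕ) : ℝ) = (D.T ω / 2 ^ (J - w) : ℕ) := by
    rw [h5]
  push_cast at h6
  push_cast
  rw [h4]
  push_cast at h6
  have h7 : ((D.T ω / 2 ^ (J - w) : ℕ) : ℝ) = (2 : ℝ) ^ (w - w') * ((D.T ω / 2 ^ (J - w') : ℕ) : ℝ) +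
      ((D.T ω / 2 ^ (J - w) % 2 ^ (w - w') : ℕ) : ℝ) := by
    rw [← h6]
  rw [h7]
  field_simp
  ring

theorem th0_bd (J w' w : ℕ) (ω : D.Ω) : 0 ≤ th0 D J w' w ω ∧
    th0 D J w' w ω + 1 / 2 ^ (w - w') ≤ 1 := by
  have h0 : (0 : ℝ) < 2 ^ (w - w') := by positivity
  unfold th0
  refine ⟨by positivity, ?_⟩
  rw [← add_div, div_le_one h0]
  have h1 : D.T ω / 2 ^ (J - w) % 2 ^ (w - w') + 1 ≤ 2 ^ (w - w') :=
    Nat.mod_lt _ (by positivity)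
  exact_mod_cast h1

/-- The coefficients of the heights at `a` in the window of `a`. -/
def LE (D : NDat2) (J w' z n : ℕ) (a : ℕ × ℕ) (ω : D.Ω) : Prop :=
  ∀ l ≤ n, ∀ m, |(Qp D J w' a.1 a.2 ω l).coeff m| ≤ 2 ^ z

theorem two_z {x : ℕ} : (0 : ℝ) < 2 ^ x := by positivity

/-- **The heights are constant in a short window.** -/
theorem hgt_const (hO : D.Ok2 n K J a₀ w₀ z M lam gam κ C₁ q) {a : ℕ × ℕ} {w X : ℕ}
    (h3 : w₀ + a.2 * z + X + z ≤ w) (h4 : w ≤ J) {ω : D.Ω}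
    (hE : LE D J (w₀ + a.2 * z) z n a ω) {l : ℕ} (hl : l ≤ n) {s : ℝ} (hs0 : 0 ≤ s) (hs1 : s ≤ 1) :
    |(Qp D J w a.1 a.2 ω l).eval s - (Qp D J w a.1 a.2 ω l).eval 0| ≤
      (K * (K + 1) + 1) * (K * (K + 1) + 1) / 2 ^ X := by
  obtain ⟨w', hw'⟩ : ∃ w', w' = w₀ + a.2 * z := ⟨_, rfl⟩
  rw [← hw'] at hE h3
  rw [Qp_win (w' := w') (by omega) h4, Qp_win (w' := w') (by omega) h4]
  have hd : (Qp D J w' a.1 a.2 ω l).natDegree < K * (K + 1) + 1 :=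
    Nat.lt_succ_of_le (Qp_deg hO.pa_deg hO.P_deg ω l)
  obtain ⟨b0, b1⟩ := th0_bd J w' w ω
  have h0 : (0 : ℝ) < 2 ^ (w - w') := by positivity
  have hs2 : s / 2 ^ (w - w') ≤ 1 / 2 ^ (w - w') := div_le_div_of_nonneg_right hs1 h0.le
  have hs3 : 0 ≤ s / 2 ^ (w - w') := by positivity
  have key := pol_lip hd (by positivity) (hE l hl) (x := th0 D J w' w ω + s / 2 ^ (w - w'))
    (y := th0 D J w' w ω + 0 / 2 ^ (w - w')) (by
      rw [abs_of_nonneg (by linarith)]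
      linarith) (by
      rw [zero_div, add_zero, abs_of_nonneg b0]
      have : 0 < 1 / (2 : ℝ) ^ (w - w') := by positivity
      linarith)
  refine key.trans ?_
  have e1 : |th0 D J w' w ω + s / 2 ^ (w - w') - (th0 D J w' w ω + 0 / 2 ^ (w - w'))| ≤
      1 / 2 ^ (w - w') := by
    rw [zero_div, add_zero, add_sub_cancel_left, abs_of_nonneg hs3]
    exact hs2
  have e2 : (2 : ℝ) ^ X * 2 ^ z ≤ 2 ^ (w - w') := by
    rw [← pow_add]
    exact pow_le_pow_right₀ (by norm_num) (by omega)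
  push_cast
  calc ((K : ℝ) * (K + 1) + 1) * (K * (K + 1) + 1) * 2 ^ z * _ ≤
        ((K : ℝ) * (K + 1) + 1) * (K * (K + 1) + 1) * 2 ^ z * (1 / 2 ^ (w - w')) :=
        mul_le_mul_of_nonneg_left e1 (by positivity)
    _ ≤ ((K : ℝ) * (K + 1) + 1) * (K * (K + 1) + 1) * 2 ^ z * (1 / (2 ^ X * 2 ^ z)) := by
        refine mul_le_mul_of_nonneg_left ?_ (by positivity)
        exact one_div_le_one_div_of_le (by positivity) e2
    _ = ((K : ℝ) * (K + 1) + 1) * (K * (K + 1) + 1) / 2 ^ X := by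
        field_simp

theorem zt_Qp (hO : D.Ok2 n K J a₀ w₀ z M lam gam κ C₁ q) {i j w : ℕ} (hw : w ≤ J) {ω : D.Ω}
    (hω : 0 < q ω) {l : ℕ} (hl : l ≤ n) :
    (Qp D J w i j ω l).eval ((thr D J w ω : ℝ) / 2 ^ (J - w)) = zt D i j ω l :=
  Qp_eval hO.X_zero hw (hO.str ω hω) (hO.P_tri i j (D.c i j ω)) hl

theorem zt_le1 (hO : D.Ok2 n K J a₀ w₀ z M lam gam κ C₁ q) {i j : ℕ} (hi : i ≤ M) (hj : j ≤ M)
    {ω : D.Ω} (hω : 0 < q ω) {l : ℕ} (hl : l ≤ n) : |zt D i j ω l| ≤ 1 :=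
  Pool.GSD.nat_le (hO.hgt i hi j hj ω hω l hl)

theorem thr_bd (J w : ℕ) (ω : D.Ω) : 0 ≤ (thr D J w ω : ℝ) / 2 ^ (J - w) ∧
    (thr D J w ω : ℝ) / 2 ^ (J - w) < 1 := by
  refine ⟨by positivity, ?_⟩
  rw [div_lt_one (by positivity)]
  have : D.T ω % 2 ^ (J - w) < 2 ^ (J - w) := Nat.mod_lt _ (by positivity)
  unfold thr
  exact_mod_cast this

end

/-- **The event of the line.** -/
theorem le_ev (n K : ℕ) (e : ℝ) (he : 0 < e) : ∃ (κ₀ : ℝ) (z₀ : ℕ), 0 < κ₀ ∧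
    ∀ (J a₀ w₀ z M : ℕ) (lam gam : ℕ → ℝ) (κ C₁ : ℝ) (D : NDat2) (q : D.Ω → ℝ), z₀ ≤ z →
      D.Ok2 n K J a₀ w₀ z M lam gam κ C₁ q → D.TmU J w₀ z κ₀ q → ∀ a : ℕ × ℕ, a.1 ≤ M →
      a.2 ≤ M → Pb q (fun ω => ¬ LE D J (w₀ + a.2 * z) z n a ω) ≤ e := by
  obtain ⟨κ₀, z₀, hκ, h⟩ := rem_smp (K * (K + 1) + 1) (by omega) (e / (n + 1)) (by positivity)
  refine ⟨κ₀, z₀, hκ, ?_⟩
  intro J a₀ w₀ z M lam gam κ C₁ D q hz hO hU a ha1 ha2
  have hq := hO.isLaw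
  have h1 := hO.top
  have h2 := hO.thin
  have h3 : a.2 * z ≤ M * z := Nat.mul_le_mul_right z ha2
  have h4 : (M + 1) * z = M * z + z := by ring
  have hwJ : w₀ + a.2 * z + z ≤ J := by omega
  have one : ∀ l ≤ n, Pb q (fun ω => ¬ ∀ m, |(Qp D J (w₀ + a.2 * z) a.1 a.2 ω l).coeff m| ≤
      2 ^ z) ≤ e / (n + 1) := by
    intro l hl
    have := h J w₀ (w₀ + a.2 * z) z D q hz (Nat.le_add_right _ _) hwJ hq hO.T_lt hO.ln_w hU
      (fun _ => True) (fun ω => Qp D J (w₀ + a.2 * z) a.1 a.2 ω l) 1 zero_le_one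
      (fun ω ω' p p' e' => Qp_congr (hO.c_wn a.1 ha1 a.2 ha2) p p' e' l)
      (fun ω _ => Nat.lt_succ_of_le (Qp_deg hO.pa_deg hO.P_deg ω l))
      (fun ω hω _ => by
        rw [zt_Qp hO (by omega) hω hl]
        exact zt_le1 hO ha1 ha2 hω hl)
    refine (le_of_eq ?_).trans (this.trans (le_of_eq ?_))
    · congr 1
      funext ω
      rw [one_mul]
    · have : Pb q (fun _ : D.Ω => ¬ True) = 0 := by
        unfold Pb
        refine Finset.sum_eq_zero fun ω _ => if_neg ?_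
        exact fun h => h trivial
      rw [this, zero_add]
  have hsub : Pb q (fun ω => ¬ LE D J (w₀ + a.2 * z) z n a ω) ≤
      Pb q (fun ω => ∃ l ∈ range (n + 1), ¬ ∀ m,
        |(Qp D J (w₀ + a.2 * z) a.1 a.2 ω l).coeff m| ≤ 2 ^ z) := by
    refine Pool.MIC.Pb_mono_ae hq.nonneg fun ω _ hb => ?_
    by_contra hcon
    push Not at hcon
    exact hb fun l hl m => hcon l (mem_range.2 (by omega)) m
  refine hsub.trans ((Pool.MIC7.Pb_un hq.nonneg _ _).trans ?_)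
  refine (Finset.sum_le_sum fun l hl => one l (Nat.lt_succ_iff.1 (mem_range.1 hl))).trans
    (le_of_eq ?_)
  rw [Finset.sum_const, card_range, nsmul_eq_mul]
  push_cast
  field_simp

end Pool.LSH
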