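import Pool.Agent.H12.LSH.Mix
import Pool.Agent.H12.LSH.Lin

/-!
# The geometry at a sample
-/

set_option autoImplicit false

namespace Pool.LSH

open Finset Real MvPolynomial
open Pool.Agent.H49.Ent Pool.Agent.H32.Dense Pool.STK Pool.STAT Pool.MIC Pool.MicA Pool.FRM
open Pool.GSD Pool.MIC7
open Pool.MIC.Frm (nat pt pt_eq)

/-- A frame at the sample: all places are near to it. -/
structure Fr (D : NDat2) (n K₂ M : ℕ) (E : ℝ) (P : ℕ → PN) (ω : D.Ω) : Prop where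
  tri : TriN P
  pt : ∀ l ≤ n, eval (D.X ω) (P l) = D.X ω l
  e1 : 1 ≤ E
  nb : ∀ a : ℕ × ℕ, a.1 < M → a.2 < M → Nb K₂ n (gl D a) (ch P (D.X ω 0) (D.Φ a.1 a.2 ω)) E

/-- The frame at a sample. -/
theorem frame_of (n K' : ℕ) (C : ℝ) (hC : 0 ≤ C) : ∃ C₂ : ℝ, 0 ≤ C₂ ∧
    ∀ (K J a₀ w₀ z M : ℕ) (lam gam : ℕ → ℝ) (κ C₁ : ℝ) (D : NDat2) (q : D.Ω → ℝ), K ≤ K' →
      1 ≤ z → D.Ok2 n K J a₀ w₀ z M lam gam κ C₁ q → ∀ (ω : D.Ω) (E : ℝ), 0 < q ω →
      Fra D n K' M z C ω → exp (C₂ * z) ≤ E → ∃ P, Fr D n (K' * (K' + 1) ^ n) M E P ω := by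
  obtain ⟨C₁', hC₁', hsd⟩ := side_near n K' C hC
  refine ⟨C₁', hC.trans hC₁', ?_⟩
  intro K J a₀ w₀ z M lam gam κ C₁ D q hK hz hO ω E hω hF hE
  obtain ⟨P, hP, dP, vP, nP⟩ := hF
  refine ⟨P, hP, vP, (one_le_e (hC.trans hC₁')).trans hE, fun a ha1 ha2 => ?_⟩
  exact nb_of hP (hO.P_tri _ _ _) dP (fun l => (hO.P_deg _ _ _ l).trans hK) le_rfl fun l hl =>
    (hsd D K a.1 a.2 z (D.Φ a.1 a.2) ω P hK hz (fun x => hO.G_tri _ _ x)
      (fun x l => hO.G_deg _ _ x l) (sd_line hO ha1.le ha2.le hω) hP dP vP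
      (fun l hl => nP a.1 ha1 a.2 ha2 l hl) l hl).trans
        (div_le_div_of_nonneg_right hE (by positivity))

/-- The coordinates in `S` have the heights `u` over the labels at `b`, the others over the labels
at `o`. -/
structure Mp (D : NDat2) (n : ℕ) (o b : ℕ × ℕ) (S : ℕ → Prop) (ω : D.Ω) (u x : ℕ → ℝ) :
    Prop where
  x0 : x 0 = D.X ω 0
  inn : ∀ l, 1 ≤ l → l < n → S l → x l = eval x (D.Φ b.1 b.2 ω l) + u l / 2 ^ gl D b l
  out : ∀ l, 1 ≤ l → l < n → ¬ S l → x l = eval x (D.Φ o.1 o.2 ω l) + u l / 2 ^ gl D o l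

/-- The levels of the mixture. -/
structure Ls (D : NDat2) (n : ℕ) (E : ℝ) (o b : ℕ × ℕ) (S : ℕ → Prop) : Prop where
  deep : ∀ l, 1 ≤ l → l < n → S l → gl D o l ≤ gl D b l
  wide : ∀ l, 1 ≤ l → l < n → ¬ S l → (2 : ℝ) ^ gl D b l ≤ E * 2 ^ gl D o l

section

variable (D : NDat2) (o b : ℕ × ℕ) (S : ℕ → Prop) [DecidablePred S]

/-- The levels. -/
def gS (l : ℕ) : ℕ := if S l then gl D b l else gl D o l

/-- The systems, in the chart. -/
noncomputable def FS (P : ℕ → PN) (ω : D.Ω) (l : ℕ) : PN :=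
  if S l then ch P (D.X ω 0) (D.Φ b.1 b.2 ω) l else ch P (D.X ω 0) (D.Φ o.1 o.2 ω) l

end

section

variable {D : NDat2} {n K₂ M : ℕ} {E W : ℝ} {P : ℕ → PN} {ω : D.Ω} {o b : ℕ × ℕ} {S : ℕ → Prop}
  [DecidablePred S] {u u' x x' : ℕ → ℝ}

theorem Mp.pt (hF : Fr D n K₂ M E P ω) (h : Mp D n o b S ω u x) :
    Pt (n - 1) (gS D o b S) (FS D o b S P ω) u (zs P x) := by
  refine ⟨zs_zero hF.tri h.x0 (hF.pt 0 (Nat.zero_le _)), fun l h1 h2 => ?_⟩
  have h3 : l < n := by omega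
  by_cases hS : S l
  · have e1 : gS D o b S l = gl D b l := if_pos hS
    have e2 : FS D o b S P ω l = ch P (D.X ω 0) (D.Φ b.1 b.2 ω) l := if_pos hS
    rw [e1, e2, eval_ch hF.tri h.x0 h1]
    have := h.inn l h1 h3 hS
    unfold zs
    linarith
  · have e1 : gS D o b S l = gl D o l := if_neg hS
    have e2 : FS D o b S P ω l = ch P (D.X ω 0) (D.Φ o.1 o.2 ω) l := if_neg hS
    rw [e1, e2, eval_ch hF.tri h.x0 h1]
    have := h.out l h1 h3 hS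
    unfold zs
    linarith

theorem mx_of (hF : Fr D n K₂ M E P ω) (hL : Ls D n E o b S) (ho : o.1 < M ∧ o.2 < M)
    (hb : b.1 < M ∧ b.2 < M) : Mx K₂ n (gS D o b S) (FS D o b S P ω) E := by
  have hE := hF.e1
  refine ⟨hE, fun l h1 h2 => ?_⟩
  by_cases hS : S l
  · refine ⟨gl D b, ch P (D.X ω 0) (D.Φ b.1 b.2 ω), hF.nb b hb.1 hb.2, (if_pos hS).symm,
      (if_pos hS).symm, fun r r1 r2 => ?_⟩
    by_cases hr : S r
    · have e1 : gS D o b S r = gl D b r := if_pos hr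
      rw [e1]
      exact le_mul_of_one_le_left (by positivity) hE
    · have e1 : gS D o b S r = gl D o r := if_neg hr
      rw [e1]
      exact hL.wide r r1 (by omega) hr
  · refine ⟨gl D o, ch P (D.X ω 0) (D.Φ o.1 o.2 ω), hF.nb o ho.1 ho.2, (if_neg hS).symm,
      (if_neg hS).symm, fun r r1 r2 => ?_⟩
    by_cases hr : S r
    · have e1 : gS D o b S r = gl D b r := if_pos hr
      rw [e1]
      refine le_trans ?_ (le_mul_of_one_le_left (by positivity) hE)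
      exact pow_le_pow_right₀ (by norm_num) (hL.deep r r1 (by omega) hr)
    · have e1 : gS D o b S r = gl D o r := if_neg hr
      rw [e1]
      exact le_mul_of_one_le_left (by positivity) hE

/-- The exponents. -/
def q1 (K₂ n : ℕ) : ℕ := dd K₂ n + 1

def q2 (K₂ n : ℕ) : ℕ := (K₂ + 1) * q1 K₂ n + K₂ + 2

theorem num3 {K e : ℕ} (hE : 1 ≤ E) (hW : W = 4 * E) :
    (K * (W ^ e) ^ K * E + 1) * W ^ e ≤ W ^ ((K + 1) * e + K + 2) := by
  have hW4 : 4 ≤ W := by linarith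
  have hW0 : 0 < W := by linarith
  have h1 : E ≤ W := by linarith
  have h4 : (K : ℝ) ≤ W ^ K := by
    have h := Nat.lt_two_pow_self (n := K)
    have h' : (K : ℝ) ≤ 2 ^ K := by exact_mod_cast h.le
    exact h'.trans (pow_le_pow_left₀ (by norm_num) (by linarith) K)
  have h5 : (K : ℝ) * (W ^ e) ^ K ≤ W ^ K * W ^ (e * K) := by
    rw [← pow_mul]
    exact mul_le_mul_of_nonneg_right h4 (by positivity)
  have h6 : K * (W ^ e) ^ K * E ≤ W ^ K * W ^ (e * K) * W :=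
    mul_le_mul h5 h1 (by linarith) (by positivity)
  have h7 : W ^ K * W ^ (e * K) * W = W ^ (K + e * K + 1) := by
    rw [← pow_add, ← pow_succ]
  rw [h7] at h6
  have h8 : (1 : ℝ) ≤ W ^ (K + e * K + 1) := one_le_pow₀ (by linarith)
  have h9 : K * (W ^ e) ^ K * E + 1 ≤ W ^ (K + e * K + 1) * W := by nlinarith
  calc (K * (W ^ e) ^ K * E + 1) * W ^ e ≤ W ^ (K + e * K + 1) * W * W ^ e :=
        mul_le_mul_of_nonneg_right h9 (by positivity)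
    _ = W ^ (K + e * K + 1 + 1 + e) := by rw [← pow_succ, ← pow_add]
    _ = W ^ ((K + 1) * e + K + 2) := by
        congr 1
        ring

theorem num4 {K e : ℕ} (hE : 1 ≤ E) (hW : W = 4 * E) :
    W ^ e + (W ^ e) ^ K * E ≤ W ^ ((K + 1) * e + K + 2) := by
  have hW4 : 4 ≤ W := by linarith
  have hW0 : 0 < W := by linarith
  have h1 : E ≤ W := by linarith
  have h2 : (W ^ e) ^ K * E ≤ W ^ ((K + 1) * e + 1) := by
    calc (W ^ e) ^ K * E ≤ W ^ (e * K) * W := by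
          rw [← pow_mul]
          exact mul_le_mul_of_nonneg_left h1 (by positivity)
      _ = W ^ (e * K + 1) := by rw [← pow_succ]
      _ ≤ _ := pow_le_pow_right₀ (by linarith) (by nlinarith)
  have h3 : W ^ e ≤ W ^ ((K + 1) * e + 1) := pow_le_pow_right₀ (by linarith) (by nlinarith)
  have h4 : 0 < W ^ ((K + 1) * e + 1) := by positivity
  calc W ^ e + (W ^ e) ^ K * E ≤ W ^ ((K + 1) * e + 1) * W := by nlinarith
    _ = W ^ ((K + 1) * e + 1 + 1) := by rw [← pow_succ]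
    _ ≤ _ := pow_le_pow_right₀ (by linarith) (by omega)

theorem nat_nt (hF : Fr D n K₂ M E P ω) (a : ℕ × ℕ) (hx : x 0 = D.X ω 0) {l : ℕ} (hl : 1 ≤ l) :
    nat (gl D a) (D.Φ a.1 a.2 ω) x l =
      nt (gl D a) (ch P (D.X ω 0) (D.Φ a.1 a.2 ω)) (zs P x) l := by
  unfold nt
  rw [eval_ch hF.tri hx hl]
  unfold nat zs
  ring

/-- The box at the place `a`. -/
theorem Mp.bx (hF : Fr D n K₂ M E P ω) (hL : Ls D n E o b S) (ho : o.1 < M ∧ o.2 < M)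
    (hb : b.1 < M ∧ b.2 < M) (hW : W = 4 * E) (h : Mp D n o b S ω u x)
    (hu : ∀ l, 1 ≤ l → l < n → |u l| ≤ E) {a : ℕ × ℕ} {ε : ℝ} (hε : 0 ≤ ε)
    (ha : ∀ l, 1 ≤ l → l < n → (2 : ℝ) ^ gl D a l ≤ ε * E * 2 ^ gS D o b S l) :
    ∀ l < n, |zs P x l| ≤ ε * W ^ q1 K₂ n / 2 ^ gl D a l := by
  have hE := hF.e1
  have hW4 : 4 ≤ W := by linarith
  intro l hl
  rcases Nat.eq_zero_or_pos l with h0 | h0
  · subst h0
    rw [(h.pt hF).1, abs_zero]
    positivity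
  · have h1 := (mx_of hF hL ho hb).bd hW (h.pt hF) hu l hl
    refine h1.trans ?_
    have h2 : W ^ dd K₂ l ≤ W ^ dd K₂ n := pow_le_pow_right₀ (by linarith) (dd_mono hl.le)
    have h3 := ha l h0 hl
    rw [div_le_div_iff₀ (by positivity) (by positivity)]
    calc W ^ dd K₂ l * 2 ^ gl D a l ≤ W ^ dd K₂ n * (ε * E * 2 ^ gS D o b S l) :=
          mul_le_mul h2 h3 (by positivity) (by positivity)
      _ = ε * (W ^ dd K₂ n * E) * 2 ^ gS D o b S l := by ring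
      _ ≤ ε * (W ^ dd K₂ n * W) * 2 ^ gS D o b S l :=
          mul_le_mul_of_nonneg_right (mul_le_mul_of_nonneg_left (mul_le_mul_of_nonneg_left
            (by linarith) (by positivity)) hε) (by positivity)
      _ = ε * W ^ q1 K₂ n * 2 ^ gS D o b S l := by
          unfold q1
          rw [pow_succ]

/-- Two points, at the place `a`. -/
theorem Mp.df (hF : Fr D n K₂ M E P ω) (hL : Ls D n E o b S) (ho : o.1 < M ∧ o.2 < M)
    (hb : b.1 < M ∧ b.2 < M) (hW : W = 4 * E) (h : Mp D n o b S ω u x)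
    (h' : Mp D n o b S ω u' x') (hu : ∀ l, 1 ≤ l → l < n → |u l| ≤ E)
    (hu' : ∀ l, 1 ≤ l → l < n → |u' l| ≤ E) {δ : ℝ} (hδ : 0 ≤ δ)
    (hd : ∀ l, 1 ≤ l → l < n → |u l - u' l| ≤ δ) {a : ℕ × ℕ}
    (ha : ∀ l, 1 ≤ l → l < n → (2 : ℝ) ^ gl D a l ≤ E * 2 ^ gS D o b S l) :
    ∀ l < n, |zs P x l - zs P x' l| ≤ W ^ q1 K₂ n * δ / 2 ^ gl D a l := by
  have hE := hF.e1
  have hW4 : 4 ≤ W := by linarith
  intro l hl
  rcases Nat.eq_zero_or_pos l with h0 | h0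
  · subst h0
    rw [(h.pt hF).1, (h'.pt hF).1, sub_self, abs_zero]
    positivity
  · have h1 := (mx_of hF hL ho hb).lip hW (h.pt hF) (h'.pt hF) hu hu' hδ hd l hl
    refine h1.trans ?_
    have h2 : W ^ dd K₂ l ≤ W ^ dd K₂ n := pow_le_pow_right₀ (by linarith) (dd_mono hl.le)
    have h3 := ha l h0 hl
    rw [div_le_div_iff₀ (by positivity) (by positivity)]
    calc W ^ dd K₂ l * δ * 2 ^ gl D a l ≤ W ^ dd K₂ n * δ * (E * 2 ^ gS D o b S l) :=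
          mul_le_mul (mul_le_mul_of_nonneg_right h2 hδ) h3 (by positivity) (by positivity)
      _ = W ^ dd K₂ n * E * (δ * 2 ^ gS D o b S l) := by ring
      _ ≤ W ^ dd K₂ n * W * (δ * 2 ^ gS D o b S l) :=
          mul_le_mul_of_nonneg_right (mul_le_mul_of_nonneg_left (by linarith) (by positivity))
            (by positivity)
      _ = W ^ q1 K₂ n * δ * 2 ^ gS D o b S l := by
          unfold q1
          rw [pow_succ]
          ring

/-- The natural coordinates at `a`. -/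
theorem Mp.nat_bd (hF : Fr D n K₂ M E P ω) (hL : Ls D n E o b S) (ho : o.1 < M ∧ o.2 < M)
    (hb : b.1 < M ∧ b.2 < M) (hW : W = 4 * E) (h : Mp D n o b S ω u x)
    (hu : ∀ l, 1 ≤ l → l < n → |u l| ≤ E) {a : ℕ × ℕ} (ha1 : a.1 < M ∧ a.2 < M)
    (ha : ∀ l, 1 ≤ l → l < n → (2 : ℝ) ^ gl D a l ≤ E * 2 ^ gS D o b S l) {l : ℕ} (l1 : 1 ≤ l)
    (l2 : l < n) : |nat (gl D a) (D.Φ a.1 a.2 ω) x l| ≤ W ^ q2 K₂ n := by
  have hE := hF.e1
  have hW4 : 4 ≤ W := by linarith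
  have h1 := h.bx (ε := 1) hF hL ho hb hW hu zero_le_one (by simpa only [one_mul] using ha)
  rw [nat_nt hF a h.x0 l1]
  refine (nt_bd (hF.nb a ha1.1 ha1.2) l2.le (A := W ^ q1 K₂ n) (one_le_pow₀ (by linarith))
    fun r hr => ?_).trans (num4 hE hW)
  have := h1 r (by omega)
  rwa [one_mul] at this

theorem Mp.nat_df (hF : Fr D n K₂ M E P ω) (hL : Ls D n E o b S) (ho : o.1 < M ∧ o.2 < M)
    (hb : b.1 < M ∧ b.2 < M) (hW : W = 4 * E) (h : Mp D n o b S ω u x)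
    (h' : Mp D n o b S ω u' x') (hu : ∀ l, 1 ≤ l → l < n → |u l| ≤ E)
    (hu' : ∀ l, 1 ≤ l → l < n → |u' l| ≤ E) {δ : ℝ} (hδ : 0 ≤ δ)
    (hd : ∀ l, 1 ≤ l → l < n → |u l - u' l| ≤ δ) {a : ℕ × ℕ} (ha1 : a.1 < M ∧ a.2 < M)
    (ha : ∀ l, 1 ≤ l → l < n → (2 : ℝ) ^ gl D a l ≤ E * 2 ^ gS D o b S l) {l : ℕ} (l1 : 1 ≤ l)
    (l2 : l < n) : |nat (gl D a) (D.Φ a.1 a.2 ω) x l - nat (gl D a) (D.Φ a.1 a.2 ω) x' l| ≤
      W ^ q2 K₂ n * δ := by
  have hE := hF.e1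
  have hW4 : 4 ≤ W := by linarith
  have h1 := h.bx (ε := 1) hF hL ho hb hW hu zero_le_one (by simpa only [one_mul] using ha)
  have h1' := h'.bx (ε := 1) hF hL ho hb hW hu' zero_le_one (by simpa only [one_mul] using ha)
  simp only [one_mul] at h1 h1'
  have h2 := h.df hF hL ho hb hW h' hu hu' hδ hd ha
  rw [nat_nt hF a h.x0 l1, nat_nt hF a h'.x0 l1]
  refine (nt_lip (hF.nb a ha1.1 ha1.2) l2.le (A := W ^ q1 K₂ n) (δ := W ^ q1 K₂ n * δ)
    (one_le_pow₀ (by linarith)) (by positivity) (fun r hr => h1 r (by omega))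
    (fun r hr => h1' r (by omega)) fun r hr => h2 r (by omega)).trans ?_
  rw [← mul_assoc]
  exact mul_le_mul_of_nonneg_right (num3 hE hW) hδ

/-- The sample itself is the origin of the chart. -/
theorem zs_own (hF : Fr D n K₂ M E P ω) {l : ℕ} (hl : l ≤ n) : zs P (D.X ω) l = 0 := by
  unfold zs
  rw [hF.pt l hl, sub_self]

/-- **The natural coordinates at a place `a` with a larger box**: the point is near to the
sample. -/
theorem Mp.nat_own (hF : Fr D n K₂ M E P ω) (hL : Ls D n E o b S) (ho : o.1 < M ∧ o.2 < M)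
    (hb : b.1 < M ∧ b.2 < M) (hW : W = 4 * E) (h : Mp D n o b S ω u x)
    (hu : ∀ l, 1 ≤ l → l < n → |u l| ≤ E) {a : ℕ × ℕ} (ha1 : a.1 < M ∧ a.2 < M) {ε : ℝ}
    (hε : 0 ≤ ε) (hε1 : ε ≤ 1)
    (ha : ∀ l, 1 ≤ l → l < n → (2 : ℝ) ^ gl D a l ≤ ε * E * 2 ^ gS D o b S l) {l : ℕ} (l1 : 1 ≤ l)
    (l2 : l < n) : |nat (gl D a) (D.Φ a.1 a.2 ω) x l - zt D a.1 a.2 ω l| ≤ W ^ q2 K₂ n * ε := by
  have hE := hF.e1
  have hW4 : 4 ≤ W := by linarith
  have h1 := h.bx hF hL ho hb hW hu hε ha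
  have e1 : zt D a.1 a.2 ω l = nt (gl D a) (ch P (D.X ω 0) (D.Φ a.1 a.2 ω)) (zs P (D.X ω)) l :=
    nat_nt hF a rfl l1
  rw [nat_nt hF a h.x0 l1, e1]
  have hA : (1 : ℝ) ≤ W ^ q1 K₂ n := one_le_pow₀ (by linarith)
  refine (nt_lip (hF.nb a ha1.1 ha1.2) l2.le (A := W ^ q1 K₂ n) (δ := ε * W ^ q1 K₂ n)
    hA (by positivity) (fun r hr => ?_) (fun r hr => ?_) fun r hr => ?_).trans ?_
  · refine (h1 r (by omega)).trans (div_le_div_of_nonneg_right ?_ (by positivity))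
    nlinarith
  · rw [zs_own hF (by omega), abs_zero]
    positivity
  · rw [zs_own hF (by omega), sub_zero]
    exact h1 r (by omega)
  · calc (K₂ * (W ^ q1 K₂ n) ^ K₂ * E + 1) * (ε * W ^ q1 K₂ n) =
          ε * ((K₂ * (W ^ q1 K₂ n) ^ K₂ * E + 1) * W ^ q1 K₂ n) := by ring
      _ ≤ ε * W ^ q2 K₂ n := mul_le_mul_of_nonneg_left (num3 hE hW) hε
      _ = W ^ q2 K₂ n * ε := by ring

/-- The labels at two places at a point. -/
theorem dn_eq (hF : Fr D n K₂ M E P ω) (hx : x 0 = D.X ω 0) {l : ℕ} (hl : 1 ≤ l) (a a' : ℕ × ℕ) :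
    eval x (D.Φ a.1 a.2 ω l) - eval x (D.Φ a'.1 a'.2 ω l) =
      eval (zs P x) (ch P (D.X ω 0) (D.Φ a.1 a.2 ω) l) -
        eval (zs P x) (ch P (D.X ω 0) (D.Φ a'.1 a'.2 ω) l) := by
  rw [eval_ch hF.tri hx hl, eval_ch hF.tri hx hl]
  ring

/-- The value of the label of the target. -/
theorem Mp.tg_bd (hF : Fr D n K₂ M E P ω) (hL : Ls D n E o b S) (ho : o.1 < M ∧ o.2 < M)
    (hb : b.1 < M ∧ b.2 < M) (hW : W = 4 * E) (h : Mp D n o b S ω u x)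
    (hu : ∀ l, 1 ≤ l → l < n → |u l| ≤ E) {a : ℕ × ℕ} (ha1 : a.1 < M ∧ a.2 < M)
    (ha : ∀ l, 1 ≤ l → l < n → (2 : ℝ) ^ gl D a l ≤ E * 2 ^ gS D o b S l) :
    |eval (zs P x) (ch P (D.X ω 0) (D.Φ a.1 a.2 ω) n)| ≤ W ^ q2 K₂ n / 2 ^ gl D a n := by
  have hE := hF.e1
  have hW4 : 4 ≤ W := by linarith
  have h1 := h.bx (ε := 1) hF hL ho hb hW hu zero_le_one (by simpa only [one_mul] using ha)
  simp only [one_mul] at h1
  refine ((hF.nb a ha1.1 ha1.2).val le_rfl (B := W ^ q1 K₂ n) (one_le_pow₀ (by linarith))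
    fun r hr => h1 r hr).trans (div_le_div_of_nonneg_right ?_ (by positivity))
  refine le_trans ?_ (num4 (K := K₂) (e := q1 K₂ n) hE hW)
  have : (0 : ℝ) < W ^ q1 K₂ n := by positivity
  linarith

theorem Mp.tg_df (hF : Fr D n K₂ M E P ω) (hL : Ls D n E o b S) (ho : o.1 < M ∧ o.2 < M)
    (hb : b.1 < M ∧ b.2 < M) (hW : W = 4 * E) (h : Mp D n o b S ω u x)
    (h' : Mp D n o b S ω u' x') (hu : ∀ l, 1 ≤ l → l < n → |u l| ≤ E)
    (hu' : ∀ l, 1 ≤ l → l < n → |u' l| ≤ E) {δ : ℝ} (hδ : 0 ≤ δ)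
    (hd : ∀ l, 1 ≤ l → l < n → |u l - u' l| ≤ δ) {a : ℕ × ℕ} (ha1 : a.1 < M ∧ a.2 < M)
    (ha : ∀ l, 1 ≤ l → l < n → (2 : ℝ) ^ gl D a l ≤ E * 2 ^ gS D o b S l) :
    |eval (zs P x) (ch P (D.X ω 0) (D.Φ a.1 a.2 ω) n) -
      eval (zs P x') (ch P (D.X ω 0) (D.Φ a.1 a.2 ω) n)| ≤ W ^ q2 K₂ n * δ / 2 ^ gl D a n := by
  have hE := hF.e1
  have hW4 : 4 ≤ W := by linarith
  have h1 := h.bx (ε := 1) hF hL ho hb hW hu zero_le_one (by simpa only [one_mul] using ha)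
  have h1' := h'.bx (ε := 1) hF hL ho hb hW hu' zero_le_one (by simpa only [one_mul] using ha)
  simp only [one_mul] at h1 h1'
  have h2 := h.df hF hL ho hb hW h' hu hu' hδ hd ha
  refine ((hF.nb a ha1.1 ha1.2).lip le_rfl (B := W ^ q1 K₂ n) (δ := W ^ q1 K₂ n * δ)
    (one_le_pow₀ (by linarith)) (by positivity) (fun r hr => h1 r hr) (fun r hr => h1' r hr)
    fun r hr => h2 r hr).trans (div_le_div_of_nonneg_right ?_ (by positivity))
  rw [← mul_assoc]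
  refine mul_le_mul_of_nonneg_right (le_trans ?_ (num3 hE hW)) hδ
  refine mul_le_mul_of_nonneg_right ?_ (by positivity)
  linarith

end

end Pool.LSH
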