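import Pool.Agent.H12.MICA.Ent
import Pool.Agent.H46.MIC.Ev

/-!
# The own shape at few digits from the own shape at many digits
-/

set_option autoImplicit false

namespace Pool.LSH

open Finset MvPolynomial
open Pool.Agent.H49.Ent Pool.Agent.H32.Dense Pool.STK Pool.STAT Pool.MIC Pool.MicA
open Pool.BFL (Pl Pb)
open Pool.Agent.H36.KBX (bx)

theorem rk_sub_C {m : ℕ} (s : ℕ) (P : Pl m) (a : ℝ) : rk s (P - C a) = rk s P := by
  classical
  funext α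
  unfold Pool.MIC.rk
  by_cases h : α = 0
  · rw [if_pos h, if_pos h]
  · rw [if_neg h, if_neg h, coeff_sub, coeff_C, if_neg (Ne.symm h), sub_zero]

theorem Sp_congr {k D s : ℕ} {f f' : (Fin k →₀ ℕ) → ℤ} (h : ∀ α ∈ bx k D, f α = f' α) :
    Sp D s f = Sp D s f' := by
  unfold Sp
  refine Finset.sum_congr rfl fun α hα => ?_
  rw [h α (Finset.mem_filter.1 hα).1]

/-- **The digits of a polynomial from the digits of the rounded scaled polynomial.** -/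
theorem rk_near (m K₀ : ℕ) : ∃ c : ℕ, ∀ (P P' : Pl m) (z s X X₀ : ℕ), P.totalDegree ≤ K₀ →
    P'.totalDegree ≤ K₀ → X + c ≤ s → s ≤ X₀ →
    rk s (scl m z (Sp K₀ X₀ (rk X₀ P))) = rk s (scl m z (Sp K₀ X₀ (rk X₀ P'))) →
    ∀ α, |((rk X P α - rk X P' α : ℤ) : ℝ)| ≤ 2 := by
  classical
  obtain ⟨Cb, hCb, hcb⟩ := Pool.Agent.H36.KBX.coef_bound m K₀
  obtain ⟨N, hN⟩ : ∃ N : ℝ, N = ((bx m K₀).card : ℝ) := ⟨_, rfl⟩
  have hN0 : 0 ≤ N := by
    rw [hN]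
    exact Nat.cast_nonneg _
  obtain ⟨c, hc⟩ : ∃ c : ℕ, Cb * N + 2 ≤ (2 : ℝ) ^ c := by
    obtain ⟨c, hc⟩ := pow_unbounded_of_one_lt (Cb * N + 2) (by norm_num : (1 : ℝ) < 2)
    exact ⟨c, hc.le⟩
  refine ⟨c, ?_⟩
  intro P P' z s X X₀ hP hP' hXs hsX h α
  by_cases hα : α = 0
  · subst hα
    unfold Pool.MIC.rk
    rw [if_pos rfl, if_pos rfl]
    norm_num
  have hs0 : (0 : ℝ) < 2 ^ s := by positivity
  have hX0 : (0 : ℝ) < 2 ^ X := by positivity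
  obtain ⟨S, hS⟩ : ∃ S, S = Sp K₀ X₀ (rk X₀ P) := ⟨_, rfl⟩
  obtain ⟨S', hS'⟩ : ∃ S', S' = Sp K₀ X₀ (rk X₀ P') := ⟨_, rfl⟩
  have hSd : S.totalDegree ≤ K₀ := by
    rw [hS]
    exact Sp_deg _ _ _
  have hSd' : S'.totalDegree ≤ K₀ := by
    rw [hS']
    exact Sp_deg _ _ _
  rw [← hS, ← hS'] at h
  obtain ⟨Q, hQ⟩ : ∃ Q, Q = scl m z S - scl m z S' := ⟨_, rfl⟩
  have hQd : Q.totalDegree ≤ K₀ := by
    rw [hQ]
    exact (totalDegree_sub _ _).trans (max_le ((deg_scl _ _ _).trans hSd)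
      ((deg_scl _ _ _).trans hSd'))
  obtain ⟨c0, hc0⟩ : ∃ c0, c0 = coeff 0 Q := ⟨_, rfl⟩
  -- step 1
  have h1 : ∀ β, |coeff β (Q - C c0)| ≤ 1 / 2 ^ s := by
    intro β
    rw [coeff_sub, coeff_C]
    by_cases hβ : β = 0
    · subst hβ
      rw [if_pos rfl, ← hc0, sub_self, abs_zero]
      positivity
    · rw [if_neg (Ne.symm hβ), sub_zero, hQ, coeff_sub]
      have e := congrFun h β
      unfold Pool.MIC.rk at e
      rw [if_neg hβ, if_neg hβ] at e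
      have e1 := Int.abs_sub_lt_one_of_floor_eq_floor e
      rw [← mul_sub, abs_mul, abs_of_pos hs0] at e1
      rw [le_div_iff₀ hs0]
      linarith
  -- step 2
  have h2 : ∀ y : Fin m → ℝ, (∀ i, |y i| ≤ 1) → |eval y (Q - C c0)| ≤ N * (1 / 2 ^ s) := by
    intro y hy
    have e := Pool.Agent.H36.KBX.eval_bound (Q - C c0) (D := K₀) ((totalDegree_sub _ _).trans
      (max_le hQd (by rw [totalDegree_C]; exact Nat.zero_le _))) (1 / 2 ^ s) 1 le_rfl h1 y hy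
    rw [one_pow, mul_one, ← hN] at e
    exact e
  -- step 3
  have h3 : ∀ x : Fin m → ℝ, (∀ i, |x i| ≤ 1) → |eval x (S - S' - C c0)| ≤ N * (1 / 2 ^ s) := by
    intro x hx
    have e1 : ∀ F : Pl m, eval (fun l => up z (x l)) (scl m z F) = eval x F := by
      intro F
      rw [eval_scl]
      refine congrArg (fun v : Fin m → ℝ => eval v F) ?_
      funext l
      exact up_scl z (x l)
    have e2 := h2 (fun l => up z (x l)) (fun l => by
      have e3 := up_mem (z := z) (hx l)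
      rw [abs_of_nonneg e3.1]
      exact e3.2)
    rw [hQ, map_sub, map_sub, e1, e1, eval_C] at e2
    rw [map_sub, map_sub, eval_C]
    exact e2
  -- step 4
  have h4 := hcb (S - S' - C c0) (N * (1 / 2 ^ s)) ((totalDegree_sub _ _).trans
    (max_le ((totalDegree_sub _ _).trans (max_le hSd hSd'))
      (by rw [totalDegree_C]; exact Nat.zero_le _))) h3 α
  rw [coeff_sub, coeff_sub, coeff_C, if_neg (Ne.symm hα), sub_zero] at h4
  -- step 5
  have h5 := coeff_sub_Sp (s := X₀) hP α hα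
  have h6 := coeff_sub_Sp (s := X₀) hP' α hα
  rw [← hS] at h5
  rw [← hS'] at h6
  have h7 : (1 : ℝ) / 2 ^ X₀ ≤ 1 / 2 ^ s :=
    one_div_le_one_div_of_le hs0 (pow_le_pow_right₀ one_le_two hsX)
  have h8 : |coeff α P - coeff α P'| ≤ 1 * (1 / 2 ^ X) := by
    have e1 : coeff α P - coeff α P' = (coeff α P - coeff α S) + (coeff α S - coeff α S') -
        (coeff α P' - coeff α S') := by ring
    rw [e1]
    refine (abs_sub _ _).trans ?_
    have e2 := abs_add_le (coeff α P - coeff α S) (coeff α S - coeff α S')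
    have e3 : (Cb * N + 2) * (1 / 2 ^ s) ≤ 1 / 2 ^ X := by
      rw [mul_one_div, div_le_div_iff₀ hs0 hX0, one_mul]
      calc (Cb * N + 2) * 2 ^ X ≤ 2 ^ c * 2 ^ X := mul_le_mul_of_nonneg_right hc hX0.le
        _ = 2 ^ (X + c) := by rw [pow_add, mul_comm]
        _ ≤ 2 ^ s := pow_le_pow_right₀ one_le_two hXs
    have e4 : Cb * (N * (1 / 2 ^ s)) = Cb * N * (1 / 2 ^ s) := by ring
    rw [e4] at h4
    rw [one_mul]
    have e5 : (Cb * N + 2) * ((1 : ℝ) / 2 ^ s) = Cb * N * (1 / 2 ^ s) + 2 * (1 / 2 ^ s) := by ring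
    rw [e5] at e3
    linarith
  have h9 := dig_near h8
  unfold Pool.MIC.rk
  rw [if_neg hα, if_neg hα]
  exact h9.trans (by norm_num)

/-- **The own shape with `X` digits** from `s ≥ X + c` digits of the own shape with `X₀ ≥ s`
digits. -/
theorem kpa_coarse (n K K₀ : ℕ) (hn : 1 ≤ n) (hK : K * (K + 1) ^ n ≤ K₀) :
    ∃ (c : ℕ) (C : ℝ), 0 ≤ C ∧
    ∀ (J a₀ w₀ z M i j i' j' X X₀ s bb bb₀ : ℕ) (lam gam : ℕ → ℝ) (κ C₁ : ℝ) (D : NDat2)
      (q : D.Ω → ℝ), D.Ok2 n K J a₀ w₀ z M lam gam κ C₁ q → Fat D n i j i' j' →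
      D.g i j n + X₀ ≤ D.g i' j' n → 1 ≤ X → X + c ≤ s → s ≤ X₀ →
      ∀ E : D.Ω → Prop, 0 < Pb q E → (∀ ω, 0 < q ω → E ω →
        Gdk D n K₀ z i j i' j' X₀ bb₀ ω ∧ Gdk D n K₀ z i j i' j' X bb ω) →
      ∀ {S : Type} (W : D.Ω → S),
        CH (cond q E True) (kpA D n K₀ z i j i' j' X bb) W ≤
          CH (cond q E True) (fun ω => rk s (kpA D n K₀ z i j i' j' X₀ bb₀ ω)) W + C := by
  classical
  obtain ⟨c, hc⟩ := rk_near (n - 1) K₀
  obtain ⟨d, hd⟩ : ∃ d, d = (bx (n - 1) K₀).card := ⟨_, rfl⟩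
  refine ⟨c, d * Real.log 5, mul_nonneg (Nat.cast_nonneg d) (Real.log_nonneg (by norm_num)), ?_⟩
  intro J a₀ w₀ z M i j i' j' X X₀ s bb bb₀ lam gam κ C₁ D q hO hF hg hX hXs hsX E hE hG S W
  have hq := isLaw_ev hO.isLaw E hE
  have hpos : ∀ ω, 0 < cond q E True ω → 0 < q ω ∧ E ω := fun ω h => ev_pos hO.isLaw.nonneg E h
  have hgX : D.g i j n + X ≤ D.g i' j' n := by omega
  have hX0 : 1 ≤ X₀ := by omega
  obtain ⟨e⟩ : Nonempty ({α // α ∈ bx (n - 1) K₀} ≃ Fin d) := by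
    rw [hd]
    exact ⟨(bx (n - 1) K₀).equivFin⟩
  obtain ⟨V, hV⟩ : ∃ V : D.Ω → Fin d → ℤ, V = fun ω k =>
    rk X (P0 D n i j i' j' ω) (e.symm k : Fin (n - 1) →₀ ℕ) := ⟨_, rfl⟩
  have hVe : ∀ ω k, V ω k = rk X (P0 D n i j i' j' ω) (e.symm k : Fin (n - 1) →₀ ℕ) := by
    intro ω k
    rw [hV]
  have hR : ∀ ω, kpR D n K₀ z i j i' j' X ω =
      scl (n - 1) z (Sp K₀ X (rk X (P0 D n i j i' j' ω))) := fun ω =>
    kpR_eq hO hn hF hX hgX ω
  have hR0 : ∀ ω, kpR D n K₀ z i j i' j' X₀ ω =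
      scl (n - 1) z (Sp K₀ X₀ (rk X₀ (P0 D n i j i' j' ω))) := fun ω =>
    kpR_eq hO hn hF hX0 hg ω
  have hPd : ∀ ω, (P0 D n i j i' j' ω).totalDegree ≤ K₀ := fun ω =>
    (deg_P0 hO i j i' j' ω).trans hK
  -- the shape is a function of the digits
  have a1 : CH (cond q E True) (kpA D n K₀ z i j i' j' X bb) W ≤ CH (cond q E True) V W := by
    refine CH_mono_left hq.nonneg fun ω ω' h h' e1 => ?_
    have e2 : V ω = V ω' := (Prod.ext_iff.1 e1).1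
    have e3 : kpR D n K₀ z i j i' j' X ω = kpR D n K₀ z i j i' j' X ω' := by
      rw [hR, hR]
      refine congrArg (scl (n - 1) z) (Sp_congr fun α hα => ?_)
      have e4 := congrFun e2 (e ⟨α, hα⟩)
      rw [hVe, hVe, Equiv.symm_apply_apply] at e4
      exact e4
    unfold kpA
    rw [if_pos (hG ω (hpos ω h).1 (hpos ω h).2).2, if_pos (hG ω' (hpos ω' h').1 (hpos ω' h').2).2,
      e3]
  have a2 := CH_le_add hq.nonneg V (fun ω => rk s (kpA D n K₀ z i j i' j' X₀ bb₀ ω)) W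
  have a3 := CH_le_vec hq.nonneg hq.sum_one V
    (fun ω => (rk s (kpA D n K₀ z i j i' j' X₀ bb₀ ω), W ω)) (fun _ => 2)
    (fun ω ω' h h' e1 k => by
      have e2 : rk s (kpA D n K₀ z i j i' j' X₀ bb₀ ω) =
        rk s (kpA D n K₀ z i j i' j' X₀ bb₀ ω') := (Prod.ext_iff.1 e1).1
      unfold kpA at e2
      rw [if_pos (hG ω (hpos ω h).1 (hpos ω h).2).1, if_pos (hG ω' (hpos ω' h').1 (hpos ω' h').2).1,
        rk_sub_C, rk_sub_C, hR0, hR0] at e2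
      rw [hVe, hVe]
      exact hc _ _ z s X X₀ (hPd ω) (hPd ω') hXs hsX e2 _)
  rw [Ex_const hq.sum_one] at a3
  have e5 : (2 : ℝ) * 2 + 1 = 5 := by norm_num
  rw [e5] at a3
  linarith

end Pool.LSH
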