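import Pool.Agent.H41.FRM.Cmp

/-!
# Mixed points in a chart

The coordinate `l` of a mixed point has the height `u l` over the system of its own place. The own
place is the deepest one for this coordinate, up to the factor `E`.
-/

set_option autoImplicit false

namespace Pool.LSH

open Finset Real MvPolynomial
open Pool.STAT Pool.MIC.Frm Pool.FRM

theorem dd2 (K l : ℕ) : (K + 1) * dd K l + 2 * K + 4 ≤ dd K (l + 1) := by
  unfold dd
  have h1 : K + 5 ≤ (K + 5) ^ (l + 1) := by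
    calc K + 5 = (K + 5) ^ 1 := (pow_one _).symm
      _ ≤ _ := Nat.pow_le_pow_right (by omega) (by omega)
  rw [pow_succ (K + 5) (l + 1)]
  nlinarith

/-- A mixture of places. -/
structure Mx (K n : ℕ) (gm : ℕ → ℕ) (Fm : ℕ → PN) (E : ℝ) : Prop where
  e1 : 1 ≤ E
  ex : ∀ l, 1 ≤ l → l < n → ∃ (g : ℕ → ℕ) (F : ℕ → PN), Nb K n g F E ∧ g l = gm l ∧
    F l = Fm l ∧ ∀ r, 1 ≤ r → r < l → (2 : ℝ) ^ g r ≤ E * 2 ^ gm r

variable {K n : ℕ} {gm : ℕ → ℕ} {Fm : ℕ → PN} {E W : ℝ}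

theorem two_le {a b : ℕ} {A E : ℝ} (hA : 0 ≤ A) (h : (2 : ℝ) ^ a ≤ E * 2 ^ b) :
    A / 2 ^ b ≤ E * A / 2 ^ a := by
  rw [div_le_div_iff₀ (by positivity) (by positivity)]
  calc A * 2 ^ a ≤ A * (E * 2 ^ b) := mul_le_mul_of_nonneg_left h hA
    _ = E * A * 2 ^ b := by ring

theorem num1 {K e : ℕ} (hE : 1 ≤ E) (hW : W = 4 * E) :
    (E * W ^ e) ^ K * E + E ≤ W ^ ((K + 1) * e + 2 * K + 4) := by
  have hW4 : 4 ≤ W := by linarith
  have hW0 : 0 < W := by linarith
  have h1 : E ≤ W := by linarith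
  have h2 : E * W ^ e ≤ W ^ (e + 1) := by
    rw [pow_succ']
    exact mul_le_mul_of_nonneg_right h1 (by positivity)
  have h3 : (E * W ^ e) ^ K ≤ W ^ ((e + 1) * K) := by
    rw [pow_mul]
    exact pow_le_pow_left₀ (by positivity) h2 K
  have h4 : (1 : ℝ) ≤ W ^ ((e + 1) * K) := one_le_pow₀ (by linarith)
  have h5 : (E * W ^ e) ^ K * E + E ≤ W ^ ((e + 1) * K) * W := by
    have : (E * W ^ e) ^ K * E ≤ W ^ ((e + 1) * K) * E :=
      mul_le_mul_of_nonneg_right h3 (by linarith)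
    nlinarith
  refine h5.trans ?_
  rw [← pow_succ]
  refine pow_le_pow_right₀ (by linarith) ?_
  nlinarith

theorem num2 {K e : ℕ} (hE : 1 ≤ E) (hW : W = 4 * E) :
    K * (E * W ^ e) ^ K * E * (E * W ^ e) + 1 ≤ W ^ ((K + 1) * e + 2 * K + 4) := by
  have hW4 : 4 ≤ W := by linarith
  have hW0 : 0 < W := by linarith
  have h1 : E ≤ W := by linarith
  have h2 : E * W ^ e ≤ W ^ (e + 1) := by
    rw [pow_succ']
    exact mul_le_mul_of_nonneg_right h1 (by positivity)
  have h3 : (E * W ^ e) ^ K ≤ W ^ ((e + 1) * K) := by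
    rw [pow_mul]
    exact pow_le_pow_left₀ (by positivity) h2 K
  have h4 : (K : ℝ) ≤ W ^ K := by
    have h := Nat.lt_two_pow_self (n := K)
    have h' : (K : ℝ) ≤ 2 ^ K := by exact_mod_cast h.le
    exact h'.trans (pow_le_pow_left₀ (by norm_num) (by linarith) K)
  have h5 : K * (E * W ^ e) ^ K ≤ W ^ K * W ^ ((e + 1) * K) :=
    mul_le_mul h4 h3 (by positivity) (by positivity)
  have h6 : K * (E * W ^ e) ^ K * E ≤ W ^ K * W ^ ((e + 1) * K) * W :=
    mul_le_mul h5 h1 (by linarith) (by positivity)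
  have h7 : K * (E * W ^ e) ^ K * E * (E * W ^ e) ≤
      W ^ K * W ^ ((e + 1) * K) * W * W ^ (e + 1) :=
    mul_le_mul h6 h2 (by positivity) (by positivity)
  have h8 : W ^ K * W ^ ((e + 1) * K) * W * W ^ (e + 1) = W ^ (K + (e + 1) * K + 1 + (e + 1)) := by
    rw [← pow_add W K, ← pow_succ, ← pow_add]
  rw [h8] at h7
  have h9 : (1 : ℝ) ≤ W ^ (K + (e + 1) * K + 1 + (e + 1)) := one_le_pow₀ (by linarith)
  have h10 : W ^ (K + (e + 1) * K + 1 + (e + 1)) * 2 ≤ W ^ (K + (e + 1) * K + 1 + (e + 1) + 1) := by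
    rw [pow_succ]
    exact mul_le_mul_of_nonneg_left (by linarith) (by positivity)
  have h11 : W ^ (K + (e + 1) * K + 1 + (e + 1) + 1) ≤ W ^ ((K + 1) * e + 2 * K + 4) := by
    refine pow_le_pow_right₀ (by linarith) ?_
    nlinarith
  linarith

/-- **The box of a mixed point.** -/
theorem Mx.bd (H : Mx K n gm Fm E) (hW : W = 4 * E) {u ζ : ℕ → ℝ} (hζ : Pt (n - 1) gm Fm u ζ)
    (hu : ∀ l, 1 ≤ l → l < n → |u l| ≤ E) : ∀ l < n, |ζ l| ≤ W ^ dd K l / 2 ^ gm l := by
  have hE := H.e1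
  have hW4 : 4 ≤ W := by linarith
  intro l
  induction l using Nat.strong_induction_on with
  | _ l ih =>
    intro hl
    rcases Nat.eq_zero_or_pos l with h0 | h0
    · subst h0
      rw [hζ.1, abs_zero]
      positivity
    · obtain ⟨m, rfl⟩ : ∃ m, l = m + 1 := ⟨l - 1, by omega⟩
      obtain ⟨g, F, hN, e1, e2, e3⟩ := H.ex (m + 1) h0 hl
      have hB : (1 : ℝ) ≤ E * W ^ dd K m := by
        have : (1 : ℝ) ≤ W ^ dd K m := one_le_pow₀ (by linarith)
        nlinarith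
      have ib : ∀ k < m + 1, |ζ k| ≤ E * W ^ dd K m / 2 ^ g k := by
        intro k hk
        rcases Nat.eq_zero_or_pos k with k0 | k0
        · subst k0
          rw [hζ.1, abs_zero]
          positivity
        · refine (ih k hk (by omega)).trans ?_
          refine (div_le_div_of_nonneg_right (pow_le_pow_right₀ (by linarith)
            (dd_mono (by omega : k ≤ m))) (by positivity)).trans ?_
          exact two_le (by positivity) (e3 k k0 hk)
      have h1 := hN.val (l := m + 1) (by omega) hB ib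
      rw [e2, e1] at h1
      have h2 : |u (m + 1) / 2 ^ gm (m + 1)| ≤ E / 2 ^ gm (m + 1) := by
        rw [abs_div, abs_of_pos (by positivity : (0 : ℝ) < 2 ^ gm (m + 1))]
        exact div_le_div_of_nonneg_right (hu _ h0 hl) (by positivity)
      rw [hζ.2 (m + 1) h0 (by omega)]
      refine (abs_add_le _ _).trans ((add_le_add h1 h2).trans ?_)
      rw [← add_div]
      refine div_le_div_of_nonneg_right ((num1 hE hW).trans ?_) (by positivity)
      exact pow_le_pow_right₀ (by linarith) (dd2 K m)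

/-- **Two mixed points.** -/
theorem Mx.lip (H : Mx K n gm Fm E) (hW : W = 4 * E) {u u' ζ ζ' : ℕ → ℝ}
    (hζ : Pt (n - 1) gm Fm u ζ) (hζ' : Pt (n - 1) gm Fm u' ζ')
    (hu : ∀ l, 1 ≤ l → l < n → |u l| ≤ E) (hu' : ∀ l, 1 ≤ l → l < n → |u' l| ≤ E)
    {δ : ℝ} (hδ : 0 ≤ δ) (hd : ∀ l, 1 ≤ l → l < n → |u l - u' l| ≤ δ) :
    ∀ l < n, |ζ l - ζ' l| ≤ W ^ dd K l * δ / 2 ^ gm l := by
  have hE := H.e1
  have hW4 : 4 ≤ W := by linarith
  have b := H.bd hW hζ hu
  have b' := H.bd hW hζ' hu'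
  intro l
  induction l using Nat.strong_induction_on with
  | _ l ih =>
    intro hl
    rcases Nat.eq_zero_or_pos l with h0 | h0
    · subst h0
      rw [hζ.1, hζ'.1, sub_self, abs_zero]
      positivity
    · obtain ⟨m, rfl⟩ : ∃ m, l = m + 1 := ⟨l - 1, by omega⟩
      obtain ⟨g, F, hN, e1, e2, e3⟩ := H.ex (m + 1) h0 hl
      have hB : (1 : ℝ) ≤ E * W ^ dd K m := by
        have : (1 : ℝ) ≤ W ^ dd K m := one_le_pow₀ (by linarith)
        nlinarith
      have ib : ∀ (ζ : ℕ → ℝ), ζ 0 = 0 → (∀ l < n, |ζ l| ≤ W ^ dd K l / 2 ^ gm l) →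
          ∀ k < m + 1, |ζ k| ≤ E * W ^ dd K m / 2 ^ g k := by
        intro ζ h0' hb k hk
        rcases Nat.eq_zero_or_pos k with k0 | k0
        · subst k0
          rw [h0', abs_zero]
          positivity
        · refine (hb k (by omega)).trans ?_
          refine (div_le_div_of_nonneg_right (pow_le_pow_right₀ (by linarith)
            (dd_mono (by omega : k ≤ m))) (by positivity)).trans ?_
          exact two_le (by positivity) (e3 k k0 hk)
      have id : ∀ k < m + 1, |ζ k - ζ' k| ≤ E * W ^ dd K m * δ / 2 ^ g k := by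
        intro k hk
        rcases Nat.eq_zero_or_pos k with k0 | k0
        · subst k0
          rw [hζ.1, hζ'.1, sub_self, abs_zero]
          positivity
        · refine (ih k hk (by omega)).trans ?_
          refine (div_le_div_of_nonneg_right (mul_le_mul_of_nonneg_right (pow_le_pow_right₀
            (by linarith) (dd_mono (by omega : k ≤ m))) hδ) (by positivity)).trans ?_
          rw [mul_assoc]
          exact two_le (by positivity) (e3 k k0 hk)
      have h1 := hN.lip (l := m + 1) (by omega) hB (δ := E * W ^ dd K m * δ) (by positivity)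
        (ib ζ hζ.1 b) (ib ζ' hζ'.1 b') id
      rw [e2, e1] at h1
      have h2 : |u (m + 1) / 2 ^ gm (m + 1) - u' (m + 1) / 2 ^ gm (m + 1)| ≤
          δ / 2 ^ gm (m + 1) := by
        rw [← sub_div, abs_div, abs_of_pos (by positivity : (0 : ℝ) < 2 ^ gm (m + 1))]
        exact div_le_div_of_nonneg_right (hd _ h0 hl) (by positivity)
      rw [hζ.2 (m + 1) h0 (by omega), hζ'.2 (m + 1) h0 (by omega)]
      have e4 : eval ζ (Fm (m + 1)) + u (m + 1) / 2 ^ gm (m + 1) -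
          (eval ζ' (Fm (m + 1)) + u' (m + 1) / 2 ^ gm (m + 1)) =
          (eval ζ (Fm (m + 1)) - eval ζ' (Fm (m + 1))) +
            (u (m + 1) / 2 ^ gm (m + 1) - u' (m + 1) / 2 ^ gm (m + 1)) := by ring
      rw [e4]
      refine (abs_add_le _ _).trans ((add_le_add h1 h2).trans ?_)
      rw [← add_div]
      refine div_le_div_of_nonneg_right ?_ (by positivity)
      have e5 : K * (E * W ^ dd K m) ^ K * E * (E * W ^ dd K m * δ) + δ =
          (K * (E * W ^ dd K m) ^ K * E * (E * W ^ dd K m) + 1) * δ := by ring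
      rw [e5]
      refine mul_le_mul_of_nonneg_right ((num2 hE hW).trans ?_) hδ
      exact pow_le_pow_right₀ (by linarith) (dd2 K m)

/-- The natural coordinate at a place. -/
noncomputable def nt (g : ℕ → ℕ) (F : ℕ → PN) (ζ : ℕ → ℝ) (l : ℕ) : ℝ :=
  2 ^ g l * (ζ l - eval ζ (F l))

theorem nt_bd {g : ℕ → ℕ} {F : ℕ → PN} {c : ℕ} (hN : Nb K c g F E) {l : ℕ} (hl : l ≤ c) {A : ℝ}
    (hA : 1 ≤ A) {ζ : ℕ → ℝ} (h : ∀ r ≤ l, |ζ r| ≤ A / 2 ^ g r) :
    |nt g F ζ l| ≤ A + A ^ K * E := by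
  have h1 := hN.val hl hA (β := ζ) fun k hk => h k hk.le
  have h2 := h l le_rfl
  have h3 : (0 : ℝ) < 2 ^ g l := by positivity
  unfold nt
  rw [abs_mul, abs_of_pos h3]
  calc 2 ^ g l * |ζ l - eval ζ (F l)| ≤ 2 ^ g l * (A / 2 ^ g l + A ^ K * E / 2 ^ g l) :=
        mul_le_mul_of_nonneg_left ((abs_sub _ _).trans (add_le_add h2 h1)) h3.le
    _ = A + A ^ K * E := by field_simp

theorem nt_lip {g : ℕ → ℕ} {F : ℕ → PN} {c : ℕ} (hN : Nb K c g F E) {l : ℕ} (hl : l ≤ c)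
    {A δ : ℝ} (hA : 1 ≤ A) (hδ : 0 ≤ δ) {ζ ζ' : ℕ → ℝ} (h : ∀ r < l, |ζ r| ≤ A / 2 ^ g r)
    (h' : ∀ r < l, |ζ' r| ≤ A / 2 ^ g r) (hd : ∀ r ≤ l, |ζ r - ζ' r| ≤ δ / 2 ^ g r) :
    |nt g F ζ l - nt g F ζ' l| ≤ (K * A ^ K * E + 1) * δ := by
  have h1 := hN.lip hl hA hδ (β := ζ) (β' := ζ') h h' fun k hk => hd k hk.le
  have h2 := hd l le_rfl
  have h3 : (0 : ℝ) < 2 ^ g l := by positivity
  unfold nt
  rw [← mul_sub, abs_mul, abs_of_pos h3]
  have e : ζ l - eval ζ (F l) - (ζ' l - eval ζ' (F l)) =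
      (ζ l - ζ' l) - (eval ζ (F l) - eval ζ' (F l)) := by ring
  rw [e]
  calc 2 ^ g l * |(ζ l - ζ' l) - (eval ζ (F l) - eval ζ' (F l))| ≤
        2 ^ g l * (δ / 2 ^ g l + K * A ^ K * E * δ / 2 ^ g l) :=
        mul_le_mul_of_nonneg_left ((abs_sub _ _).trans (add_le_add h2 h1)) h3.le
    _ = (K * A ^ K * E + 1) * δ := by
        field_simp
        ring

end Pool.LSH
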