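import Pool.Agent.H12.LSH.Pol
import Pool.Agent.H12.LSH.Geo
import Pool.Agent.H12.MICA.Leaf

/-!
# The sheets at a sample
-/

set_option autoImplicit false

namespace Pool.LSH

open Finset MvPolynomial
open Pool.Agent.H49.Ent Pool.Agent.H32.Dense Pool.STK Pool.STAT Pool.MIC Pool.MicA Pool.PTH
open Pool.MIC.Frm (nat pt pt_eq)
open Pool.BFL (Pl Pb)

/-! ### Ranks -/

section

variable {k n : ℕ} {π : Pls k}

theorem rk_co (h : Function.Injective π.co) (r : Fin k) : π.rk (π.co r) = r := by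
  have h1 : ∃ r', π.co r' = π.co r := ⟨r, rfl⟩
  unfold Pls.rk
  rw [dif_pos h1]
  exact congrArg Fin.val (h h1.choose_spec)

theorem of_rk {l : ℕ} (h : π.rk l < k) : ∃ r : Fin k, π.co r = l ∧ π.rk l = r := by
  unfold Pls.rk at h ⊢
  by_cases h1 : ∃ r, π.co r = l
  · rw [dif_pos h1]
    exact ⟨h1.choose, h1.choose_spec, rfl⟩
  · rw [dif_neg h1] at h
    exact absurd h (lt_irrefl k)

theorem of_rk_eq {l : ℕ} {r : Fin k} (h : π.rk l = r) : π.co r = l := by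
  obtain ⟨r', h1, h2⟩ := of_rk (π := π) (l := l) (by rw [h]; exact r.2)
  have : r = r' := Fin.ext (h.symm.trans h2)
  rw [this]
  exact h1

theorem rk_all {π : Pls (n - 1)} (h : Function.Injective π.co) (h1 : ∀ r, 1 ≤ π.co r)
    (h2 : ∀ r, π.co r < n) {l : ℕ} (l1 : 1 ≤ l) (l2 : l < n) : π.rk l < n - 1 := by
  obtain ⟨f, hf⟩ : ∃ f : Fin (n - 1) → Fin (n - 1), ∀ r, (f r : ℕ) + 1 = π.co r := by
    refine ⟨fun r => ⟨π.co r - 1, by have := h1 r; have := h2 r; omega⟩, fun r => ?_⟩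
    have := h1 r
    dsimp only
    omega
  have hinj : Function.Injective f := fun r r' e => h (by rw [← hf, ← hf, e])
  obtain ⟨r, hr⟩ := (Finite.injective_iff_surjective.1 hinj) ⟨l - 1, by omega⟩
  have e : π.co r = l := by
    rw [← hf, hr]
    dsimp only
    omega
  rw [← e, rk_co h]
  exact r.2

end

/-! ### The sheets: triangular, with `y` on the diagonal -/

section

variable {D : NDat2} {k K n : ℕ} {π : Pls k}

theorem pt_low {g : ℕ → ℕ} {Φ : ℕ → PN} (hΦ : TriN Φ) {u u' : ℕ → ℝ} {m : ℕ}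
    (h : ∀ l < m, u l = u' l) : ∀ l < m, pt g Φ u l = pt g Φ u' l := by
  intro l
  induction l using Nat.strong_induction_on with
  | _ l ih =>
    intro hl
    rw [pt_eq hΦ u l, pt_eq hΦ u' l, h l hl]
    congr 1
    exact Pool.SYS35.eval_congr (hΦ l) fun r hr => ih r hr (by omega)

theorem atT_pos (s : ℝ) (Φ : ℕ → PN) {l : ℕ} (hl : 1 ≤ l) : atT s Φ l = Φ l := by
  unfold atT
  rw [Function.update_of_ne (by omega)]

theorem mxpt_eq (tP : ∀ i j x, TriN (D.P i j x)) (w X : ℕ) (r : Fin k) (ζ : ZeT D k) (t y : ℝ)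
    {l : ℕ} (hl : 1 ≤ l) : mxpt D π w X r ζ t y l =
      eval (mxpt D π w X r ζ t y) (mxP D π r ζ.1 (ζ.2.2 r).1 l) +
        mxu D π X r (ζ.2.2 r).2.1 y l / 2 ^ mxg D π r l := by
  have h := pt_eq (g := mxg D π r) (Pool.MicA.tri_atT (tri_mxP (π := π) tP r ζ.1 (ζ.2.2 r).1)
    (tt w ζ.2.1 t)) (mxu D π X r (ζ.2.2 r).2.1 y) l
  rw [atT_pos _ _ hl] at h
  exact h

theorem mxpt_zero (tP : ∀ i j x, TriN (D.P i j x)) (hk : ∀ r, 1 ≤ π.co r) (w X : ℕ) (r : Fin k)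
    (ζ : ZeT D k) (t y : ℝ) : mxpt D π w X r ζ t y 0 = tt w ζ.2.1 t := by
  have h := pt_eq (g := mxg D π r) (Pool.MicA.tri_atT (tri_mxP (π := π) tP r ζ.1 (ζ.2.2 r).1)
    (tt w ζ.2.1 t)) (mxu D π X r (ζ.2.2 r).2.1 y) 0
  have hr : ¬ π.rk 0 < k := by
    intro hc
    obtain ⟨r', h1, -⟩ := of_rk hc
    have := hk r'
    omega
  have hu : mxu D π X r (ζ.2.2 r).2.1 y 0 = 0 := by
    unfold mxu
    rw [if_neg (by have := r.2; omega), if_neg (by have := r.2; omega)]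
  have ha : atT (tt w ζ.2.1 t) (mxP D π r ζ.1 (ζ.2.2 r).1) 0 = C (tt w ζ.2.1 t) := by
    unfold atT
    rw [Function.update_self]
  rw [hu, ha, eval_C, zero_div, add_zero] at h
  exact h

theorem shf_nat (h1 : ∀ r, 1 ≤ π.co r) (w X : ℕ) (r : Fin k) (ζ : ZeT D k) (t y : ℝ)
    (i : Fin k) : shf D π w X r ζ t y i =
      nat (gl D π.o) (D.P π.o.1 π.o.2 ζ.1) (mxpt D π w X r ζ t y) (π.co i) := by
  unfold shf nat
  rw [atT_pos _ _ (h1 i)]

theorem shf_tri (tP : ∀ i j x, TriN (D.P i j x)) (hi : Function.Injective π.co)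
    (h1 : ∀ r, 1 ≤ π.co r) (w X : ℕ) {r i : Fin k} (hri : r < i) (ζ : ZeT D k) (t y : ℝ) :
    shf D π w X r ζ t y i = 0 := by
  have hr : ¬ π.rk (π.co i) ≤ r := by
    rw [rk_co hi]
    exact not_le.2 hri
  rw [shf_nat h1]
  unfold nat
  rw [mxpt_eq tP w X r ζ t y (h1 i)]
  have e1 : mxP D π r ζ.1 (ζ.2.2 r).1 (π.co i) = D.P π.o.1 π.o.2 ζ.1 (π.co i) := if_neg hr
  have e2 : mxu D π X r (ζ.2.2 r).2.1 y (π.co i) = 0 := by
    unfold mxu
    rw [if_neg (by omega), if_neg (by omega)]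
  rw [e1, e2, zero_div, add_zero, sub_self, mul_zero]

theorem shf_dia (tP : ∀ i j x, TriN (D.P i j x)) (hi : Function.Injective π.co)
    (h1 : ∀ r, 1 ≤ π.co r) (w X : ℕ) (r : Fin k) (ζ : ZeT D k) (t y : ℝ) :
    shf D π w X r ζ t y r = y + shf D π w X r ζ t 0 r := by
  have hr : π.rk (π.co r) = r := rk_co hi r
  rw [shf_nat h1, shf_nat h1]
  unfold nat
  rw [mxpt_eq tP w X r ζ t y (h1 r), mxpt_eq tP w X r ζ t 0 (h1 r)]
  have e2 : ∀ y, mxu D π X r (ζ.2.2 r).2.1 y (π.co r) =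
      2 ^ gl D (π.p r) (π.co r) / 2 ^ gl D π.o (π.co r) * y := by
    intro y
    unfold mxu
    rw [if_neg (by omega), if_pos hr]
  have e3 : mxg D π r (π.co r) = gl D (π.p r) (π.co r) := if_pos hr.le
  have low : ∀ l < π.co r, mxpt D π w X r ζ t y l = mxpt D π w X r ζ t 0 l := by
    refine pt_low (Pool.MicA.tri_atT (tri_mxP tP _ _ _) _) fun l hl => ?_
    have hne : ¬ π.rk l = r := by
      intro hc
      have := of_rk_eq hc
      omega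
    unfold mxu
    rw [if_neg hne, if_neg hne]
  have e4 : eval (mxpt D π w X r ζ t y) (mxP D π r ζ.1 (ζ.2.2 r).1 (π.co r)) =
      eval (mxpt D π w X r ζ t 0) (mxP D π r ζ.1 (ζ.2.2 r).1 (π.co r)) :=
    Pool.SYS35.eval_congr (tri_mxP tP _ _ _ _) low
  have e5 : eval (mxpt D π w X r ζ t y) (D.P π.o.1 π.o.2 ζ.1 (π.co r)) =
      eval (mxpt D π w X r ζ t 0) (D.P π.o.1 π.o.2 ζ.1 (π.co r)) :=
    Pool.SYS35.eval_congr (tP _ _ _ _) low
  rw [e2, e2, e3, e4, e5]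
  field_simp
  ring

end

/-! ### At a sample -/

section

variable {D : NDat2} {n K J a₀ w₀ z M k : ℕ} {lam gam : ℕ → ℝ} {κ C₁ : ℝ} {q : D.Ω → ℝ}
  {π : Pls k}

/-- The time of the sample in the window. -/
noncomputable def tm (D : NDat2) (J w : ℕ) (ω : D.Ω) : ℝ := (thr D J w ω : ℝ) / 2 ^ (J - w)

theorem tt_eq (hO : D.Ok2 n K J a₀ w₀ z M lam gam κ C₁ q) {w : ℕ} (hw : w ≤ J) (ω : D.Ω) :
    tt w (D.wn J w ω).2 (tm D J w ω) = D.X ω 0 := by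
  have h := tp_eval hO.X_zero hw ω
  unfold tp at h
  rw [Polynomial.eval_add, Polynomial.eval_C, Polynomial.eval_mul, Polynomial.eval_C,
    Polynomial.eval_X] at h
  exact h

theorem Zd_one (J w : ℕ) (ω₀ : D.Ω) (X : ℕ) (r : Fin k) (x : D.Λ × ℕ) :
    (Zd D π q J w ω₀ X r x).1 = cl D q J w ω₀ π.o x ∧ (Zd D π q J w ω₀ X r x).2.1 = x.2 ∧
      ((Zd D π q J w ω₀ X r x).2.2 r).1 = cl D q J w ω₀ (π.p r) x ∧
      ((Zd D π q J w ω₀ X r x).2.2 r).2.1 = hd D π q J w ω₀ X r x := by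
  refine ⟨rfl, rfl, ?_, ?_⟩
  · unfold Zd
    dsimp only
    rw [min_self]
  · unfold Zd
    dsimp only
    rw [min_self]

/-- The point of the sheet at the time of the sample. -/
theorem mp_mx (hO : D.Ok2 n K J a₀ w₀ z M lam gam κ C₁ q) (hk : ∀ r, 1 ≤ π.co r) {w : ℕ}
    (hw : w ≤ J) (ω₀ : D.Ω) {X : ℕ} {r : Fin k}
    (ho : Det q (D.wn J w) (D.c π.o.1 π.o.2))
    (hp : Det q (D.wn J w) (D.c (π.p r).1 (π.p r).2)) {ω : D.Ω} (hω : 0 < q ω) (y : ℝ) :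
    Mp D n π.o (π.p r) (fun l => π.rk l ≤ r) ω
      (mxu D π X r (hd D π q J w ω₀ X r (D.wn J w ω)) y)
      (mxpt D π w X r (Zd D π q J w ω₀ X r (D.wn J w ω)) (tm D J w ω) y) := by
  obtain ⟨z1, z2, z3, z4⟩ := Zd_one (π := π) (q := q) J w ω₀ X r (D.wn J w ω)
  have c1 := cl_eq ω₀ ho hω
  have c2 := cl_eq ω₀ hp hω
  refine ⟨?_, fun l l1 l2 hS => ?_, fun l l1 l2 hS => ?_⟩
  · rw [mxpt_zero hO.P_tri hk, z2]
    exact tt_eq hO hw ω
  · rw [mxpt_eq hO.P_tri _ _ _ _ _ _ l1, z1, z3, z4, c1, c2]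
    have e1 : mxP D π r (D.c π.o.1 π.o.2 ω) (D.c (π.p r).1 (π.p r).2 ω) l =
        D.Φ (π.p r).1 (π.p r).2 ω l := if_pos hS
    have e2 : mxg D π r l = gl D (π.p r) l := if_pos hS
    rw [e1, e2]
  · rw [mxpt_eq hO.P_tri _ _ _ _ _ _ l1, z1, z3, z4, c1, c2]
    have e1 : mxP D π r (D.c π.o.1 π.o.2 ω) (D.c (π.p r).1 (π.p r).2 ω) l =
        D.Φ π.o.1 π.o.2 ω l := if_neg hS
    have e2 : mxg D π r l = gl D π.o l := if_neg hS
    rw [e1, e2]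

theorem shf_smp (hk : ∀ r, 1 ≤ π.co r) (J w : ℕ) (ω₀ : D.Ω) (X : ℕ) (r : Fin k)
    (ho : Det q (D.wn J w) (D.c π.o.1 π.o.2)) {ω : D.Ω} (hω : 0 < q ω) (t y : ℝ) (i : Fin k) :
    shf D π w X r (Zd D π q J w ω₀ X r (D.wn J w ω)) t y i =
      nat (gl D π.o) (D.Φ π.o.1 π.o.2 ω)
        (mxpt D π w X r (Zd D π q J w ω₀ X r (D.wn J w ω)) t y) (π.co i) := by
  rw [shf_nat hk, (Zd_one (π := π) (q := q) J w ω₀ X r (D.wn J w ω)).1, cl_eq ω₀ ho hω]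
  rfl

/-- The point of the target at the time of the sample. -/
theorem mp_xv (hO : D.Ok2 n K J a₀ w₀ z M lam gam κ C₁ q) (hk : ∀ r, 1 ≤ π.co r) {w : ℕ}
    (hw : w ≤ J) (ω₀ : D.Ω) {X : ℕ} {a : ℕ × ℕ}
    (ho : Det q (D.wn J w) (D.c π.o.1 π.o.2)) (ha : Det q (D.wn J w) (D.c a.1 a.2)) {ω : D.Ω}
    (hω : 0 < q ω) :
    Mp D n π.o a (fun l => π.rk l < k) ω
      (fun l => if π.rk l < k then (hn D π q J w ω₀ X a (D.wn J w ω) l : ℝ) / 2 ^ X else 0)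
      (xvp D π w X a (Vd D π q J w ω₀ X a (D.wn J w ω)).1 (tm D J w ω)) := by
  have c1 := cl_eq ω₀ ho hω
  have c2 := cl_eq ω₀ ha hω
  have tri : TriN fun l => if π.rk l < k then
      D.P a.1 a.2 (Vd D π q J w ω₀ X a (D.wn J w ω)).1.2.2.1 l else
        D.P π.o.1 π.o.2 (Vd D π q J w ω₀ X a (D.wn J w ω)).1.1 l := by
    intro l
    dsimp only
    split_ifs
    · exact hO.P_tri _ _ _ l
    · exact hO.P_tri _ _ _ l
  have h := fun l => pt_eq (g := fun l => if π.rk l < k then gl D a l else gl D π.o l)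
    (Pool.MicA.tri_atT tri (tt w (Vd D π q J w ω₀ X a (D.wn J w ω)).1.2.1 (tm D J w ω)))
    (fun l => if π.rk l < k then
      ((Vd D π q J w ω₀ X a (D.wn J w ω)).1.2.2.2 l : ℝ) / 2 ^ X else 0) l
  change ∀ l, xvp D π w X a (Vd D π q J w ω₀ X a (D.wn J w ω)).1 (tm D J w ω) l =
    eval (xvp D π w X a (Vd D π q J w ω₀ X a (D.wn J w ω)).1 (tm D J w ω)) _ + _ at h
  refine ⟨?_, fun l l1 l2 hS => ?_, fun l l1 l2 hS => ?_⟩
  · have hr : ¬ π.rk 0 < k := by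
      intro hc
      obtain ⟨r', h1, -⟩ := of_rk hc
      have := hk r'
      omega
    have h0 := h 0
    rw [if_neg hr, zero_div, add_zero] at h0
    rw [h0]
    unfold atT
    rw [Function.update_self, eval_C]
    exact tt_eq hO hw ω
  · rw [h l, atT_pos _ _ l1]
    rw [if_pos hS, if_pos hS, if_pos hS, if_pos hS]
    have e1 : (Vd D π q J w ω₀ X a (D.wn J w ω)).1.2.2.1 = D.c a.1 a.2 ω := c2
    rw [e1]
    rfl
  · rw [h l, atT_pos _ _ l1]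
    rw [if_neg hS, if_neg hS, if_neg hS, if_neg hS]
    have e1 : (Vd D π q J w ω₀ X a (D.wn J w ω)).1.1 = D.c π.o.1 π.o.2 ω := c1
    rw [e1]
    rfl

/-- The sample itself. -/
theorem mp_own (n : ℕ) (o b : ℕ × ℕ) (S : ℕ → Prop) (ω : D.Ω) (u : ℕ → ℝ)
    (h : ∀ l, 1 ≤ l → l < n → S l → u l = zt D b.1 b.2 ω l)
    (h' : ∀ l, 1 ≤ l → l < n → ¬ S l → u l = zt D o.1 o.2 ω l) :
    Mp D n o b S ω u (D.X ω) := by
  refine ⟨rfl, fun l l1 l2 hS => ?_, fun l l1 l2 hS => ?_⟩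
  · rw [h l l1 l2 hS]
    unfold zt nat gl
    field_simp
    ring
  · rw [h' l l1 l2 hS]
    unfold zt nat gl
    field_simp
    ring

end

end Pool.LSH
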