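import Pool.Agent.H12.LSH.Smq

/-!
# The own shape, and numbers
-/

set_option autoImplicit false

namespace Pool.LSH

open Finset MvPolynomial
open Pool.Agent.H49.Ent Pool.Agent.H32.Dense Pool.STK Pool.STAT Pool.MIC Pool.MicA Pool.PTH
open Pool.MIC.Frm (nat pt pt_eq)
open Pool.BFL (Pl Pb)

/-! ### Numbers -/

/-- Bounded by an exponential of `z`. -/
def Xb (f : ℕ → ℝ) : Prop :=
  ∃ C : ℝ, 0 ≤ C ∧ ∀ z : ℕ, 1 ≤ z → 0 ≤ f z ∧ f z ≤ Real.exp (C * z)

theorem Xb.const {a : ℝ} (ha : 0 ≤ a) : Xb fun _ => a := by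
  refine ⟨a, ha, fun z hz => ⟨ha, ?_⟩⟩
  have h1 : (1 : ℝ) ≤ z := by exact_mod_cast hz
  have h2 := Real.add_one_le_exp (a * z)
  nlinarith

theorem Xb.exp {a : ℝ} (ha : 0 ≤ a) : Xb fun z => Real.exp (a * z) :=
  ⟨a, ha, fun _ _ => ⟨(Real.exp_pos _).le, le_rfl⟩⟩

theorem Xb.mul {f g : ℕ → ℝ} (hf : Xb f) (hg : Xb g) : Xb fun z => f z * g z := by
  obtain ⟨C, hC, h1⟩ := hf
  obtain ⟨C', hC', h2⟩ := hg
  refine ⟨C + C', by positivity, fun z hz => ?_⟩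
  obtain ⟨a1, a2⟩ := h1 z hz
  obtain ⟨b1, b2⟩ := h2 z hz
  refine ⟨mul_nonneg a1 b1, ?_⟩
  rw [add_mul, Real.exp_add]
  exact mul_le_mul a2 b2 b1 (Real.exp_pos _).le

theorem Xb.add {f g : ℕ → ℝ} (hf : Xb f) (hg : Xb g) : Xb fun z => f z + g z := by
  obtain ⟨C, hC, h1⟩ := hf
  obtain ⟨C', hC', h2⟩ := hg
  refine ⟨C + C' + 1, by positivity, fun z hz => ?_⟩
  obtain ⟨a1, a2⟩ := h1 z hz
  obtain ⟨b1, b2⟩ := h2 z hz
  have hzr : (1 : ℝ) ≤ z := by exact_mod_cast hz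
  refine ⟨add_nonneg a1 b1, ?_⟩
  have e1 : Real.exp (C * z) ≤ Real.exp ((C + C') * z) := Real.exp_le_exp.2 (by nlinarith)
  have e2 : Real.exp (C' * z) ≤ Real.exp ((C + C') * z) := Real.exp_le_exp.2 (by nlinarith)
  have e3 : (2 : ℝ) ≤ Real.exp z := by
    have := Real.add_one_le_exp (z : ℝ)
    linarith
  have e4 : Real.exp ((C + C' + 1) * z) = Real.exp ((C + C') * z) * Real.exp z := by
    rw [← Real.exp_add]
    congr 1
    ring
  rw [e4]
  have e5 : 0 < Real.exp ((C + C') * z) := Real.exp_pos _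
  nlinarith

theorem Xb.pow {f : ℕ → ℝ} (hf : Xb f) (m : ℕ) : Xb fun z => f z ^ m := by
  induction m with
  | zero =>
    simp only [pow_zero]
    exact Xb.const zero_le_one
  | succ m ih =>
    simp only [pow_succ]
    exact ih.mul hf

theorem exp_le_rpow {a : ℝ} (ha : 0 ≤ a) (z : ℕ) :
    Real.exp (a * z) ≤ (2 : ℝ) ^ (2 * a * z : ℝ) := by
  rw [Real.rpow_def_of_pos (by norm_num)]
  refine Real.exp_le_exp.2 ?_
  have h1 : 1 / 2 ≤ Real.log 2 := by linarith [Real.log_two_gt_d9]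
  have h2 : 0 ≤ a * z := by positivity
  nlinarith

/-! ### The own shape -/

theorem deg_bnd {σ τ : Type} {f : σ → MvPolynomial τ ℝ} {F : MvPolynomial σ ℝ} {B : ℕ}
    (hf : ∀ i, (f i).totalDegree ≤ B) : (bind₁ f F).totalDegree ≤ F.totalDegree * B := by
  classical
  rw [show bind₁ f F = ∑ d ∈ F.support, C (F.coeff d) * ∏ i ∈ d.support, f i ^ d i by
    rw [bind₁, aeval_def, eval₂_eq]
    rfl]
  refine (totalDegree_finsetSum _ _).trans (Finset.sup_le fun d hd => ?_)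
  refine (totalDegree_mul _ _).trans ?_
  rw [totalDegree_C, zero_add]
  refine (totalDegree_finsetProd _ _).trans ?_
  calc ∑ i ∈ d.support, (f i ^ d i).totalDegree ≤ ∑ i ∈ d.support, d i * B :=
        Finset.sum_le_sum fun i _ => (totalDegree_pow _ _).trans (Nat.mul_le_mul_left _ (hf i))
    _ = (∑ i ∈ d.support, d i) * B := by rw [Finset.sum_mul]
    _ ≤ F.totalDegree * B := Nat.mul_le_mul_right _ (le_totalDegree hd)

theorem Fd_deg (n K₀ z bb : ℕ) {k : ℕ} (π : Pls k) (F : Pl (n - 1)) :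
    (Fd n K₀ z bb π F).totalDegree ≤ K₀ := by
  classical
  unfold Fd
  split_ifs with h
  · refine (deg_bnd (B := 1) fun l => ?_).trans (by rw [mul_one]; exact h.1)
    split_ifs
    · refine (totalDegree_add _ _).trans (max_le ((totalDegree_mul _ _).trans ?_) ?_)
      · rw [totalDegree_C, totalDegree_X, zero_add]
      · rw [totalDegree_C]
        exact Nat.zero_le _
    · rw [totalDegree_C]
      exact Nat.zero_le _
  · rw [totalDegree_zero]
    exact Nat.zero_le _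

theorem eval_Fd (n K₀ z bb : ℕ) {k : ℕ} (π : Pls k) {F : Pl (n - 1)} (h : F.totalDegree ≤ K₀)
    (h' : ∀ α, |coeff α F| ≤ 2 ^ bb) (y : Fin k → ℝ) : eval y (Fd n K₀ z bb π F) =
      eval (fun l : Fin (n - 1) => if h : π.rk (l + 1) < k then
        1 / (4 * 2 ^ z) * y ⟨π.rk (l + 1), h⟩ + 1 / 2 else 1 / 2) F := by
  classical
  unfold Fd
  rw [if_pos ⟨h, h'⟩]
  refine (eval₂Hom_bind₁ (RingHom.id ℝ) y _ _).trans ?_
  have e : (fun l : Fin (n - 1) => eval y (if h : π.rk (l + 1) < k then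
      C (1 / (4 * 2 ^ z)) * X ⟨π.rk (l + 1), h⟩ + C (1 / 2) else C (1 / 2))) =
      fun l : Fin (n - 1) => if h : π.rk (l + 1) < k then
        1 / (4 * 2 ^ z) * y ⟨π.rk (l + 1), h⟩ + 1 / 2 else 1 / 2 := by
    funext l
    split_ifs with hl
    · rw [map_add, map_mul, eval_C, eval_C, eval_X]
    · rw [eval_C]
  exact congrArg (fun v => eval v F) e

theorem Fd_coef (n K₀ : ℕ) : ∃ A : ℝ, 0 ≤ A ∧ ∀ (z bb : ℕ) (π : Pls (n - 1)) (F : Pl (n - 1)) α,
    |coeff α (Fd n K₀ z bb π F)| ≤ A * 2 ^ bb := by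
  classical
  obtain ⟨A, hA, h⟩ := Pool.Agent.H36.KBX.coef_bound (n - 1) K₀
  refine ⟨A * (Pool.Agent.H36.KBX.bx (n - 1) K₀).card, by positivity, fun z bb π F α => ?_⟩
  rw [mul_assoc]
  refine h _ _ (Fd_deg n K₀ z bb π F) (fun y hy => ?_) α
  by_cases hF : F.totalDegree ≤ K₀ ∧ ∀ α, |coeff α F| ≤ 2 ^ bb
  · rw [eval_Fd n K₀ z bb π hF.1 hF.2]
    have := Pool.Agent.H36.KBX.eval_bound F hF.1 (2 ^ bb) 1 le_rfl hF.2
      (fun l : Fin (n - 1) => if h : π.rk (l + 1) < n - 1 then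
        1 / (4 * 2 ^ z) * y ⟨π.rk (l + 1), h⟩ + 1 / 2 else 1 / 2) (fun l => ?_)
    · rwa [one_pow, mul_one] at this
    · split_ifs with hl
      · have h1 := hy ⟨π.rk (l + 1), hl⟩
        have h2 : (1 : ℝ) / (4 * 2 ^ z) ≤ 1 / 4 := by
          refine one_div_le_one_div_of_le (by norm_num) ?_
          have : (1 : ℝ) ≤ 2 ^ z := one_le_pow₀ (by norm_num)
          linarith
        have h3 : |1 / (4 * 2 ^ z) * y ⟨π.rk (l + 1), hl⟩| ≤ 1 / 4 := by
          rw [abs_mul, abs_of_pos (by positivity : (0 : ℝ) < 1 / (4 * 2 ^ z))]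
          calc 1 / (4 * 2 ^ z) * |y ⟨π.rk (l + 1), hl⟩| ≤ 1 / 4 * 1 :=
                mul_le_mul h2 h1 (abs_nonneg _) (by norm_num)
            _ = 1 / 4 := mul_one _
        rw [abs_le] at h3 ⊢
        constructor <;> linarith
      · rw [abs_of_pos (by norm_num)]
        norm_num
  · unfold Fd
    rw [if_neg hF, map_zero, abs_zero]
    positivity

theorem kpA_deg (D : NDat2) (n K₀ z i j i' j' X bb : ℕ) (ω : D.Ω) :
    (kpA D n K₀ z i j i' j' X bb ω).totalDegree ≤ K₀ := by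
  classical
  unfold kpA
  split_ifs
  · refine (totalDegree_sub _ _).trans (max_le ?_ (by rw [totalDegree_C]; exact Nat.zero_le _))
    unfold kpR
    exact (deg_scl _ _ _).trans (Sp_deg _ _ _)
  · rw [totalDegree_zero]
    exact Nat.zero_le _

theorem kpA_coef (D : NDat2) (n K₀ z i j i' j' X bb : ℕ) (ω : D.Ω) (α : Fin (n - 1) →₀ ℕ) :
    |coeff α (kpA D n K₀ z i j i' j' X bb ω)| ≤ 2 ^ bb := by
  classical
  unfold kpA
  split_ifs with h
  · rw [coeff_sub, coeff_C]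
    by_cases h0 : 0 = α
    · rw [if_pos h0, ← h0, sub_self, abs_zero]
      positivity
    · rw [if_neg h0, sub_zero]
      exact h α (Ne.symm h0)
  · rw [coeff_zero, abs_zero]
    positivity

/-- **The height and the own shape at the position**: the digits do not matter. -/
theorem ht_own (n K₀ : ℕ) : ∃ A : ℝ, 0 ≤ A ∧ ∀ (K J a₀ w₀ z M : ℕ) (lam gam : ℕ → ℝ) (κ C₁ : ℝ)
    (D : NDat2) (q : D.Ω → ℝ), D.Ok2 n K J a₀ w₀ z M lam gam κ C₁ q →
    ∀ (i j i' j' X bb : ℕ) (ω : D.Ω), i ≤ M → j ≤ M → 0 < q ω →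
    |(htA D n K₀ z i j i' j' X bb ω : ℝ) - 2 ^ X * (zt D i j ω n -
      eval (fun l : Fin (n - 1) => up z (zt D i j ω (l + 1)))
        (kpA D n K₀ z i j i' j' X bb ω))| ≤ 2 + A * 2 ^ bb := by
  refine ⟨(Pool.Agent.H36.KBX.bx (n - 1) K₀).card * (((n - 1 : ℕ) : ℝ) * K₀), by positivity, ?_⟩
  intro K J a₀ w₀ z M lam gam κ C₁ D q hO i j i' j' X bb ω hi hj hω
  have h2 : (0 : ℝ) < 2 ^ X := by positivity
  obtain ⟨y, hy⟩ : ∃ y : Fin (n - 1) → ℝ, 
    y = fun l : Fin (n - 1) => up z (zt D i j ω ((l : ℕ) + 1)) := ⟨_, rfl⟩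
  obtain ⟨y', hy'⟩ : ∃ y' : Fin (n - 1) → ℝ, 
    y' = fun l : Fin (n - 1) => (Yp D n z i j X ω l : ℝ) / 2 ^ X := ⟨_, rfl⟩
  obtain ⟨R, hR⟩ : ∃ R, R = kpA D n K₀ z i j i' j' X bb ω := ⟨_, rfl⟩
  have a3 : |eval y R - eval y' R| ≤
      (Pool.Agent.H36.KBX.bx (n - 1) K₀).card * (((n - 1 : ℕ) : ℝ) * K₀ * (2 ^ bb * (1 / 2 ^ X))) := by
    refine pl_lip R (by rw [hR]; exact kpA_deg _ _ _ _ _ _ _ _ _ _ _) (by positivity)
      (fun α _ => by rw [hR]; exact kpA_coef _ _ _ _ _ _ _ _ _ _ _ _) (by positivity) ?_ ?_ ?_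
    · intro l
      rw [hy]
      have := up_mem (z := z) (zt_le hO hi hj hω (l := (l : ℕ) + 1) (by have := l.2; omega))
      rw [abs_le]
      constructor <;> linarith
    · intro l
      rw [hy', abs_of_nonneg (by positivity)]
      exact (Yp_near hO hi hj hω X l).2.2
    · intro l
      rw [hy, hy']
      have := Yp_near hO hi hj hω X l
      rw [abs_of_nonneg this.1]
      exact this.2.1
  have b1 := Int.floor_le ((2 : ℝ) ^ X * zt D i j ω n)
  have b2 := Int.lt_floor_add_one ((2 : ℝ) ^ X * zt D i j ω n)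
  have b3 := Int.floor_le ((2 : ℝ) ^ X * eval y' R)
  have b4 := Int.lt_floor_add_one ((2 : ℝ) ^ X * eval y' R)
  have e1 : (htA D n K₀ z i j i' j' X bb ω : ℝ) = (⌊(2 : ℝ) ^ X * zt D i j ω n⌋ : ℝ) -
      (⌊(2 : ℝ) ^ X * eval y' R⌋ : ℝ) := by
    unfold htA nuA
    rw [← hR, ← hy']
    push_cast
    rfl
  rw [e1, ← hR, ← hy]
  have c3 := mul_le_mul_of_nonneg_left a3 h2.le
  rw [← abs_of_pos h2, ← abs_mul, abs_of_pos h2] at c3
  have d3 : (2 : ℝ) ^ X * ((Pool.Agent.H36.KBX.bx (n - 1) K₀).card *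
      (((n - 1 : ℕ) : ℝ) * K₀ * (2 ^ bb * (1 / 2 ^ X)))) =
      (Pool.Agent.H36.KBX.bx (n - 1) K₀).card * (((n - 1 : ℕ) : ℝ) * K₀) * 2 ^ bb := by
    field_simp
  rw [d3] at c3
  have g3 := abs_le.1 c3
  rw [abs_le]
  constructor <;> nlinarith

end Pool.LSH
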