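import Pool.Agent.H12.LSH.Shd

/-!
# The sheets are polynomials in the time and in the position
-/

set_option autoImplicit false

namespace Pool.LSH

open Finset MvPolynomial
open Pool.Agent.H49.Ent Pool.Agent.H32.Dense Pool.STK Pool.STAT Pool.MIC Pool.MicA
open Pool.MIC.Frm (nat pt pt_eq)

/-- A polynomial of degree `≤ N` in two variables. -/
def P2 (N : ℕ) (f : ℝ → ℝ → ℝ) : Prop :=
  ∃ Q : MvPolynomial (Fin 2) ℝ, Q.totalDegree ≤ N ∧ ∀ t y, f t y = eval ![t, y] Q

theorem P2.mono {N N' : ℕ} {f : ℝ → ℝ → ℝ} (h : P2 N f) (hN : N ≤ N') : P2 N' f := by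
  obtain ⟨Q, h1, h2⟩ := h
  exact ⟨Q, h1.trans hN, h2⟩

theorem P2.const (N : ℕ) (a : ℝ) : P2 N fun _ _ => a :=
  ⟨C a, by rw [totalDegree_C]; exact Nat.zero_le _, fun t y => by rw [eval_C]⟩

theorem P2.fst {N : ℕ} (hN : 1 ≤ N) : P2 N fun t _ => t :=
  ⟨X 0, by rw [totalDegree_X]; exact hN, fun t y => by rw [eval_X]; rfl⟩

theorem P2.snd {N : ℕ} (hN : 1 ≤ N) : P2 N fun _ y => y :=
  ⟨X 1, by rw [totalDegree_X]; exact hN, fun t y => by rw [eval_X]; rfl⟩

theorem P2.add {N : ℕ} {f g : ℝ → ℝ → ℝ} (hf : P2 N f) (hg : P2 N g) :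
    P2 N fun t y => f t y + g t y := by
  obtain ⟨Q, h1, h2⟩ := hf
  obtain ⟨R, h3, h4⟩ := hg
  exact ⟨Q + R, (totalDegree_add _ _).trans (max_le h1 h3), fun t y => by
    simp only [h2, h4, map_add]⟩

theorem P2.sub {N : ℕ} {f g : ℝ → ℝ → ℝ} (hf : P2 N f) (hg : P2 N g) :
    P2 N fun t y => f t y - g t y := by
  obtain ⟨Q, h1, h2⟩ := hf
  obtain ⟨R, h3, h4⟩ := hg
  exact ⟨Q - R, (totalDegree_sub _ _).trans (max_le h1 h3), fun t y => by
    simp only [h2, h4, map_sub]⟩

theorem P2.mul_c {N : ℕ} {f : ℝ → ℝ → ℝ} (hf : P2 N f) (a : ℝ) : P2 N fun t y => a * f t y := by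
  obtain ⟨Q, h1, h2⟩ := hf
  refine ⟨C a * Q, (totalDegree_mul _ _).trans ?_, fun t y => by
    simp only [h2, map_mul, eval_C]⟩
  rw [totalDegree_C, zero_add]
  exact h1

theorem eval_bnd {σ : Type} (x : σ → ℝ) (f : ℕ → MvPolynomial σ ℝ) (F : PN) :
    eval x (bind₁ f F) = eval (fun l => eval x (f l)) F :=
  eval₂Hom_bind₁ (RingHom.id ℝ) x f F

/-- Substitution. -/
theorem P2.bind {N K m : ℕ} {F : PN} (hF : F.vars ⊆ range m) (hK : F.totalDegree ≤ K)
    {f : ℕ → ℝ → ℝ → ℝ} (hf : ∀ l < m, P2 N (f l)) :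
    P2 (K * N) fun t y => eval (fun l => f l t y) F := by
  classical
  choose! Q h1 h2 using hf
  refine ⟨bind₁ (fun l => if l < m then Q l else 0) F, ?_, fun t y => ?_⟩
  · rw [show bind₁ (fun l => if l < m then Q l else 0) F =
      ∑ d ∈ F.support, C (F.coeff d) * ∏ i ∈ d.support, (if i < m then Q i else 0) ^ d i by
        rw [bind₁, aeval_def, eval₂_eq]
        rfl]
    refine (totalDegree_finsetSum _ _).trans (Finset.sup_le fun d hd => ?_)
    refine (totalDegree_mul _ _).trans ?_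
    rw [totalDegree_C, zero_add]
    refine (totalDegree_finsetProd _ _).trans ?_
    calc ∑ i ∈ d.support, ((if i < m then Q i else 0) ^ d i).totalDegree ≤
          ∑ i ∈ d.support, d i * N := Finset.sum_le_sum fun i _ => by
          refine (totalDegree_pow _ _).trans (Nat.mul_le_mul_left _ ?_)
          split_ifs with hi
          · exact h1 i hi
          · rw [totalDegree_zero]
            exact Nat.zero_le _
      _ = (∑ i ∈ d.support, d i) * N := by rw [Finset.sum_mul]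
      _ ≤ K * N := Nat.mul_le_mul_right _ ((le_totalDegree hd).trans hK)
  · rw [eval_bnd]
    refine Pool.SYS35.eval_congr hF fun l hl => ?_
    rw [if_pos hl, h2 l hl]

/-- The coefficients. -/
theorem P2.arr {N : ℕ} {f : ℝ → ℝ → ℝ} (h : P2 N f) :
    ∃ c : Fin (N + 1) → Fin (N + 1) → ℝ, ∀ t y, f t y = ∑ a, ∑ b, c a b * t ^ a.val * y ^ b.val := by
  classical
  obtain ⟨Q, h1, h2⟩ := h
  refine ⟨fun a b => ∑ d ∈ Q.support, if d 0 = a.val ∧ d 1 = b.val then coeff d Q else 0,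
    fun t y => ?_⟩
  rw [h2, eval_eq']
  have e : ∀ a b : Fin (N + 1), (∑ d ∈ Q.support, if d 0 = a.val ∧ d 1 = b.val then
      coeff d Q else 0) * t ^ a.val * y ^ b.val = ∑ d ∈ Q.support,
        if d 0 = a.val ∧ d 1 = b.val then coeff d Q * ∏ i, ![t, y] i ^ d i else 0 := by
    intro a b
    rw [Finset.sum_mul, Finset.sum_mul]
    refine Finset.sum_congr rfl fun d _ => ?_
    by_cases hd : d 0 = a.val ∧ d 1 = b.val
    · rw [if_pos hd, if_pos hd, Fin.prod_univ_two, hd.1, hd.2]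
      simp only [Matrix.cons_val_zero, Matrix.cons_val_one]
      ring
    · rw [if_neg hd, if_neg hd]
      ring
  simp_rw [e]
  rw [Finset.sum_congr rfl fun a _ => Finset.sum_comm, Finset.sum_comm]
  refine Finset.sum_congr rfl fun d hd => ?_
  have hdeg : d 0 + d 1 ≤ N := by
    have := (le_totalDegree hd).trans h1
    rwa [Finsupp.sum_fintype _ _ (fun _ => rfl), Fin.sum_univ_two] at this
  rw [Finset.sum_eq_single (⟨d 0, by omega⟩ : Fin (N + 1)),
    Finset.sum_eq_single (⟨d 1, by omega⟩ : Fin (N + 1)), if_pos ⟨rfl, rfl⟩]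
  · intro b _ hb
    rw [if_neg]
    rintro ⟨-, h4⟩
    exact hb (Fin.ext h4.symm)
  · intro h
    exact absurd (Finset.mem_univ _) h
  · intro a _ ha
    refine Finset.sum_eq_zero fun b _ => if_neg ?_
    rintro ⟨h4, -⟩
    exact ha (Fin.ext h4.symm)
  · intro h
    exact absurd (Finset.mem_univ _) h

theorem cf2_spec {N : ℕ} {f : ℝ → ℝ → ℝ} (h : P2 N f) (t y : ℝ) :
    ∑ a, ∑ b, cf2 N f a b * t ^ a.val * y ^ b.val = f t y := by
  have h1 := h.arr
  unfold cf2
  rw [dif_pos h1]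
  exact (h1.choose_spec t y).symm

theorem cf1_spec {N : ℕ} {f : ℝ → ℝ} (h : P2 N fun t _ => f t) (t : ℝ) :
    ∑ a, cf1 N f a * t ^ a.val = f t := by
  have h1 : ∃ c : Fin (N + 1) → ℝ, ∀ t, f t = ∑ a, c a * t ^ a.val := by
    obtain ⟨c, hc⟩ := h.arr
    refine ⟨fun a => c a 0, fun t => ?_⟩
    rw [hc t 0]
    refine Finset.sum_congr rfl fun a _ => ?_
    rw [Finset.sum_eq_single (0 : Fin (N + 1))]
    · rw [Fin.val_zero, pow_zero, mul_one]
    · intro b _ hb
      rw [zero_pow fun h0 => hb (Fin.ext h0), mul_zero]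
    · intro h
      exact absurd (Finset.mem_univ _) h
  unfold cf1
  rw [dif_pos h1]
  exact (h1.choose_spec t).symm

/-- **The points of a triangular system** with polynomial heights. -/
theorem P2.pt {K : ℕ} {g : ℕ → ℕ} {Φ : ℕ → PN} {s : ℝ → ℝ} {u : ℕ → ℝ → ℝ}
    (hs : P2 1 fun t _ => s t) (hu : ∀ l, P2 1 fun _ y => u l y) (hΦ : TriN Φ)
    (dΦ : ∀ l, (Φ l).totalDegree ≤ K) :
    ∀ l, P2 ((K + 1) ^ l) fun t y => pt g (atT (s t) Φ) (fun l => u l y) l := by
  intro l
  induction l using Nat.strong_induction_on with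
  | _ l ih =>
    have e : ∀ t y, Pool.MIC.Frm.pt g (atT (s t) Φ) (fun l => u l y) l =
        eval (Pool.MIC.Frm.pt g (atT (s t) Φ) (fun l => u l y)) (atT (s t) Φ l) +
          u l y / 2 ^ g l := fun t y => pt_eq (Pool.MicA.tri_atT hΦ _) _ _
    simp_rw [e]
    have h1 : 1 ≤ (K + 1) ^ l := Nat.one_le_pow _ _ (by omega)
    have h2 : P2 ((K + 1) ^ l) fun t y => u l y / 2 ^ g l := by
      have := ((hu l).mono h1).mul_c (1 / 2 ^ g l)
      refine ⟨this.choose, this.choose_spec.1, fun t y => ?_⟩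
      rw [← this.choose_spec.2]
      ring
    refine P2.add ?_ h2
    rcases Nat.eq_zero_or_pos l with h0 | h0
    · subst h0
      have e1 : ∀ t y, eval (Pool.MIC.Frm.pt g (atT (s t) Φ) (fun l => u l y)) (atT (s t) Φ 0) =
          s t := by
        intro t y
        unfold atT
        rw [Function.update_self, eval_C]
      simp_rw [e1]
      exact hs
    · have e1 : ∀ t y, eval (Pool.MIC.Frm.pt g (atT (s t) Φ) (fun l => u l y)) (atT (s t) Φ l) =
          eval (Pool.MIC.Frm.pt g (atT (s t) Φ) (fun l => u l y)) (Φ l) := by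
        intro t y
        unfold atT
        rw [Function.update_of_ne (by omega)]
      simp_rw [e1]
      refine (P2.bind (N := (K + 1) ^ (l - 1)) (hΦ l) (dΦ l) (f := fun l t y =>
        Pool.MIC.Frm.pt g (atT (s t) Φ) (fun l => u l y) l) fun r hr => ?_).mono ?_
      · exact (ih r hr).mono (Nat.pow_le_pow_right (by omega) (by omega))
      · calc K * (K + 1) ^ (l - 1) ≤ (K + 1) * (K + 1) ^ (l - 1) := Nat.mul_le_mul_right _ (by omega)
          _ = (K + 1) ^ l := by
              rw [← pow_succ']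
              congr 1
              omega

/-- The bound for the coefficient of `y ^ b`, at a time. -/
theorem P2.row (N : ℕ) : ∃ A : ℝ, 1 ≤ A ∧ ∀ (c : Fin (N + 1) → Fin (N + 1) → ℝ) (t B : ℝ),
    0 < B → (∀ y, |y| ≤ 1 → |∑ a, ∑ b, c a b * t ^ a.val * y ^ b.val| ≤ B) →
    ∀ b, |∑ a, c a b * t ^ a.val| ≤ A * B := by
  refine ⟨(N + 1 : ℕ) * (2 * 2 ^ N) ^ (N + 1), ?_, ?_⟩
  · have h1 : (1 : ℝ) ≤ (N + 1 : ℕ) := by exact_mod_cast Nat.succ_pos N
    have h2 : (1 : ℝ) ≤ (2 * 2 ^ N) ^ (N + 1) := by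
      refine one_le_pow₀ ?_
      have : (1 : ℝ) ≤ 2 ^ N := one_le_pow₀ (by norm_num)
      linarith
    exact one_le_mul_of_one_le_of_one_le h1 h2
  · intro c t B hB h b
    obtain ⟨R, hR⟩ : ∃ R : Polynomial ℝ, R = ∑ b : Fin (N + 1), Polynomial.C
      (1 / B * ∑ a : Fin (N + 1), c a b * t ^ a.val) * Polynomial.X ^ b.val := ⟨_, rfl⟩
    have hcoef : ∀ b : Fin (N + 1), R.coeff b = 1 / B * ∑ a : Fin (N + 1), c a b * t ^ a.val := by
      intro b
      rw [hR, Polynomial.finsetSum_coeff, Finset.sum_eq_single b]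
      · rw [Polynomial.coeff_C_mul, Polynomial.coeff_X_pow, if_pos rfl, mul_one]
      · intro b' _ hb'
        rw [Polynomial.coeff_C_mul, Polynomial.coeff_X_pow, if_neg (fun h => hb' (Fin.ext h.symm)),
          mul_zero]
      · intro h
        exact absurd (Finset.mem_univ _) h
    have hdeg : R.natDegree < N + 1 := by
      rw [hR]
      refine Nat.lt_succ_of_le (Polynomial.natDegree_sum_le_of_forall_le _ _ fun b _ => ?_)
      refine (Polynomial.natDegree_C_mul_le _ _).trans ?_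
      rw [Polynomial.natDegree_X_pow]
      omega
    have hev : ∀ y, R.eval y = 1 / B * ∑ a : Fin (N + 1), ∑ b : Fin (N + 1),
        c a b * t ^ a.val * y ^ b.val := by
      intro y
      rw [hR, Polynomial.eval_finsetSum, Finset.sum_comm, Finset.mul_sum]
      refine Finset.sum_congr rfl fun b _ => ?_
      rw [Polynomial.eval_mul, Polynomial.eval_C, Polynomial.eval_pow, Polynomial.eval_X,
        ← Finset.sum_mul]
      ring
    have hN0 : (0 : ℝ) < (N : ℝ) + 1 := by positivity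
    have key := Pool.PTH.coeff_nodes (N := N + 1) (y := N) (fun p => (p : ℝ) / (N + 1)) (fun p => ?_)
      (fun p p' hp => ?_) R hdeg (fun p => ?_) b
    · rw [hcoef, abs_mul, abs_of_pos (by positivity : (0 : ℝ) < 1 / B), one_div,
        inv_mul_le_iff₀ hB] at key
      linarith
    · rw [abs_of_nonneg (by positivity), div_le_one hN0]
      have h2 : ((p : ℕ) : ℝ) ≤ N := by exact_mod_cast Nat.lt_succ_iff.1 p.2
      linarith
    · rw [← sub_div, abs_div, abs_of_pos hN0]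
      have h2 : (1 : ℝ) ≤ |((p : ℕ) : ℝ) - (p' : ℕ)| := by
        have h3 : (p : ℕ) ≠ (p' : ℕ) := fun h => hp (Fin.ext h)
        have h4 : (1 : ℤ) ≤ |((p : ℕ) : ℤ) - (p' : ℕ)| := by
          refine Int.one_le_abs ?_
          omega
        exact_mod_cast h4
      have h3 : (N : ℝ) + 1 ≤ 2 ^ N := by exact_mod_cast Nat.lt_two_pow_self (n := N)
      rw [div_le_div_iff₀ (by positivity) hN0, one_mul]
      calc (N : ℝ) + 1 ≤ 1 * 2 ^ N := by linarith
        _ ≤ |((p : ℕ) : ℝ) - (p' : ℕ)| * 2 ^ N := mul_le_mul_of_nonneg_right h2 (by positivity)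
    · rw [hev, abs_mul, abs_of_pos (by positivity : (0 : ℝ) < 1 / B), one_div,
        inv_mul_le_iff₀ hB, mul_one]
      refine h _ ?_
      rw [abs_of_nonneg (by positivity), div_le_one hN0]
      have h2 : ((p : ℕ) : ℝ) ≤ N := by exact_mod_cast Nat.lt_succ_iff.1 p.2
      linarith

/-! ### The sheets and the target -/

theorem P2.tm (w v : ℕ) : P2 1 fun t _ => tt w v t := by
  have h := (P2.const 1 ((v : ℝ) / 2 ^ w)).add ((P2.fst le_rfl).mul_c (1 / 2 ^ w))
  exact h

section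

variable {D : NDat2} {k K n : ℕ} {π : Pls k}

theorem tri_mxP (tP : ∀ i j x, TriN (D.P i j x)) (r : Fin k) (a b : D.Γ) :
    TriN (mxP D π r a b) := by
  intro l
  unfold mxP
  split_ifs
  · exact tP _ _ _ l
  · exact tP _ _ _ l

theorem mxpt_P2 (tP : ∀ i j x, TriN (D.P i j x)) (dP : ∀ i j x l, (D.P i j x l).totalDegree ≤ K)
    (w X : ℕ) (r : Fin k) (ζ : ZeT D k) (l : ℕ) :
    P2 ((K + 1) ^ l) fun t y => mxpt D π w X r ζ t y l := by
  have h := P2.pt (K := K) (g := mxg D π r) (Φ := mxP D π r ζ.1 (ζ.2.2 r).1) (s := tt w ζ.2.1)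
    (u := fun l y => mxu D π X r (ζ.2.2 r).2.1 y l) (P2.tm w ζ.2.1) (fun l => ?_)
    (tri_mxP tP _ _ _) (fun l => ?_) l
  · exact h
  · unfold mxu
    split_ifs
    · exact P2.const _ _
    · exact (P2.snd le_rfl).mul_c _
    · exact P2.const _ _
  · unfold mxP
    split_ifs
    · exact dP _ _ _ _
    · exact dP _ _ _ _

theorem shf_P2 (tP : ∀ i j x, TriN (D.P i j x)) (dP : ∀ i j x l, (D.P i j x l).totalDegree ≤ K)
    (h1 : ∀ r, 1 ≤ π.co r) (h2 : ∀ r, π.co r < n) (w X : ℕ) (r : Fin k) (ζ : ZeT D k)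
    (i : Fin k) : P2 ((K + 1) ^ (n + 1)) fun t y => shf D π w X r ζ t y i := by
  have e : (fun t y => shf D π w X r ζ t y i) = fun t y => 2 ^ gl D π.o (π.co i) *
      (mxpt D π w X r ζ t y (π.co i) -
        eval (fun l => mxpt D π w X r ζ t y l) (D.P π.o.1 π.o.2 ζ.1 (π.co i))) := by
    funext t y
    unfold shf nat atT
    rw [Function.update_of_ne (by have := h1 i; omega)]
  rw [e]
  have b := h2 i
  refine P2.mul_c (P2.sub ((mxpt_P2 tP dP w X r ζ _).mono (Nat.pow_le_pow_right (by omega)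
    (by omega))) ?_) _
  refine (P2.bind (N := (K + 1) ^ n) (tP _ _ _ _) (dP _ _ _ _) fun l hl =>
    (mxpt_P2 tP dP w X r ζ l).mono (Nat.pow_le_pow_right (by omega) (by omega))).mono ?_
  rw [pow_succ']
  exact Nat.mul_le_mul_right _ (by omega)

theorem xvp_P2 (tP : ∀ i j x, TriN (D.P i j x)) (dP : ∀ i j x l, (D.P i j x l).totalDegree ≤ K)
    (w X : ℕ) (a : ℕ × ℕ) (V : D.Γ × (ℕ × (D.Γ × (ℕ → ℤ)))) (l : ℕ) :
    P2 ((K + 1) ^ l) fun t _ => xvp D π w X a V t l := by
  have h := P2.pt (K := K) (g := fun l => if π.rk l < k then gl D a l else gl D π.o l)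
    (Φ := fun l => if π.rk l < k then D.P a.1 a.2 V.2.2.1 l else D.P π.o.1 π.o.2 V.1 l)
    (s := tt w V.2.1) (u := fun l _ => if π.rk l < k then (V.2.2.2 l : ℝ) / 2 ^ X else 0)
    (P2.tm w V.2.1) (fun l => P2.const _ _) (fun l => ?_) (fun l => ?_) l
  · exact h
  · dsimp only
    split_ifs
    · exact tP _ _ _ l
    · exact tP _ _ _ l
  · split_ifs
    · exact dP _ _ _ _
    · exact dP _ _ _ _

theorem dnf_P2 (tP : ∀ i j x, TriN (D.P i j x)) (dP : ∀ i j x l, (D.P i j x l).totalDegree ≤ K)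
    (w X : ℕ) (a : ℕ × ℕ) (V : D.Γ × (ℕ × (D.Γ × (ℕ → ℤ)))) :
    P2 ((K + 1) ^ (n + 1)) fun t _ => dnf D π n w X a V t := by
  have h : ∀ i j x, P2 ((K + 1) ^ (n + 1)) fun t _ =>
      eval (xvp D π w X a V t) (D.P i j x n) := by
    intro i j x
    have := (P2.bind (N := (K + 1) ^ n) (tP i j x n) (dP i j x n)
      (f := fun l t _ => xvp D π w X a V t l) fun l hl =>
      (xvp_P2 tP dP w X a V l).mono (Nat.pow_le_pow_right (by omega) (by omega))).mono
        (N' := (K + 1) ^ (n + 1)) (by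
          rw [pow_succ']
          exact Nat.mul_le_mul_right _ (by omega))
    exact this
  unfold dnf
  exact ((h _ _ _).sub (h _ _ _)).mul_c _

end

end Pool.LSH
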