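import Pool.Agent.H12.LSH.Shc

/-!
# The sheets of a cell: the theorem
-/

set_option autoImplicit false

namespace Pool.LSH

open Finset MvPolynomial
open Pool.Agent.H49.Ent Pool.Agent.H32.Dense Pool.STK Pool.STAT Pool.MIC Pool.MicA Pool.PTH
open Pool.MIC.Frm (nat pt pt_eq)
open Pool.BFL (Pl Pb)
open Pool.GSD (Fra)
open scoped Polynomial

theorem A₀_pow {K z : ℕ} (h : ⌈A₀ K⌉₊ ≤ z) : A₀ K ≤ 2 ^ z := by
  have h1 := Nat.le_ceil (A₀ K)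
  have h2 : ((⌈A₀ K⌉₊ : ℕ) : ℝ) ≤ z := by exact_mod_cast h
  have h3 : (z : ℝ) ≤ 2 ^ z := by exact_mod_cast (Nat.lt_two_pow_self (n := z)).le
  linarith

/-- **The sheets of a cell.** -/
theorem sha_ok : ShAStmt := by
  classical
  intro n K K₀ lam gam C₁ hn hC₁ hlam hgam hK
  obtain ⟨K', C₀, hKK, hC₀, hfr⟩ := Pool.GSD.frm_ev n K lam gam C₁ hC₁
  obtain ⟨C₂, hC₂, hframe⟩ := frame_of n K' C₀ hC₀
  obtain ⟨AF, hAF, hFc⟩ := Fd_coef n K₀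
  obtain ⟨AH, hAH, hH⟩ := ht_own n K₀
  obtain ⟨AR, hAR, hrow⟩ := P2.row ((K + 1) ^ (n + 1))
  obtain ⟨K₂, hK₂⟩ : ∃ K₂, K₂ = K' * (K' + 1) ^ n := ⟨_, rfl⟩
  have hA1 := A₀_ge K
  refine ⟨(K + 1) ^ (n + 1), fun c => ?_⟩
  -- numbers
  obtain ⟨E, hE⟩ : ∃ E : ℕ → ℝ, E = fun z : ℕ => Real.exp ((C₂ + c + 3) * z) := ⟨_, rfl⟩
  have xE : Xb E := by
    rw [hE]
    exact Xb.exp (by positivity)
  have xz : Xb fun z => (2 : ℝ) ^ z := by
    refine ⟨1, zero_le_one, fun z _ => ⟨by positivity, ?_⟩⟩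
    have : (2 : ℝ) ≤ Real.exp 1 := by linarith [Real.exp_one_gt_d9]
    calc (2 : ℝ) ^ z ≤ Real.exp 1 ^ z := pow_le_pow_left₀ (by norm_num) this z
      _ = Real.exp (1 * z) := by rw [← Real.exp_nat_mul, mul_comm]
  have xW : Xb fun z => (4 * E z) ^ q2 K₂ n := ((Xb.const (by norm_num)).mul xE).pow _
  have xE2 : Xb fun z => E2 K K₂ n (E z) := by
    unfold E2
    exact ((xW.add (Xb.const (by linarith))).add (Xb.const (by norm_num))).add xE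
  have xW2 : Xb fun z => (4 * E2 K K₂ n (E z)) ^ q2 K₂ n :=
    ((Xb.const (by norm_num)).mul xE2).pow _
  obtain ⟨c1, hc1, h1⟩ := (Xb.const hAF).rp
  obtain ⟨c2, hc2, h2'⟩ := (((Xb.const (by linarith : (0 : ℝ) ≤ AR)).mul xW).mul xz).rp
  obtain ⟨c3, hc3, h3⟩ := ((xW.mul (xE.add (Xb.const zero_le_one))).mul xz).rp
  obtain ⟨c4, hc4, h4⟩ := (xW2.mul xE2).rp
  obtain ⟨c5, hc5, h5⟩ := ((Xb.const (zero_le_two (α := ℝ))).mul
    ((Xb.const (by linarith : (0 : ℝ) ≤ 2 + AH)).add ((Xb.const (by linarith : (0 : ℝ) ≤ A₀ K)).add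
      ((xW.mul (Xb.const (by linarith : (0 : ℝ) ≤ A₀ K + 1))).mul
        (xE.add (Xb.const zero_le_one)))))).rp
  obtain ⟨Cc, hCc⟩ : ∃ Cc : ℝ, Cc = c1 + c2 + c3 + c4 + c5 := ⟨_, rfl⟩
  refine ⟨Cc, by rw [hCc]; positivity, fun M η hM hη => ?_⟩
  -- probabilities
  obtain ⟨T, hT⟩ : ∃ T : ℝ, T = (n + 1) + ((n - 1 : ℕ) * ((n - 1 : ℕ) * (((K + 1) ^ (n + 1) : ℕ) + 1)) + 1) * (n + 2) :=
    ⟨_, rfl⟩
  have hT0 : 0 < T := by
    rw [hT]
    positivity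
  obtain ⟨η₁, hη₁⟩ : ∃ η₁ : ℝ, η₁ = η / T := ⟨_, rfl⟩
  have hη1 : 0 < η₁ := by
    rw [hη₁]
    positivity
  obtain ⟨κa, za, hκa, hFr⟩ := hfr M η₁ hM hη1
  obtain ⟨κb, zb, hκb, hLE⟩ := le_ev n K η₁ hη1
  obtain ⟨κc, zc, hκc, hRm⟩ := rem_smp ((K + 1) ^ (n + 1) + 1) (by omega) η₁ hη1
  refine ⟨min κa (min κb κc), za + zb + zc + ⌈A₀ K⌉₊ + 1,
    lt_min hκa (lt_min hκb hκc), ?_⟩
  intro J a₀ w₀ z X bb D q π o' a ω₀ hz0 hzX hP hA hO hU
  have hz1 : 1 ≤ z := by omega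
  have hXA : A₀ K ≤ 2 ^ X := A₀_pow (by omega)
  have hq := hO.isLaw
  have hUb : D.TmU J w₀ z κb q := TmU_mono hU ((min_le_right _ _).trans (min_le_left _ _))
  have hUc : D.TmU J w₀ z κc q := TmU_mono hU ((min_le_right _ _).trans (min_le_right _ _))
  obtain ⟨w, hw⟩ : ∃ w, w = w₀ + π.o.2 * z := ⟨_, rfl⟩
  have hwz : w + z ≤ J := by
    have e1 := hO.top
    have e2 := hO.thin
    have e3 : π.o.2 * z ≤ M * z := Nat.mul_le_mul_right z hP.o_lt.2.le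
    have e4 : (M + 1) * z = M * z + z := by ring
    omega
  have hwJ : w ≤ J := by omega
  have how : w₀ + π.o.2 * z ≤ w := hw.ge
  have do' : Det q (D.wn J w) (D.c π.o.1 π.o.2) := det_c hO hP.o_lt.1.le hP.o_lt.2.le how hwJ
  -- the constants at z
  have hE1 : (2 : ℝ) ^ (c * z) ≤ E z := by
    have : (2 : ℝ) ≤ Real.exp 1 := by linarith [Real.exp_one_gt_d9]
    calc (2 : ℝ) ^ (c * z) ≤ Real.exp 1 ^ (c * z) := pow_le_pow_left₀ (by norm_num) this _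
      _ = Real.exp (c * z) := by
          rw [← Real.exp_nat_mul, mul_one]
          push_cast
          rfl
      _ ≤ E z := by
          rw [hE]
          refine Real.exp_le_exp.2 (mul_le_mul_of_nonneg_right ?_ (Nat.cast_nonneg z))
          linarith
  have hE2 : 3 ≤ E z := by
    have e1 := Pool.GSD.six_le hz1
    have e2 : (1 : ℝ) ≤ 2 ^ z := one_le_pow₀ (by norm_num)
    have e3 : Real.exp (3 * z) ≤ E z := by
      rw [hE]
      refine Real.exp_le_exp.2 (mul_le_mul_of_nonneg_right ?_ (Nat.cast_nonneg z))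
      have : (0 : ℝ) ≤ c := Nat.cast_nonneg c
      linarith
    linarith
  have hE3 : Real.exp (C₂ * z) ≤ E z := by
    rw [hE]
    refine Real.exp_le_exp.2 (mul_le_mul_of_nonneg_right ?_ (Nat.cast_nonneg z))
    have : (0 : ℝ) ≤ c := Nat.cast_nonneg c
    linarith
  -- the places
  have hp2 : ∀ r, (π.p r).2 < M := by
    intro r
    by_contra hcon
    have e1 := hP.win r
    have e2 : π.o.2 * z ≤ (π.p r).2 * z :=
      Nat.mul_le_mul_right z (hP.o_lt.2.le.trans (not_lt.1 hcon))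
    omega
  have ha2 : a.2 < M := by
    by_contra hcon
    have e1 := hA.win
    have e2 : π.o.2 * z ≤ a.2 * z :=
      Nat.mul_le_mul_right z (hP.o_lt.2.le.trans (not_lt.1 hcon))
    omega
  -- the good event
  obtain ⟨E₀, hE₀⟩ : ∃ E₀ : D.Ω → Prop, E₀ = fun ω => Fra D n K' M z C₀ ω ∧
    (∀ r, LE D J (w₀ + (π.p r).2 * z) z n (π.p r) ω) ∧ LE D J (w₀ + a.2 * z) z n a ω := ⟨_, rfl⟩
  have hPE₀ : Pb q (fun ω => ¬ E₀ ω) ≤ (n + 1) * η₁ := by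
    have e1 : Pb q (fun ω => ¬ E₀ ω) ≤ Pb q (fun ω => ¬ Fra D n K' M z C₀ ω ∨
        ((∃ r ∈ (univ : Finset (Fin (n - 1))), ¬ LE D J (w₀ + (π.p r).2 * z) z n (π.p r) ω) ∨
          ¬ LE D J (w₀ + a.2 * z) z n a ω)) := by
      refine Pool.MIC.Pb_mono_ae hq.nonneg fun ω _ hb => ?_
      by_contra hcon
      push Not at hcon
      refine hb ?_
      rw [hE₀]
      exact ⟨hcon.1, fun r => hcon.2.1 r (Finset.mem_univ r), hcon.2.2⟩
    have e2 := Pb_or' hq.nonneg (fun ω => ¬ Fra D n K' M z C₀ ω) (fun ω =>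
      (∃ r ∈ (univ : Finset (Fin (n - 1))), ¬ LE D J (w₀ + (π.p r).2 * z) z n (π.p r) ω) ∨
          ¬ LE D J (w₀ + a.2 * z) z n a ω)
    have e3 := Pb_or' hq.nonneg (fun ω =>
      ∃ r ∈ (univ : Finset (Fin (n - 1))), ¬ LE D J (w₀ + (π.p r).2 * z) z n (π.p r) ω)
        (fun ω => ¬ LE D J (w₀ + a.2 * z) z n a ω)
    have e4 := Pool.MIC7.Pb_un hq.nonneg (univ : Finset (Fin (n - 1)))
      (fun r ω => ¬ LE D J (w₀ + (π.p r).2 * z) z n (π.p r) ω)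
    have e5 : ∑ r : Fin (n - 1), Pb q (fun ω => ¬ LE D J (w₀ + (π.p r).2 * z) z n (π.p r) ω) ≤
        (n - 1 : ℕ) * η₁ := by
      refine (Finset.sum_le_sum (g := fun _ => η₁) fun r _ => hLE J a₀ w₀ z M lam gam _ C₁ D q
        (by omega) hO hUb (π.p r) (hP.p_lt r).le (hp2 r).le).trans (le_of_eq ?_)
      rw [Finset.sum_const, Finset.card_univ, Fintype.card_fin, nsmul_eq_mul]
    have e6 := hFr J a₀ w₀ z _ D q (by omega) (min_le_left _ _) hO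
    have e7 := hLE J a₀ w₀ z M lam gam _ C₁ D q (by omega) hO hUb a hA.a_lt.le ha2.le
    have e8 : ((n - 1 : ℕ) : ℝ) = n - 1 := by
      rw [Nat.cast_sub hn, Nat.cast_one]
    rw [e8] at e5
    linarith
  have hpack : ∀ ω, 0 < q ω → E₀ ω → (∃ P, Fr D n K₂ M (E z) P ω) ∧
      (∀ r, Wn D n w₀ w J z X M (π.p r) ω) ∧ Wn D n w₀ w J z (X + c * z) M a ω := by
    intro ω hω hE
    rw [hE₀] at hE
    refine ⟨?_, fun r => ⟨⟨hP.p_lt r, hp2 r⟩, ?_, hE.2.1 r⟩, ⟨⟨hA.a_lt, ha2⟩, ?_, hE.2.2⟩⟩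
    · rw [hK₂]
      exact hframe K J a₀ w₀ z M lam gam _ C₁ D q hKK hz1 hO ω (E z) hω hE.1 hE3
    · have := hP.win r
      omega
    · have := hA.win
      omega
  -- the coefficients of the sheets
  obtain ⟨Rs, hRs⟩ : ∃ Rs : Fin (n - 1) × Fin (n - 1) × Fin ((K + 1) ^ (n + 1) + 1) → D.Ω → ℝ[X],
    Rs = fun t ω => rp1 fun m => cf2 ((K + 1) ^ (n + 1)) (fun th y => shf D π w X t.1
      (Zd D π q J w ω₀ X t.1 (D.wn J w ω)) th y t.2.1) m t.2.2 := ⟨_, rfl⟩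
  obtain ⟨Bs, hBs⟩ : ∃ Bs : ℝ, Bs = AR * (4 * E z) ^ q2 K₂ n := ⟨_, rfl⟩
  have hE0 : 0 < E z := by linarith
  have hW0 : 0 < (4 * E z) ^ q2 K₂ n := by positivity
  have hs : ∀ t, Pb q (fun ω => ¬ ∀ m, |(Rs t ω).coeff m| ≤ Bs * 2 ^ z) ≤ (n + 2) * η₁ := by
    intro t
    have key := hRm J w₀ w z D q (by omega) (by omega) hwz hq hO.T_lt hO.ln_w hUc E₀ (Rs t) Bs
      (by rw [hBs]; positivity) (fun ω ω' _ _ e => by rw [hRs]; dsimp only; rw [e])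
      (fun ω _ => by rw [hRs]; exact rp1_deg _) (fun ω hω hE => ?_)
    · refine key.trans ((add_le_add hPE₀ le_rfl).trans (le_of_eq ?_))
      ring
    · obtain ⟨⟨P, hF⟩, hWp, -⟩ := hpack ω hω hE
      rw [hRs, rp1_eval, hBs]
      refine hrow (cf2 ((K + 1) ^ (n + 1)) fun th y => shf D π w X t.1 (Zd D π q J w ω₀ X t.1 (D.wn J w ω)) th y
        t.2.1) (tm D J w ω) ((4 * E z) ^ q2 K₂ n) hW0 (fun y hy => ?_) t.2.2
      rw [cf2_spec (shf_P2 hO.P_tri hO.P_deg hP.co_ge hP.co_lt w X t.1 _ t.2.1)]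
      exact shf_bd hO hP hwJ ω₀ hω (hWp t.1) how hXA hE1 hE2 rfl hF hy t.2.1
  -- the coefficients of the motion of the target
  obtain ⟨Rt, hRt⟩ : ∃ Rt : D.Ω → ℝ[X], Rt = fun ω => rp1
    (cf1 ((K + 1) ^ (n + 1)) (dnf D π n w X a (Vd D π q J w ω₀ X a (D.wn J w ω)).1)) := ⟨_, rfl⟩
  obtain ⟨Bt, hBt⟩ : ∃ Bt : ℝ, Bt = (4 * E z) ^ q2 K₂ n * (E z + 1) := ⟨_, rfl⟩
  have ht : Pb q (fun ω => ¬ ∀ m, |(Rt ω).coeff m| ≤ Bt * 2 ^ z) ≤ (n + 2) * η₁ := by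
    have key := hRm J w₀ w z D q (by omega) (by omega) hwz hq hO.T_lt hO.ln_w hUc E₀ Rt Bt
      (by rw [hBt]; positivity) (fun ω ω' _ _ e => by rw [hRt]; dsimp only; rw [e])
      (fun ω _ => by rw [hRt]; exact rp1_deg _) (fun ω hω hE => ?_)
    · refine key.trans ((add_le_add hPE₀ le_rfl).trans (le_of_eq ?_))
      ring
    · obtain ⟨⟨P, hF⟩, -, hWa⟩ := hpack ω hω hE
      rw [hRt, rp1_eval, hBt, cf1_spec (dnf_P2 hO.P_tri hO.P_deg w X a _)]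
      exact dnf_bd hO hn hP hA hwJ ω₀ hω hWa.le_X how hXA hE1 hE2 hF
  -- the event
  refine ⟨{ω | E₀ ω ∧ (∀ t m, |(Rs t ω).coeff m| ≤ Bs * 2 ^ z) ∧
    ∀ m, |(Rt ω).coeff m| ≤ Bt * 2 ^ z}, ?_, ?_⟩
  · have e1 : Pb q (fun ω => ω ∉ {ω | E₀ ω ∧ (∀ t m, |(Rs t ω).coeff m| ≤ Bs * 2 ^ z) ∧
        ∀ m, |(Rt ω).coeff m| ≤ Bt * 2 ^ z}) ≤ Pb q (fun ω => ¬ E₀ ω ∨
        ((∃ t ∈ (univ : Finset (Fin (n - 1) × Fin (n - 1) × Fin ((K + 1) ^ (n + 1) + 1))),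
          ¬ ∀ m, |(Rs t ω).coeff m| ≤ Bs * 2 ^ z) ∨
          ¬ ∀ m, |(Rt ω).coeff m| ≤ Bt * 2 ^ z)) := by
      refine Pool.MIC.Pb_mono_ae hq.nonneg fun ω _ hb => ?_
      by_contra hcon
      push Not at hcon
      exact hb ⟨hcon.1, fun t => hcon.2.1 t (Finset.mem_univ t), hcon.2.2⟩
    have e2 := Pb_or' hq.nonneg (fun ω => ¬ E₀ ω) (fun ω =>
      (∃ t ∈ (univ : Finset (Fin (n - 1) × Fin (n - 1) × Fin ((K + 1) ^ (n + 1) + 1))),
          ¬ ∀ m, |(Rs t ω).coeff m| ≤ Bs * 2 ^ z) ∨ ¬ ∀ m, |(Rt ω).coeff m| ≤ Bt * 2 ^ z)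
    have e3 := Pb_or' hq.nonneg (fun ω =>
      ∃ t ∈ (univ : Finset (Fin (n - 1) × Fin (n - 1) × Fin ((K + 1) ^ (n + 1) + 1))),
          ¬ ∀ m, |(Rs t ω).coeff m| ≤ Bs * 2 ^ z) (fun ω =>
            ¬ ∀ m, |(Rt ω).coeff m| ≤ Bt * 2 ^ z)
    have e4 := Pool.MIC7.Pb_un hq.nonneg
      (univ : Finset (Fin (n - 1) × Fin (n - 1) × Fin ((K + 1) ^ (n + 1) + 1)))
      (fun t ω => ¬ ∀ m, |(Rs t ω).coeff m| ≤ Bs * 2 ^ z)
    have e5 : ∑ t : Fin (n - 1) × Fin (n - 1) × Fin ((K + 1) ^ (n + 1) + 1),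
        Pb q (fun ω => ¬ ∀ m, |(Rs t ω).coeff m| ≤ Bs * 2 ^ z) ≤
        ((n - 1 : ℕ) * ((n - 1 : ℕ) * (((K + 1) ^ (n + 1) : ℕ) + 1))) * ((n + 2) * η₁) := by
      refine (Finset.sum_le_sum (g := fun _ => (n + 2) * η₁) fun t _ => hs t).trans
        (le_of_eq ?_)
      rw [Finset.sum_const, Finset.card_univ, Fintype.card_prod, Fintype.card_prod,
        Fintype.card_fin, Fintype.card_fin, nsmul_eq_mul]
      push_cast
      ring
    have e6 : T * η₁ = η := by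
      rw [hη₁]
      field_simp
    have e7 : T * η₁ = (n + 1) * η₁ + (((n - 1 : ℕ) * ((n - 1 : ℕ) * (((K + 1) ^ (n + 1) : ℕ) + 1))) * ((n + 2) * η₁) +
        (n + 2) * η₁) := by
      rw [hT]
      ring
    linarith
  · -- the fields
    have h2 : ∀ x : ℝ, ∀ c', 0 ≤ c' → c' ≤ Cc → x ≤ (2 : ℝ) ^ (c' * z : ℝ) →
        x ≤ (2 : ℝ) ^ (Cc * z + bb : ℝ) := by
      intro x c' _ h0 h1
      refine h1.trans (Real.rpow_le_rpow_of_exponent_le (by norm_num) ?_)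
      have e1 : c' * (z : ℝ) ≤ Cc * z := mul_le_mul_of_nonneg_right h0 (Nat.cast_nonneg z)
      have e2 : (0 : ℝ) ≤ bb := Nat.cast_nonneg bb
      linarith
    have h2b : ∀ x : ℝ, ∀ c', 0 ≤ c' → c' ≤ Cc → x ≤ (2 : ℝ) ^ (c' * z : ℝ) →
        x * 2 ^ bb ≤ (2 : ℝ) ^ (Cc * z + bb : ℝ) := by
      intro x c' _ h0 h1
      rw [Real.rpow_add (by norm_num), Real.rpow_natCast]
      refine mul_le_mul_of_nonneg_right (h1.trans (Real.rpow_le_rpow_of_exponent_le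
        (by norm_num) ?_)) (by positivity)
      exact mul_le_mul_of_nonneg_right h0 (Nat.cast_nonneg z)
    have g1 : c1 ≤ Cc := by rw [hCc]; linarith
    have g2 : c2 ≤ Cc := by rw [hCc]; linarith
    have g3 : c3 ≤ Cc := by rw [hCc]; linarith
    have g4 : c4 ≤ Cc := by rw [hCc]; linarith
    have g5 : c5 ≤ Cc := by rw [hCc]; linarith
    have hCc0 : 0 ≤ Cc := hc1.trans g1
    have one_le : (1 : ℝ) ≤ (2 : ℝ) ^ (Cc * z + bb : ℝ) :=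
      Real.one_le_rpow (by norm_num) (by positivity)
    have hyd : ∀ ω, 0 < q ω → E₀ ω → ∀ r,
        |(yr D π q J w ω₀ X (D.wn J w ω) r : ℝ) / 2 ^ X| ≤ 1 := by
      intro ω hω hE r
      exact yr_le hO hP hwJ ω₀ hω ((hpack ω hω hE).2.1 r) hXA hz1
    rw [← hw]
    have eth : ∀ ω : D.Ω, (shA D π q J w ω₀ n X ((K + 1) ^ (n + 1)) K₀ z bb o' a).th
        ((shA D π q J w ω₀ n X ((K + 1) ^ (n + 1)) K₀ z bb o' a).T ω) = tm D J w ω :=
      fun ω => th_eq ω₀ ω _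
    refine ⟨hq, fun τ => ⟨?_, ?_⟩, fun τ => Fd_deg _ _ _ _ _ _, fun τ α => ?_,
      shA_N hO hwJ ω₀ _ do', shA_V ω₀ _, fun j => shA_ZB ω₀ _ j, shA_TB ω₀ _ do',
      fun ω _ j => yd_all D π q J w ω₀ X (D.wn J w ω) j, ?_, ?_, ?_, ?_, ?_, ?_, ?_⟩
    · change (0 : ℝ) ≤ ((τ.2.1 % 2 ^ (J - w) : ℕ) : ℝ) / 2 ^ (J - w)
      positivity
    · change ((τ.2.1 % 2 ^ (J - w) : ℕ) : ℝ) / 2 ^ (J - w) < 1
      rw [div_lt_one (by positivity)]
      have : τ.2.1 % 2 ^ (J - w) < 2 ^ (J - w) := Nat.mod_lt _ (by positivity)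
      exact_mod_cast this
    · exact (hFc z bb π τ.2.2 α).trans (h2b AF c1 hc1 g1 (h1 z hz1))
    · -- tri
      intro ω _ _ j i t y hji
      exact (sheet_eq hO hP.co_ge hP.co_lt ω₀ j _ t y i).trans
        (shf_tri hO.P_tri hP.inj hP.co_ge w X hji _ t y)
    · -- dia
      intro ω _ _ j t y
      exact (sheet_eq hO hP.co_ge hP.co_lt ω₀ j _ t y j).trans
        ((shf_dia hO.P_tri hP.inj hP.co_ge w X j _ t y).trans
          (congrArg (fun v => y + v) (sheet_eq hO hP.co_ge hP.co_lt ω₀ j _ t 0 j).symm))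
    · -- hq
      intro ω hG hω i
      have e1 := hG.2.2 (i.succ : Fin ((K + 1) ^ (n + 1) + 1))
      rw [hRt, rp1_coeff] at e1
      refine (le_trans e1 ?_).trans (h2 _ c3 hc3 g3 (h3 z hz1))
      rw [hBt]
    · -- hx
      intro ω hG hω i
      have e1 : (shA D π q J w ω₀ n X ((K + 1) ^ (n + 1)) K₀ z bb o' a).x
          ((shA D π q J w ω₀ n X ((K + 1) ^ (n + 1)) K₀ z bb o' a).L ω)
          ((shA D π q J w ω₀ n X ((K + 1) ^ (n + 1)) K₀ z bb o' a).th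
            ((shA D π q J w ω₀ n X ((K + 1) ^ (n + 1)) K₀ z bb o' a).T ω)) i =
          zt D π.o.1 π.o.2 ω (π.co i) :=
        (congrArg (fun t => xo D π q J w ω₀ (D.wn J w ω) t i) (eth ω)).trans
          (xo_eq hO hwJ ω₀ hω do' hP.co_lt i)
      refine (le_of_eq (congrArg abs e1)).trans ?_
      exact (zt_le1 hO hP.o_lt.1.le hP.o_lt.2.le hω (hP.co_lt i).le).trans one_le
    · -- hs
      intro ω hG hω j i m b
      have e1 := hG.2.1 (j, i, b) (m : ℕ)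
      rw [hRs, rp1_coeff] at e1
      refine (le_trans e1 ?_).trans (h2 _ c2 hc2 g2 (h2' z hz1))
      rw [hBs]
    · -- cc
      intro ω hG hω j i hij
      obtain ⟨⟨P, hF⟩, hWp, -⟩ := hpack ω hω hG.1
      have e0 := sheet_eq (z := z) (K₀ := K₀) (bb := bb) (o' := o') (a := a) (q := q) (X := X)
        (J := J) (w := w) hO hP.co_ge hP.co_lt ω₀ j (Zd D π q J w ω₀ X j (D.wn J w ω)) (tm D J w ω)
        (yd D π q J w ω₀ X (D.wn J w ω) j / 2 ^ X) i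
      rw [eth ω]
      change |(shA D π q J w ω₀ n X ((K + 1) ^ (n + 1)) K₀ z bb o' a).up (D.wn J w ω) j
        (tm D J w ω) i - (shA D π q J w ω₀ n X ((K + 1) ^ (n + 1)) K₀ z bb o' a).sheet j
          (Zd D π q J w ω₀ X j (D.wn J w ω)) (tm D J w ω)
            (yd D π q J w ω₀ X (D.wn J w ω) j / 2 ^ X) i| ≤ _
      rw [e0]
      have e1 : (4 * E2 K K₂ n (E z)) ^ q2 K₂ n * (E2 K K₂ n (E z) / 2 ^ X) ≤
          (2 : ℝ) ^ ((Cc * z + bb : ℝ) -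
            (shA D π q J w ω₀ n X ((K + 1) ^ (n + 1)) K₀ z bb o' a).X) := by
        rw [Real.rpow_sub (by norm_num)]
        have e2 : ((2 : ℝ) ^ (((shA D π q J w ω₀ n X ((K + 1) ^ (n + 1)) K₀ z bb o' a).X : ℕ) : ℝ)) =
          2 ^ X := Real.rpow_natCast 2 X
        rw [e2, ← mul_div_assoc]
        exact div_le_div_of_nonneg_right (h2 _ c4 hc4 g4 (h4 z hz1)) (by positivity)
      refine le_trans ?_ e1
      unfold SDat.up
      by_cases hj : j.val + 1 < n - 1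
      · rw [dif_pos hj]
        have e3 := frz_eq (z := z) (K₀ := K₀) (bb := bb) (o' := o') (a := a) (q := q) (X := X)
          (J := J) (w := w) hO hP.co_ge hP.co_lt ω₀ ⟨j.val + 1, hj⟩
          (Zd D π q J w ω₀ X ⟨j.val + 1, hj⟩ (D.wn J w ω)) (tm D J w ω) i
        change |(shA D π q J w ω₀ n X ((K + 1) ^ (n + 1)) K₀ z bb o' a).frz ⟨j.val + 1, hj⟩
          (Zd D π q J w ω₀ X ⟨j.val + 1, hj⟩ (D.wn J w ω)) (tm D J w ω) i - _| ≤ _
        rw [e3]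
        exact cc_frz (r := j) (r' := ⟨j.val + 1, hj⟩) hO hP hwJ ω₀ hω rfl (hWp j) (hWp _) how hXA
          hE1 hE2 hF (hyd ω hω hG.1 j) i
      · rw [dif_neg hj]
        refine cc_top hO hP hwJ ω₀ hω (fun l l1 l2 => ?_) (hWp j) how hXA hE1 hE2 hF
          (hyd ω hω hG.1 j) i
        have := rk_all hP.inj hP.co_ge hP.co_lt l1 l2
        omega
    · -- hh
      have one : ∀ ω, E₀ ω → 0 < q ω →
          |((shA D π q J w ω₀ n X ((K + 1) ^ (n + 1)) K₀ z bb o' a).N ω : ℝ) -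
            2 ^ X * (shA D π q J w ω₀ n X ((K + 1) ^ (n + 1)) K₀ z bb o' a).hgt (D.wn J w ω)
              ((shA D π q J w ω₀ n X ((K + 1) ^ (n + 1)) K₀ z bb o' a).T ω) -
            2 ^ X * (2 ^ gl D π.o n / 2 ^ gl D a n * hz D q J w ω₀ a (D.wn J w ω) n +
              cf1 ((K + 1) ^ (n + 1))
                (dnf D π n w X a (Vd D π q J w ω₀ X a (D.wn J w ω)).1) 0)| ≤
            (2 + AH + (A₀ K + (4 * E z) ^ q2 K₂ n * (A₀ K + 1) * (E z + 1))) * 2 ^ bb := by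
        intro ω hE hω
        obtain ⟨⟨P, hF⟩, -, hWa⟩ := hpack ω hω hE
        rw [hgt_eq hO hwJ ω₀ hω do' hP.inj hP.co_ge hP.co_lt]
        have a1 := hH K J a₀ w₀ z M lam gam _ C₁ D q hO π.o.1 π.o.2 o'.1 o'.2 X bb ω
          hP.o_lt.1.le hP.o_lt.2.le hω
        have a2 := tg_smp hO hn hP hA hwJ ω₀ hω (fun l l1 l2 =>
          rk_all hP.inj hP.co_ge hP.co_lt l1 l2) hWa how hXA hE1 hE2 hF
        have h0X : (0 : ℝ) < 2 ^ X := by positivity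
        have a3 := mul_le_mul_of_nonneg_left a2 h0X.le
        rw [← abs_of_pos h0X, ← abs_mul, abs_of_pos h0X, mul_div_cancel₀ _ h0X.ne'] at a3
        have e1 : ((shA D π q J w ω₀ n X ((K + 1) ^ (n + 1)) K₀ z bb o' a).N ω : ℝ) =
          (htA D n K₀ z π.o.1 π.o.2 o'.1 o'.2 X bb ω : ℝ) := rfl
        rw [e1]
        obtain ⟨v1, hv1⟩ : ∃ v1, v1 = eval (fun l : Fin (n - 1) =>
          up z (zt D π.o.1 π.o.2 ω (l + 1))) (kpA D n K₀ z π.o.1 π.o.2 o'.1 o'.2 X bb ω) :=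
          ⟨_, rfl⟩
        obtain ⟨v2, hv2⟩ : ∃ v2, v2 = dnf D π n w X a (Vd D π q J w ω₀ X a (D.wn J w ω)).1
          (tm D J w ω) := ⟨_, rfl⟩
        obtain ⟨v3, hv3⟩ : ∃ v3, v3 = 2 ^ gl D π.o n / 2 ^ gl D a n *
          hz D q J w ω₀ a (D.wn J w ω) n := ⟨_, rfl⟩
        rw [← hv1] at a1 ⊢
        rw [← hv2, ← hv3] at a3 ⊢
        have b1 := abs_add_le ((htA D n K₀ z π.o.1 π.o.2 o'.1 o'.2 X bb ω : ℝ) -
          2 ^ X * (zt D π.o.1 π.o.2 ω n - v1)) (2 ^ X * (zt D π.o.1 π.o.2 ω n - v3 - v2))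
        have e2 : (htA D n K₀ z π.o.1 π.o.2 o'.1 o'.2 X bb ω : ℝ) -
            2 ^ X * (zt D π.o.1 π.o.2 ω n - v1) + 2 ^ X * (zt D π.o.1 π.o.2 ω n - v3 - v2) =
            (htA D n K₀ z π.o.1 π.o.2 o'.1 o'.2 X bb ω : ℝ) - 2 ^ X * (v2 -
              cf1 ((K + 1) ^ (n + 1)) (dnf D π n w X a (Vd D π q J w ω₀ X a (D.wn J w ω)).1) 0 -
                v1) - 2 ^ X * (v3 + cf1 ((K + 1) ^ (n + 1))
                  (dnf D π n w X a (Vd D π q J w ω₀ X a (D.wn J w ω)).1) 0) := by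
          ring
        rw [e2] at b1
        refine b1.trans ((add_le_add a1 a3).trans ?_)
        have b2 : (1 : ℝ) ≤ 2 ^ bb := one_le_pow₀ (by norm_num)
        have b3 : 0 ≤ A₀ K + (4 * E z) ^ q2 K₂ n * (A₀ K + 1) * (E z + 1) := by positivity
        nlinarith
      intro ω hG ω' hG' hω hω' hL
      have hL' : D.wn J w ω = D.wn J w ω' := hL
      have a1 := one ω hG.1 hω
      have a2 := one ω' hG'.1 hω'
      have e1 : (shA D π q J w ω₀ n X ((K + 1) ^ (n + 1)) K₀ z bb o' a).L ω = D.wn J w ω := rfl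
      rw [e1]
      rw [← hL'] at a2
      obtain ⟨r, hr⟩ : ∃ r : ℝ, r = 2 ^ X * (2 ^ gl D π.o n / 2 ^ gl D a n *
        hz D q J w ω₀ a (D.wn J w ω) n + cf1 ((K + 1) ^ (n + 1))
          (dnf D π n w X a (Vd D π q J w ω₀ X a (D.wn J w ω)).1) 0) := ⟨_, rfl⟩
      rw [← hr] at a1 a2
      have a3 := abs_sub (((shA D π q J w ω₀ n X ((K + 1) ^ (n + 1)) K₀ z bb o' a).N ω' : ℝ) -
        2 ^ X * (shA D π q J w ω₀ n X ((K + 1) ^ (n + 1)) K₀ z bb o' a).hgt (D.wn J w ω)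
          ((shA D π q J w ω₀ n X ((K + 1) ^ (n + 1)) K₀ z bb o' a).T ω') - r)
        (((shA D π q J w ω₀ n X ((K + 1) ^ (n + 1)) K₀ z bb o' a).N ω : ℝ) -
        2 ^ X * (shA D π q J w ω₀ n X ((K + 1) ^ (n + 1)) K₀ z bb o' a).hgt (D.wn J w ω)
          ((shA D π q J w ω₀ n X ((K + 1) ^ (n + 1)) K₀ z bb o' a).T ω) - r)
      have e2 : ∀ x y u v : ℝ, x - 2 ^ X * u - r - (y - 2 ^ X * v - r) =
        (x - y) - 2 ^ X * (u - v) := fun x y u v => by ring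
      rw [e2] at a3
      have e3 : (shA D π q J w ω₀ n X ((K + 1) ^ (n + 1)) K₀ z bb o' a).X = X := rfl
      rw [e3]
      refine a3.trans ((add_le_add a2 a1).trans ?_)
      have b1 := h2b _ c5 hc5 g5 (h5 z hz1)
      refine le_trans (le_of_eq ?_) b1
      ring

end Pool.LSH
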