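import Pool.Agent.H12.LSH.Own

/-!
# The sheets of a cell: the theorem
-/

set_option autoImplicit false

namespace Pool.LSH

open Finset MvPolynomial
open Pool.Agent.H49.Ent Pool.Agent.H32.Dense Pool.STK Pool.STAT Pool.MIC Pool.MicA Pool.PTH
open Pool.MIC.Frm (nat pt pt_eq)
open Pool.BFL (Pl Pb)
open Pool.GSD (Fra)
open scoped Polynomial

/-- The polynomial with given coefficients. -/
noncomputable def rp1 {N : ℕ} (c : Fin (N + 1) → ℝ) : ℝ[X] :=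
  ∑ a, Polynomial.C (c a) * Polynomial.X ^ a.val

theorem rp1_coeff {N : ℕ} (c : Fin (N + 1) → ℝ) (a : Fin (N + 1)) : (rp1 c).coeff a = c a := by
  unfold rp1
  rw [Polynomial.finsetSum_coeff, Finset.sum_eq_single a]
  · rw [Polynomial.coeff_C_mul, Polynomial.coeff_X_pow, if_pos rfl, mul_one]
  · intro b' _ hb'
    rw [Polynomial.coeff_C_mul, Polynomial.coeff_X_pow, if_neg (fun h => hb' (Fin.ext h.symm)),
      mul_zero]
  · intro h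
    exact absurd (Finset.mem_univ _) h

theorem rp1_deg {N : ℕ} (c : Fin (N + 1) → ℝ) : (rp1 c).natDegree < N + 1 := by
  unfold rp1
  refine Nat.lt_succ_of_le (Polynomial.natDegree_sum_le_of_forall_le _ _ fun b _ => ?_)
  refine (Polynomial.natDegree_C_mul_le _ _).trans ?_
  rw [Polynomial.natDegree_X_pow]
  omega

theorem rp1_eval {N : ℕ} (c : Fin (N + 1) → ℝ) (t : ℝ) :
    (rp1 c).eval t = ∑ a, c a * t ^ a.val := by
  unfold rp1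
  rw [Polynomial.eval_finsetSum]
  refine Finset.sum_congr rfl fun b _ => ?_
  rw [Polynomial.eval_mul, Polynomial.eval_C, Polynomial.eval_pow, Polynomial.eval_X]

theorem Xb.rp {f : ℕ → ℝ} (h : Xb f) : ∃ C : ℝ, 0 ≤ C ∧ ∀ z : ℕ, 1 ≤ z →
    f z ≤ (2 : ℝ) ^ (C * z : ℝ) := by
  obtain ⟨C, hC, h1⟩ := h
  exact ⟨2 * C, by positivity, fun z hz => (h1 z hz).2.trans (exp_le_rpow hC z)⟩

section

variable {D : NDat2} {n K K₀ J a₀ w₀ z M X bb w c : ℕ} {lam gam : ℕ → ℝ} {κ C₁ : ℝ}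
  {q : D.Ω → ℝ} {π : Pls (n - 1)} {o' a : ℕ × ℕ}

theorem TmU_mono {κ κ' : ℝ} (h : D.TmU J w₀ z κ q) (hk : κ ≤ κ') : D.TmU J w₀ z κ' q := by
  unfold NDat2.TmU at h ⊢
  have : κ * z ≤ κ' * z := mul_le_mul_of_nonneg_right hk (Nat.cast_nonneg z)
  linarith

theorem th_eq (ω₀ ω : D.Ω) (N : ℕ) :
    (shA D π q J w ω₀ n X N K₀ z bb o' a).th ((shA D π q J w ω₀ n X N K₀ z bb o' a).T ω) =
      tm D J w ω := by
  change ((thr D J w ω % 2 ^ (J - w) : ℕ) : ℝ) / 2 ^ (J - w) = (thr D J w ω : ℝ) / 2 ^ (J - w)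
  unfold thr
  rw [Nat.mod_mod]

theorem sheet_eq (hO : D.Ok2 n K J a₀ w₀ z M lam gam κ C₁ q) (h1 : ∀ r, 1 ≤ π.co r)
    (h2 : ∀ r, π.co r < n) (ω₀ : D.Ω) (j : Fin (n - 1)) (ζ : ZeT D (n - 1)) (t y : ℝ)
    (i : Fin (n - 1)) :
    (shA D π q J w ω₀ n X ((K + 1) ^ (n + 1)) K₀ z bb o' a).sheet j ζ t y i =
      shf D π w X j ζ t y i :=
  cf2_spec (shf_P2 hO.P_tri hO.P_deg h1 h2 w X j ζ i) t y

theorem frz_eq (hO : D.Ok2 n K J a₀ w₀ z M lam gam κ C₁ q) (h1 : ∀ r, 1 ≤ π.co r)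
    (h2 : ∀ r, π.co r < n) (ω₀ : D.Ω) (j : Fin (n - 1)) (ζ : ZeT D (n - 1)) (t : ℝ)
    (i : Fin (n - 1)) :
    (shA D π q J w ω₀ n X ((K + 1) ^ (n + 1)) K₀ z bb o' a).frz j ζ t i =
      shf D π w X j ζ t (-shf D π w X j ζ t 0 j) i := by
  unfold SDat.frz
  rw [sheet_eq hO h1 h2, sheet_eq hO h1 h2]

theorem shA_N (hO : D.Ok2 n K J a₀ w₀ z M lam gam κ C₁ q) (hw : w ≤ J) (ω₀ : D.Ω) (N : ℕ)
    (do' : Det q (D.wn J w) (D.c π.o.1 π.o.2)) :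
    Det q (fun ω => ((shA D π q J w ω₀ n X N K₀ z bb o' a).L ω,
      (shA D π q J w ω₀ n X N K₀ z bb o' a).T ω))
      (shA D π q J w ω₀ n X N K₀ z bb o' a).N := by
  intro ω ω' h h' e
  have e1 : D.wn J w ω = D.wn J w ω' := (Prod.ext_iff.1 e).1
  have e2 : (D.c π.o.1 π.o.2 ω, (thr D J w ω, kpA D n K₀ z π.o.1 π.o.2 o'.1 o'.2 X bb ω)) =
    (D.c π.o.1 π.o.2 ω', (thr D J w ω', kpA D n K₀ z π.o.1 π.o.2 o'.1 o'.2 X bb ω')) :=
    (Prod.ext_iff.1 e).2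
  have e3 : thr D J w ω = thr D J w ω' := (Prod.ext_iff.1 (Prod.ext_iff.1 e2).2).1
  have e4 : kpA D n K₀ z π.o.1 π.o.2 o'.1 o'.2 X bb ω =
    kpA D n K₀ z π.o.1 π.o.2 o'.1 o'.2 X bb ω' := (Prod.ext_iff.1 (Prod.ext_iff.1 e2).2).2
  have hzt : ∀ l ≤ n, zt D π.o.1 π.o.2 ω l = zt D π.o.1 π.o.2 ω' l := by
    intro l hl
    rw [← zt_Qp hO hw h hl, ← zt_Qp hO hw h' hl, Qp_congr do' h h' e1, e3]
  have hY : Yp D n z π.o.1 π.o.2 X ω = Yp D n z π.o.1 π.o.2 X ω' := by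
    funext l
    unfold Yp
    rw [hzt (l + 1) (by have := l.2; omega)]
  have hnu : nuA D n π.o.1 π.o.2 X ω = nuA D n π.o.1 π.o.2 X ω' := by
    unfold nuA
    rw [hzt n le_rfl]
  change htA D n K₀ z π.o.1 π.o.2 o'.1 o'.2 X bb ω = htA D n K₀ z π.o.1 π.o.2 o'.1 o'.2 X bb ω'
  unfold htA
  rw [hnu, hY, e4]

theorem shA_V (ω₀ : D.Ω) (N : ℕ) :
    Det q (fun ω => (shA D π q J w ω₀ n X N K₀ z bb o' a).V
        ((shA D π q J w ω₀ n X N K₀ z bb o' a).L ω))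
      (fun ω => ((shA D π q J w ω₀ n X N K₀ z bb o' a).y
          ((shA D π q J w ω₀ n X N K₀ z bb o' a).L ω),
        (shA D π q J w ω₀ n X N K₀ z bb o' a).q ((shA D π q J w ω₀ n X N K₀ z bb o' a).L ω),
        fun j => (shA D π q J w ω₀ n X N K₀ z bb o' a).Z j
          ((shA D π q J w ω₀ n X N K₀ z bb o' a).L ω))) := by
  intro ω ω' _ _ e
  have e' : Vd D π q J w ω₀ X a (D.wn J w ω) = Vd D π q J w ω₀ X a (D.wn J w ω') := e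
  have h1 : yd D π q J w ω₀ X (D.wn J w ω) = yd D π q J w ω₀ X (D.wn J w ω') :=
    congrArg (fun V : VdT D (n - 1) => V.2.2) e'
  have h2 : qd D π n w X N a (Vd D π q J w ω₀ X a (D.wn J w ω)) =
    qd D π n w X N a (Vd D π q J w ω₀ X a (D.wn J w ω')) := congrArg _ e'
  have h3 : (fun r => Zd D π q J w ω₀ X r (D.wn J w ω)) =
    fun r => Zd D π q J w ω₀ X r (D.wn J w ω') :=
    congrArg (fun V : VdT D (n - 1) => V.2.1) e'
  exact Prod.ext h1 (Prod.ext h2 h3)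

theorem shA_ZB (ω₀ : D.Ω) (N : ℕ) (j : Fin (n - 1)) :
    Det q (fun ω => (shA D π q J w ω₀ n X N K₀ z bb o' a).Z j
        ((shA D π q J w ω₀ n X N K₀ z bb o' a).L ω))
      (fun ω => (shA D π q J w ω₀ n X N K₀ z bb o' a).B
        ((shA D π q J w ω₀ n X N K₀ z bb o' a).L ω)) := by
  intro ω ω' _ _ e
  have e' : Zd D π q J w ω₀ X j (D.wn J w ω) = Zd D π q J w ω₀ X j (D.wn J w ω') := e
  exact congrArg Prod.fst e'

theorem shA_TB (ω₀ : D.Ω) (N : ℕ) (do' : Det q (D.wn J w) (D.c π.o.1 π.o.2)) :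
    Det q (shA D π q J w ω₀ n X N K₀ z bb o' a).T
      (fun ω => (shA D π q J w ω₀ n X N K₀ z bb o' a).B
        ((shA D π q J w ω₀ n X N K₀ z bb o' a).L ω)) := by
  intro ω ω' h h' e
  have e1 : D.c π.o.1 π.o.2 ω = D.c π.o.1 π.o.2 ω' := congrArg Prod.fst e
  have c1 : cl D q J w ω₀ π.o (D.wn J w ω) = D.c π.o.1 π.o.2 ω := cl_eq ω₀ do' h
  have c2 : cl D q J w ω₀ π.o (D.wn J w ω') = D.c π.o.1 π.o.2 ω' := cl_eq ω₀ do' h'
  change cl D q J w ω₀ π.o (D.wn J w ω) = cl D q J w ω₀ π.o (D.wn J w ω')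
  rw [c1, c2, e1]

/-- The value of the own shape on the path. -/
theorem val_own (hO : D.Ok2 n K J a₀ w₀ z M lam gam κ C₁ q) (hw : w ≤ J) (ω₀ : D.Ω) {ω : D.Ω}
    (hω : 0 < q ω) (do' : Det q (D.wn J w) (D.c π.o.1 π.o.2)) (hi : Function.Injective π.co)
    (h1 : ∀ r, 1 ≤ π.co r) (h2 : ∀ r, π.co r < n) :
    eval (xo D π q J w ω₀ (D.wn J w ω) (tm D J w ω))
      (Fd n K₀ z bb π (kpA D n K₀ z π.o.1 π.o.2 o'.1 o'.2 X bb ω)) =
    eval (fun l : Fin (n - 1) => up z (zt D π.o.1 π.o.2 ω (l + 1)))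
      (kpA D n K₀ z π.o.1 π.o.2 o'.1 o'.2 X bb ω) := by
  rw [eval_Fd n K₀ z bb π (kpA_deg _ _ _ _ _ _ _ _ _ _ _) (kpA_coef _ _ _ _ _ _ _ _ _ _ _)]
  refine congrArg (fun v : Fin (n - 1) → ℝ =>
    eval v (kpA D n K₀ z π.o.1 π.o.2 o'.1 o'.2 X bb ω)) ?_
  funext l
  have hl := l.2
  have hr : π.rk ((l : ℕ) + 1) < n - 1 := rk_all hi h1 h2 (by omega) (by omega)
  rw [dif_pos hr, xo_eq hO hw ω₀ hω do' h2]
  have e : π.co ⟨π.rk ((l : ℕ) + 1), hr⟩ = (l : ℕ) + 1 := of_rk_eq rfl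
  rw [e]
  unfold up
  have : (2 : ℝ) ^ z ≠ 0 := by positivity
  field_simp
  ring

/-- The height along the line. -/
theorem hgt_eq (hO : D.Ok2 n K J a₀ w₀ z M lam gam κ C₁ q) (hw : w ≤ J) (ω₀ : D.Ω) {ω : D.Ω}
    (hω : 0 < q ω) (do' : Det q (D.wn J w) (D.c π.o.1 π.o.2)) (hi : Function.Injective π.co)
    (h1 : ∀ r, 1 ≤ π.co r) (h2 : ∀ r, π.co r < n) :
    (shA D π q J w ω₀ n X ((K + 1) ^ (n + 1)) K₀ z bb o' a).hgt (D.wn J w ω)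
      ((shA D π q J w ω₀ n X ((K + 1) ^ (n + 1)) K₀ z bb o' a).T ω) =
    dnf D π n w X a (Vd D π q J w ω₀ X a (D.wn J w ω)).1 (tm D J w ω) -
      cf1 ((K + 1) ^ (n + 1)) (dnf D π n w X a (Vd D π q J w ω₀ X a (D.wn J w ω)).1) 0 -
      eval (fun l : Fin (n - 1) => up z (zt D π.o.1 π.o.2 ω (l + 1)))
        (kpA D n K₀ z π.o.1 π.o.2 o'.1 o'.2 X bb ω) := by
  unfold SDat.hgt
  rw [th_eq]
  have e1 : (∑ i : Fin ((K + 1) ^ (n + 1)),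
      (shA D π q J w ω₀ n X ((K + 1) ^ (n + 1)) K₀ z bb o' a).q (D.wn J w ω) i *
        tm D J w ω ^ (i.val + 1)) =
      dnf D π n w X a (Vd D π q J w ω₀ X a (D.wn J w ω)).1 (tm D J w ω) -
      cf1 ((K + 1) ^ (n + 1)) (dnf D π n w X a (Vd D π q J w ω₀ X a (D.wn J w ω)).1) 0 := by
    have h := cf1_spec (dnf_P2 (n := n) (π := π) hO.P_tri hO.P_deg w X a
      (Vd D π q J w ω₀ X a (D.wn J w ω)).1) (tm D J w ω)
    rw [Fin.sum_univ_succ, Fin.val_zero, pow_zero, mul_one] at h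
    rw [← h, add_sub_cancel_left]
    rfl
  have e2 : eval ((shA D π q J w ω₀ n X ((K + 1) ^ (n + 1)) K₀ z bb o' a).x (D.wn J w ω)
      (tm D J w ω)) ((shA D π q J w ω₀ n X ((K + 1) ^ (n + 1)) K₀ z bb o' a).F
        ((shA D π q J w ω₀ n X ((K + 1) ^ (n + 1)) K₀ z bb o' a).T ω)) =
      eval (fun l : Fin (n - 1) => up z (zt D π.o.1 π.o.2 ω (l + 1)))
        (kpA D n K₀ z π.o.1 π.o.2 o'.1 o'.2 X bb ω) :=
    val_own hO hw ω₀ hω do' hi h1 h2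
  have e3 : (shA D π q J w ω₀ n X ((K + 1) ^ (n + 1)) K₀ z bb o' a).s
      ((shA D π q J w ω₀ n X ((K + 1) ^ (n + 1)) K₀ z bb o' a).T ω) = 0 := rfl
  rw [e1, e2, e3, sub_zero]

end

end Pool.LSH
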