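import Pool.Agent.H48.GEN.ShS
import Pool.Agent.H35.MICA.Pth
import Pool.Agent.H41.GSD.Two

/-!
# The sheets of a cell: the objects

`o` is the base pair. `k` of the base coordinates are ordered, `co r` is the number of the
coordinate of rank `r`; the other base coordinates are frozen at zero in the chart of `o`. `p r` is
the place of the coordinate of rank `r`: all `p r` are in one window, longer than the window of `o`.
The lines are `wn J w`, `w` the window of `o`; the time `th` in this window is in `[0, 1)`.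

The sheet of rank `r`: coordinates of rank `< r` have given heights over the labels at `p r`, the
coordinate of rank `r` has the height `y` over the label at `p r` in the unit of `o`, the other
coordinates are zero in the chart of `o`.
-/

set_option autoImplicit false

namespace Pool.LSH

open Finset MvPolynomial
open Pool.Agent.H49.Ent Pool.Agent.H32.Dense Pool.STK Pool.STAT Pool.MIC Pool.MicA
open Pool.MIC.Frm (nat pt)
open Pool.PTH (Qp)
open Pool.BFL (Pl Pb)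

/-- The places. -/
structure Pls (k : ℕ) where
  o : ℕ × ℕ
  p : Fin k → ℕ × ℕ
  co : Fin k → ℕ

open Classical in
/-- The rank of a coordinate, `k` for the coordinates without rank. -/
noncomputable def Pls.rk {k : ℕ} (π : Pls k) (l : ℕ) : ℕ :=
  if h : ∃ r, π.co r = l then (h.choose : ℕ) else k

section

variable (D : NDat2) {k : ℕ} (π : Pls k)

open Classical in
/-- A sample on the line `x`. -/
noncomputable def rp (q : D.Ω → ℝ) (J w : ℕ) (ω₀ : D.Ω) (x : D.Λ × ℕ) : D.Ω :=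
  if h : ∃ ω, 0 < q ω ∧ D.wn J w ω = x then h.choose else ω₀

/-- The context at the pair `a` of the line. -/
noncomputable def cl (q : D.Ω → ℝ) (J w : ℕ) (ω₀ : D.Ω) (a : ℕ × ℕ) (x : D.Λ × ℕ) : D.Γ :=
  D.c a.1 a.2 (rp D q J w ω₀ x)

/-- The natural height of the line over the label at the pair `a` at the beginning of the window. -/
noncomputable def hz (q : D.Ω → ℝ) (J w : ℕ) (ω₀ : D.Ω) (a : ℕ × ℕ) (x : D.Λ × ℕ) (l : ℕ) : ℝ :=
  (Qp D J w a.1 a.2 (rp D q J w ω₀ x) l).eval 0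

/-- `X` digits of the heights at `p r` of the coordinates of rank `< r`. -/
noncomputable def hd (q : D.Ω → ℝ) (J w : ℕ) (ω₀ : D.Ω) (X : ℕ) (r : Fin k) (x : D.Λ × ℕ)
    (l : ℕ) : ℤ :=
  if π.rk l < r then ⌊(2 : ℝ) ^ X * hz D q J w ω₀ (π.p r) x l⌋ else 0

/-- The level at the pair `a`. -/
def gl (a : ℕ × ℕ) (l : ℕ) : ℕ := D.g a.1 a.2 l

/-- The height at `p r` of the coordinate of rank `r`, in the unit of `o`, `X` digits. -/
noncomputable def yr (q : D.Ω → ℝ) (J w : ℕ) (ω₀ : D.Ω) (X : ℕ) (x : D.Λ × ℕ) (r : Fin k) : ℤ :=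
  ⌊(2 : ℝ) ^ X * (2 ^ gl D π.o (π.co r) * hz D q J w ω₀ (π.p r) x (π.co r) /
    2 ^ gl D (π.p r) (π.co r))⌋

/-- The same, truncated. -/
noncomputable def yd (q : D.Ω → ℝ) (J w : ℕ) (ω₀ : D.Ω) (X : ℕ) (x : D.Λ × ℕ) (r : Fin k) : ℤ :=
  if |yr D π q J w ω₀ X x r| ≤ 2 ^ X then yr D π q J w ω₀ X x r else 0

/-- The data which determine the sheets of rank `≤ r`. -/
abbrev ZeT (k : ℕ) : Type := D.Γ × (ℕ × (Fin k → D.Γ × ((ℕ → ℤ) × ℤ)))

/-- The data of rank `r`. -/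
noncomputable def Zd (q : D.Ω → ℝ) (J w : ℕ) (ω₀ : D.Ω) (X : ℕ) (r : Fin k) (x : D.Λ × ℕ) :
    ZeT D k :=
  (cl D q J w ω₀ π.o x, (x.2, fun s => (cl D q J w ω₀ (π.p (min s r)) x,
    (hd D π q J w ω₀ X (min s r) x, if s < r then yd D π q J w ω₀ X x s else 0))))

/-- The absolute time. -/
noncomputable def tt (w v : ℕ) (th : ℝ) : ℝ := (v : ℝ) / 2 ^ w + 1 / 2 ^ w * th

/-- The levels of the sheet of rank `r`. -/
noncomputable def mxg (r : Fin k) (l : ℕ) : ℕ :=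
  if π.rk l ≤ r then gl D (π.p r) l else gl D π.o l

/-- The labels of the sheet of rank `r`. -/
noncomputable def mxP (r : Fin k) (a b : D.Γ) (l : ℕ) : PN :=
  if π.rk l ≤ r then D.P (π.p r).1 (π.p r).2 b l else D.P π.o.1 π.o.2 a l

/-- The heights of the sheet of rank `r`. -/
noncomputable def mxu (X : ℕ) (r : Fin k) (hh : ℕ → ℤ) (y : ℝ) (l : ℕ) : ℝ :=
  if π.rk l < r then (hh l : ℝ) / 2 ^ X else
    if π.rk l = r then 2 ^ gl D (π.p r) l / 2 ^ gl D π.o l * y else 0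

/-- The point of the sheet of rank `r`. -/
noncomputable def mxpt (w X : ℕ) (r : Fin k) (ζ : ZeT D k) (th y : ℝ) : ℕ → ℝ :=
  pt (mxg D π r) (atT (tt w ζ.2.1 th) (mxP D π r ζ.1 (ζ.2.2 r).1)) (mxu D π X r (ζ.2.2 r).2.1 y)

/-- The natural coordinates at `o` of the point of the sheet of rank `r`. -/
noncomputable def shf (w X : ℕ) (r : Fin k) (ζ : ZeT D k) (th y : ℝ) (i : Fin k) : ℝ :=
  nat (gl D π.o) (atT (tt w ζ.2.1 th) (D.P π.o.1 π.o.2 ζ.1)) (mxpt D π w X r ζ th y) (π.co i)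

/-! ### The target: place `a` -/

/-- `X` digits of the heights at the pair `a` of the coordinates with rank. -/
noncomputable def hn (q : D.Ω → ℝ) (J w : ℕ) (ω₀ : D.Ω) (X : ℕ) (a : ℕ × ℕ) (x : D.Λ × ℕ)
    (l : ℕ) : ℤ :=
  if π.rk l < k then ⌊(2 : ℝ) ^ X * hz D q J w ω₀ a x l⌋ else 0

/-- The data which determine the motion of the target and all the sheets. -/
abbrev VdT (k : ℕ) : Type :=
  (D.Γ × (ℕ × (D.Γ × (ℕ → ℤ)))) × ((Fin k → ZeT D k) × (Fin k → ℤ))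

/-- The data of the line. -/
noncomputable def Vd (q : D.Ω → ℝ) (J w : ℕ) (ω₀ : D.Ω) (X : ℕ) (a : ℕ × ℕ) (x : D.Λ × ℕ) :
    VdT D k :=
  ((cl D q J w ω₀ π.o x, (x.2, (cl D q J w ω₀ a x, hn D π q J w ω₀ X a x))),
    (fun r => Zd D π q J w ω₀ X r x, yd D π q J w ω₀ X x))

/-- The point whose coordinates with rank have the heights `hh` over the labels at `a`, the others
are zero in the chart of `o`. -/
noncomputable def xvp (w X : ℕ) (a : ℕ × ℕ) (V : D.Γ × (ℕ × (D.Γ × (ℕ → ℤ)))) (th : ℝ) : ℕ → ℝ :=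
  pt (fun l => if π.rk l < k then gl D a l else gl D π.o l)
    (atT (tt w V.2.1 th) fun l => if π.rk l < k then D.P a.1 a.2 V.2.2.1 l else
      D.P π.o.1 π.o.2 V.1 l)
    fun l => if π.rk l < k then (V.2.2.2 l : ℝ) / 2 ^ X else 0

/-- The difference of the labels of the target at this point, in the unit of `o`. -/
noncomputable def dnf (n w X : ℕ) (a : ℕ × ℕ) (V : D.Γ × (ℕ × (D.Γ × (ℕ → ℤ)))) (th : ℝ) : ℝ :=
  (2 : ℝ) ^ gl D π.o n * (eval (xvp D π w X a V th) (D.P a.1 a.2 V.2.2.1 n) -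
    eval (xvp D π w X a V th) (D.P π.o.1 π.o.2 V.1 n))

end

open Classical in
/-- The coefficients of a function of two variables, if it is a polynomial of degree `≤ N`. -/
noncomputable def cf2 (N : ℕ) (f : ℝ → ℝ → ℝ) : Fin (N + 1) → Fin (N + 1) → ℝ :=
  if h : ∃ c : Fin (N + 1) → Fin (N + 1) → ℝ, ∀ t y, f t y = ∑ a, ∑ b, c a b * t ^ a.val * y ^ b.val
    then h.choose else 0

open Classical in
/-- The coefficients of a function of one variable, if it is a polynomial of degree `≤ N`. -/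
noncomputable def cf1 (N : ℕ) (f : ℝ → ℝ) : Fin (N + 1) → ℝ :=
  if h : ∃ c : Fin (N + 1) → ℝ, ∀ t, f t = ∑ a, c a * t ^ a.val then h.choose else 0

/-- The motion of the target. -/
noncomputable def qd (D : NDat2) {k : ℕ} (π : Pls k) (n w X N : ℕ) (a : ℕ × ℕ) (V : VdT D k)
    (i : Fin N) : ℝ :=
  cf1 N (dnf D π n w X a V.1) i.succ

/-- The path of the line in the chart of `o`. -/
noncomputable def xo (D : NDat2) {k : ℕ} (π : Pls k) (q : D.Ω → ℝ) (J w : ℕ) (ω₀ : D.Ω)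
    (x : D.Λ × ℕ) (t : ℝ) (i : Fin k) : ℝ :=
  (Qp D J w π.o.1 π.o.2 (rp D q J w ω₀ x) (π.co i)).eval t

open Classical in
/-- The own shape in the natural coordinates of `o`, by rank; truncated. -/
noncomputable def Fd (n K₀ z bb : ℕ) {k : ℕ} (π : Pls k) (F : Pl (n - 1)) : Pl k :=
  if F.totalDegree ≤ K₀ ∧ ∀ α, |coeff α F| ≤ 2 ^ bb then
    bind₁ (fun l : Fin (n - 1) =>
      if h : π.rk (l + 1) < k then C (1 / (4 * 2 ^ z)) * MvPolynomial.X ⟨π.rk (l + 1), h⟩ + C (1 / 2)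
        else C (1 / 2)) F
  else 0

/-- **The data of the sheets of a cell**, for the height `Nn` of the target with the own shape `F`,
the motion `qq` and the path `xx`. -/
noncomputable def shD (D : NDat2) {k : ℕ} (π : Pls k) (q : D.Ω → ℝ) (J w : ℕ) (ω₀ : D.Ω)
    (X N m K : ℕ) (Tau Nu : Type) (T : D.Ω → Tau) (th : Tau → ℝ) (s : Tau → ℝ)
    (F : Tau → MvPolynomial (Fin k) ℝ) (V : D.Λ × ℕ → Nu) (xx : D.Λ × ℕ → ℝ → Fin k → ℝ)
    (qq : D.Λ × ℕ → Fin m → ℝ) (Nn : D.Ω → ℤ) : SDat k N m K where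
  Om := D.Ω
  Lam := D.Λ × ℕ
  Tau := Tau
  Nu := Nu
  Ze := ZeT D k
  Be := D.Γ
  fin := D.fin
  P := q
  L := D.wn J w
  T := T
  V := V
  Z := Zd D π q J w ω₀ X
  B := cl D q J w ω₀ π.o
  y := yd D π q J w ω₀ X
  x := xx
  sg := fun r ζ i => cf2 N fun t y => shf D π w X r ζ t y i
  q := qq
  N := Nn
  th := th
  s := s
  F := F
  X := X

/-- **The levels of the places**: `c z` bounds the fluctuations, `X` digits are lost between
different places. -/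
structure Plc (D : NDat2) (n z X c M : ℕ) {k : ℕ} (π : Pls k) : Prop where
  co_ge : ∀ r, 1 ≤ π.co r
  co_lt : ∀ r, π.co r < n
  inj : Function.Injective π.co
  o_lt : π.o.1 < M ∧ π.o.2 < M
  p_lt : ∀ r, (π.p r).1 < M
  /-- the window -/
  win : ∀ r, (π.p r).2 * z + X + z ≤ π.o.2 * z
  same : ∀ r s, (π.p r).2 = (π.p s).2
  /-- the coordinates of rank `≤ r` are deeper at `p r` than at `o` -/
  deep : ∀ (r : Fin k) l, 1 ≤ l → l < n → π.rk l ≤ r → gl D π.o l ≤ gl D (π.p r) l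
  /-- the others are not -/
  wide : ∀ (r : Fin k) l, 1 ≤ l → l < n → (r : ℕ) < π.rk l → gl D (π.p r) l ≤ gl D π.o l + c * z
  self : ∀ r, gl D π.o (π.co r) + z ≤ gl D (π.p r) (π.co r) ∧
    gl D (π.p r) (π.co r) ≤ gl D π.o (π.co r) + c * z
  drop : ∀ r s : Fin k, r ≤ s → π.p r = π.p s ∨
    ∀ l, 1 ≤ l → l < n → gl D (π.p r) l + X ≤ gl D (π.p s) l

/-- The place `a` of the target: all the coordinates with rank are deeper than at `o`, the target is
not, by at most `c z`. -/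
structure Pln (D : NDat2) (n z X c M : ℕ) {k : ℕ} (π : Pls k) (a : ℕ × ℕ) : Prop where
  a_lt : a.1 < M
  win : a.2 * z + X + c * z + z ≤ π.o.2 * z
  deep : ∀ l, 1 ≤ l → l < n → π.rk l < k → gl D π.o l ≤ gl D a l
  wide : ∀ l, 1 ≤ l → l < n → ¬ π.rk l < k → gl D a l ≤ gl D π.o l + c * z
  tgt : gl D a n ≤ gl D π.o n ∧ gl D π.o n ≤ gl D a n + c * z

/-- **The data of a cell with no wide coordinate**: the path of the line, the own shape `kpA`. -/
noncomputable def shA (D : NDat2) {k : ℕ} (π : Pls k) (q : D.Ω → ℝ) (J w : ℕ) (ω₀ : D.Ω)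
    (n X N K₀ z bb : ℕ) (o' a : ℕ × ℕ) : SDat k N N K₀ :=
  shD D π q J w ω₀ X N N K₀ (D.Γ × (ℕ × Pl (n - 1))) (VdT D k)
    (fun ω => (D.c π.o.1 π.o.2 ω,
      (thr D J w ω, kpA D n K₀ z π.o.1 π.o.2 o'.1 o'.2 X bb ω)))
    (fun τ => ((τ.2.1 % 2 ^ (J - w) : ℕ) : ℝ) / 2 ^ (J - w)) (fun _ => 0)
    (fun τ => Fd n K₀ z bb π τ.2.2) (Vd D π q J w ω₀ X a) (xo D π q J w ω₀)
    (fun x => qd D π n w X N a (Vd D π q J w ω₀ X a x))
    (htA D n K₀ z π.o.1 π.o.2 o'.1 o'.2 X bb)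

/-- **The sheets of a cell**, P3 (c). -/
def ShAStmt : Prop :=
  ∀ (n K K₀ : ℕ) (lam gam : ℕ → ℝ) (C₁ : ℝ), 1 ≤ n → 1 ≤ C₁ → (∀ l, 1 ≤ lam l) → (∀ l, 0 ≤ gam l) →
    K * (K + 1) ^ n ≤ K₀ → ∃ N : ℕ, ∀ c : ℕ, ∃ C : ℝ, 0 ≤ C ∧ ∀ (M : ℕ) (η : ℝ), 2 ≤ M → 0 < η →
    ∃ (κ : ℝ) (z₀ : ℕ), 0 < κ ∧
    ∀ (J a₀ w₀ z X bb : ℕ) (D : NDat2) (q : D.Ω → ℝ) (π : Pls (n - 1)) (o' a : ℕ × ℕ) (ω₀ : D.Ω),
      z₀ ≤ z → z ≤ X → Plc D n z X c M π → Pln D n z X c M π a →
      D.Ok2 n K J a₀ w₀ z M lam gam κ C₁ q → D.TmU J w₀ z κ q →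
      ∃ G : Set D.Ω, Pb q (fun ω => ω ∉ G) ≤ η ∧
        (shA D π q J (w₀ + π.o.2 * z) ω₀ n X N K₀ z bb o' a).OK G (C * z + bb)

end Pool.LSH
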