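import Pool.Agent.H12.LSH.Sha
import Pool.Agent.H19.VAS.Def

/-!
# The sheets of a cell with wide coordinates
-/

set_option autoImplicit false

namespace Pool.LSH

open Finset MvPolynomial
open Pool.Agent.H49.Ent Pool.Agent.H32.Dense Pool.STK Pool.STAT Pool.MIC Pool.MicA Pool.PTH
open Pool.FRM
open Pool.MIC.Frm (nat pt pt_eq)
open Pool.BFL (Pl Pb)
open Pool.GSD (Fra ch)
open Pool.VAS
open scoped Polynomial

section

variable {D : NDat2} {n K K₂ J a₀ w₀ z M k w X c : ℕ} {lam gam : ℕ → ℝ} {κ C₁ : ℝ} {q : D.Ω → ℝ}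
  {π : Pls k} {ω : D.Ω} {b a : ℕ × ℕ} {E : ℝ} {P : ℕ → PN}

theorem thq_eq (J w : ℕ) (ω : D.Ω) : thq J w (thr D J w ω) = tm D J w ω := by
  unfold thq tm thr
  rw [Nat.mod_mod]

theorem xf_eq (hk : ∀ r, 1 ≤ π.co r) (ω₀ : D.Ω) (hω : 0 < q ω)
    (do' : Det q (D.wn J w) (D.c π.o.1 π.o.2)) (t : ℝ) (i : Fin k) :
    VAS.xf D π q J w ω₀ X a (D.wn J w ω) t i = nat (gl D π.o) (D.Φ π.o.1 π.o.2 ω)
      (xvp D π w X a (Vd D π q J w ω₀ X a (D.wn J w ω)).1 t) (π.co i) := by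
  unfold VAS.xf nat
  rw [atT_pos _ _ (hk i), cl_eq ω₀ do' hω]
  rfl

/-- **The frozen path is on the last sheet.** -/
theorem cc_wide (hO : D.Ok2 n K J a₀ w₀ z M lam gam κ C₁ q) (hP : Plc D n z X c M π)
    (hA : Pln D n z X c M π a) (hw : w ≤ J)
    (ω₀ : D.Ω) (hω : 0 < q ω) {r : Fin k} (hr : (r : ℕ) + 1 = k)
    (hdr : ∀ l, 1 ≤ l → l < n → gl D (π.p r) l + X ≤ gl D a l)
    (hb : Wn D n w₀ w J z X M (π.p r) ω) (ha : Wn D n w₀ w J z X M a ω)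
    (how : w₀ + π.o.2 * z ≤ w) (hX : A₀ K ≤ 2 ^ X) (hE : (2 : ℝ) ^ (c * z) ≤ E) (hE3 : 3 ≤ E)
    (hF : Fr D n K₂ M E P ω) (hy : |(yr D π q J w ω₀ X (D.wn J w ω) r : ℝ) / 2 ^ X| ≤ 1)
    (i : Fin k) :
    |VAS.xf D π q J w ω₀ X a (D.wn J w ω) (tm D J w ω) i -
      shf D π w X r (Zd D π q J w ω₀ X r (D.wn J w ω)) (tm D J w ω)
        (yd D π q J w ω₀ X (D.wn J w ω) r / 2 ^ X) i| ≤
      (4 * E2 K K₂ n E) ^ q2 K₂ n * (E2 K K₂ n E / 2 ^ X) := by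
  have do' := det_c hO hP.o_lt.1.le hP.o_lt.2.le how hw
  have da := det_c hO ha.lt.1.le ha.lt.2.le (w := w) (by have := ha.win; omega) hw
  have h0X : (0 : ℝ) < 2 ^ X := by positivity
  have h1X : (1 : ℝ) ≤ 2 ^ X := one_le_pow₀ (by norm_num)
  have hA1 := A₀_ge K
  have hW0 : (0 : ℝ) ≤ (4 * E) ^ q2 K₂ n := by positivity
  rw [xf_eq hP.co_ge ω₀ hω do']
  have hm := mp_xv hO hP.co_ge hw ω₀ (X := X) do' da hω
  obtain ⟨x, hx⟩ : ∃ x, x = xvp D π w X a (Vd D π q J w ω₀ X a (D.wn J w ω)).1 (tm D J w ω) :=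
    ⟨_, rfl⟩
  rw [← hx] at hm ⊢
  have hL := ls_a hA hE
  have hgb := gS_b hF.e1 hL
  have key : ∀ l, 1 ≤ l → l < n → |nat (gl D (π.p r)) (D.Φ (π.p r).1 (π.p r).2 ω) x l -
      zt D (π.p r).1 (π.p r).2 ω l| ≤ (4 * E) ^ q2 K₂ n * (1 / 2 ^ X) := by
    intro l l1 l2
    refine hm.nat_own hF hL hP.o_lt ha.lt rfl (fun l _ l2 => xv_u hO hw ω₀ hω ha hX hE3 l2)
      hb.lt (by positivity) ?_ (fun m m1 m2 => ?_) l1 l2
    · rw [div_le_one h0X]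
      exact h1X
    · have h1 := hgb m m1 m2
      have h2 : (2 : ℝ) ^ gl D (π.p r) m * 2 ^ X ≤ 2 ^ gl D a m := by
        rw [← pow_add]
        exact pow_le_pow_right₀ (by norm_num) (hdr m m1 m2)
      rw [mul_assoc, one_div, inv_mul_eq_div, le_div_iff₀ h0X]
      exact h2.trans h1
  obtain ⟨u₂, hu₂⟩ : ∃ u₂ : ℕ → ℝ, u₂ = fun l => if π.rk l ≤ r then
    nat (gl D (π.p r)) (D.Φ (π.p r).1 (π.p r).2 ω) x l else 0 := ⟨_, rfl⟩
  have hx2 : Mp D n π.o (π.p r) (fun l => π.rk l ≤ r) ω u₂ x := by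
    refine ⟨hm.x0, fun l l1 l2 hS => ?_, fun l l1 l2 hS => ?_⟩
    · have e : u₂ l = nat (gl D (π.p r)) (D.Φ (π.p r).1 (π.p r).2 ω) x l := by
        rw [hu₂]
        dsimp only
        rw [if_pos hS]
      rw [e]
      unfold nat
      field_simp
      ring
    · have e : u₂ l = 0 := by
        rw [hu₂]
        dsimp only
        rw [if_neg hS]
      have h1 := hm.out l l1 l2 (by omega)
      rw [if_neg (by omega)] at h1
      rw [e]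
      exact h1
  refine cmp_sh hO hP hw ω₀ hω hb how hX hE hE3 hF hx2 (fun l l1 l2 hS => ?_)
    (fun l l1 l2 hS => ?_) hy i
  · have e : u₂ l = nat (gl D (π.p r)) (D.Φ (π.p r).1 (π.p r).2 ω) x l := by
      rw [hu₂]
      dsimp only
      rw [if_pos hS]
    rw [e]
    have h1 := key l l1 l2
    have h2 := hz_near hO hw ω₀ hω hb l2.le
    have h3 := abs_add_le (nat (gl D (π.p r)) (D.Φ (π.p r).1 (π.p r).2 ω) x l -
      zt D (π.p r).1 (π.p r).2 ω l) (zt D (π.p r).1 (π.p r).2 ω l -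
        hz D q J w ω₀ (π.p r) (D.wn J w ω) l)
    rw [sub_add_sub_cancel] at h3
    refine h3.trans ((add_le_add h1 h2).trans ?_)
    rw [mul_one_div, ← add_div]
    refine div_le_div_of_nonneg_right ?_ h0X.le
    linarith
  · rw [hu₂]
    dsimp only
    rw [if_neg hS]

/-- The frozen point: natural coordinates at `o`. -/
theorem xv_o (hO : D.Ok2 n K J a₀ w₀ z M lam gam κ C₁ q) (hP : Plc D n z X c M π)
    (hA : Pln D n z X c M π a) (hw : w ≤ J) (ω₀ : D.Ω) (hω : 0 < q ω)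
    (ha : Wn D n w₀ w J z X M a ω) (how : w₀ + π.o.2 * z ≤ w) (hX : A₀ K ≤ 2 ^ X)
    (hE : (2 : ℝ) ^ (c * z) ≤ E) (hE3 : 3 ≤ E) (hF : Fr D n K₂ M E P ω) {l : ℕ} (l1 : 1 ≤ l)
    (l2 : l < n) :
    |nat (gl D π.o) (D.Φ π.o.1 π.o.2 ω) (xvp D π w X a (Vd D π q J w ω₀ X a (D.wn J w ω)).1
      (tm D J w ω)) l| ≤ (4 * E) ^ q2 K₂ n ∧
    |nat (gl D a) (D.Φ a.1 a.2 ω) (xvp D π w X a (Vd D π q J w ω₀ X a (D.wn J w ω)).1
      (tm D J w ω)) l| ≤ (4 * E) ^ q2 K₂ n := by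
  have do' := det_c hO hP.o_lt.1.le hP.o_lt.2.le how hw
  have da := det_c hO ha.lt.1.le ha.lt.2.le (w := w) (by have := ha.win; omega) hw
  have hm := mp_xv hO hP.co_ge hw ω₀ (X := X) do' da hω
  have hL := ls_a hA hE
  exact ⟨hm.nat_bd hF hL hP.o_lt ha.lt rfl (fun l _ l2 => xv_u hO hw ω₀ hω ha hX hE3 l2)
    hP.o_lt (gS_o hF.e1 hL) l1 l2, hm.nat_bd hF hL hP.o_lt ha.lt rfl
      (fun l _ l2 => xv_u hO hw ω₀ hω ha hX hE3 l2) ha.lt (gS_b hF.e1 hL) l1 l2⟩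

/-- The frozen point: the heights of the coordinates with rank at `a`. -/
theorem xv_a (hO : D.Ok2 n K J a₀ w₀ z M lam gam κ C₁ q) (hP : Plc D n z X c M π)
    (hw : w ≤ J) (ω₀ : D.Ω) (hω : 0 < q ω)
    (ha : Wn D n w₀ w J z X M a ω) (how : w₀ + π.o.2 * z ≤ w) {l : ℕ} (l1 : 1 ≤ l)
    (l2 : l < n) (hS : π.rk l < k) :
    |zt D a.1 a.2 ω l - nat (gl D a) (D.Φ a.1 a.2 ω) (xvp D π w X a
      (Vd D π q J w ω₀ X a (D.wn J w ω)).1 (tm D J w ω)) l| ≤ (A₀ K + 1) / 2 ^ X := by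
  have do' := det_c hO hP.o_lt.1.le hP.o_lt.2.le how hw
  have da := det_c hO ha.lt.1.le ha.lt.2.le (w := w) (by have := ha.win; omega) hw
  have hm := mp_xv hO hP.co_ge hw ω₀ (X := X) do' da hω
  have h1 := hm.inn l l1 l2 hS
  rw [if_pos hS] at h1
  have e : nat (gl D a) (D.Φ a.1 a.2 ω) (xvp D π w X a
      (Vd D π q J w ω₀ X a (D.wn J w ω)).1 (tm D J w ω)) l =
      (⌊(2 : ℝ) ^ X * hz D q J w ω₀ a (D.wn J w ω) l⌋ : ℝ) / 2 ^ X := by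
    unfold nat
    rw [h1, add_sub_cancel_left]
    unfold hn
    rw [if_pos hS]
    field_simp
  rw [e]
  have h2 := hz_near hO hw ω₀ hω ha l2.le
  have h3 := fl_near X (hz D q J w ω₀ a (D.wn J w ω) l)
  have h4 := abs_sub (zt D a.1 a.2 ω l - hz D q J w ω₀ a (D.wn J w ω) l)
    ((⌊(2 : ℝ) ^ X * hz D q J w ω₀ a (D.wn J w ω) l⌋ : ℝ) / 2 ^ X -
      hz D q J w ω₀ a (D.wn J w ω) l)
  rw [sub_sub_sub_cancel_right] at h4
  refine h4.trans ((add_le_add h2 h3).trans (le_of_eq ?_))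
  rw [← add_div]

/-- The height of the target at `a` is constant along the line. -/
theorem tg_line (hO : D.Ok2 n K J a₀ w₀ z M lam gam κ C₁ q) (hA : Pln D n z X c M π a)
    (hw : w ≤ J) (ω₀ : D.Ω) {ω ω' : D.Ω} (hω : 0 < q ω) (hω' : 0 < q ω')
    (e : D.wn J w ω = D.wn J w ω') (ha : Wn D n w₀ w J z (X + c * z) M a ω)
    (ha' : Wn D n w₀ w J z (X + c * z) M a ω') :
    |(D.X ω n - eval (D.X ω) (D.Φ a.1 a.2 ω n)) - (D.X ω' n - eval (D.X ω') (D.Φ a.1 a.2 ω' n))| *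
      2 ^ D.g π.o.1 π.o.2 n ≤ 2 * A₀ K / 2 ^ X := by
  have h1 := hz_near hO hw ω₀ hω ha (l := n) le_rfl
  have h2 := hz_near hO hw ω₀ hω' ha' (l := n) le_rfl
  rw [← e] at h2
  have h3 := abs_sub (zt D a.1 a.2 ω n - hz D q J w ω₀ a (D.wn J w ω) n)
    (zt D a.1 a.2 ω' n - hz D q J w ω₀ a (D.wn J w ω) n)
  rw [sub_sub_sub_cancel_right] at h3
  have h4 : zt D a.1 a.2 ω n - zt D a.1 a.2 ω' n = 2 ^ D.g a.1 a.2 n *
      ((D.X ω n - eval (D.X ω) (D.Φ a.1 a.2 ω n)) -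
        (D.X ω' n - eval (D.X ω') (D.Φ a.1 a.2 ω' n))) := by
    unfold zt nat
    ring
  have h0 : (0 : ℝ) < 2 ^ D.g a.1 a.2 n := by positivity
  rw [h4, abs_mul, abs_of_pos h0] at h3
  obtain ⟨v, hv⟩ : ∃ v, v = |(D.X ω n - eval (D.X ω) (D.Φ a.1 a.2 ω n)) -
    (D.X ω' n - eval (D.X ω') (D.Φ a.1 a.2 ω' n))| := ⟨_, rfl⟩
  have hv0 : 0 ≤ v := by
    rw [hv]
    exact abs_nonneg _
  rw [← hv] at h3 ⊢
  have h5 : (2 : ℝ) ^ D.g π.o.1 π.o.2 n ≤ 2 ^ (c * z) * 2 ^ D.g a.1 a.2 n := by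
    rw [← pow_add]
    refine pow_le_pow_right₀ (by norm_num) ?_
    have := hA.tgt.2
    unfold gl at this
    omega
  calc v * 2 ^ D.g π.o.1 π.o.2 n ≤ v * (2 ^ (c * z) * 2 ^ D.g a.1 a.2 n) :=
        mul_le_mul_of_nonneg_left h5 hv0
    _ = 2 ^ (c * z) * (2 ^ D.g a.1 a.2 n * v) := by ring
    _ ≤ 2 ^ (c * z) * (A₀ K / 2 ^ (X + c * z) + A₀ K / 2 ^ (X + c * z)) :=
        mul_le_mul_of_nonneg_left (h3.trans (add_le_add h1 h2)) (by positivity)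
    _ = 2 * A₀ K / 2 ^ X := by
        rw [pow_add]
        field_simp
        ring

end

end Pool.LSH
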