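import Pool.Agent.H12.LSH.Shf

/-!
# The sheets of a cell with wide coordinates: the theorem
-/

set_option autoImplicit false

namespace Pool.LSH

open Finset MvPolynomial
open Pool.Agent.H49.Ent Pool.Agent.H32.Dense Pool.STK Pool.STAT Pool.MIC Pool.MicA Pool.PTH
open Pool.FRM
open Pool.MIC.Frm (nat pt pt_eq)
open Pool.BFL (Pl Pb)
open Pool.GSD (Fra ch)
open Pool.VAS
open scoped Polynomial

theorem kle_inj {n k : ℕ} {π : Pls k} (h : Function.Injective π.co) (h1 : ∀ r, 1 ≤ π.co r)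
    (h2 : ∀ r, π.co r < n) : k ≤ n - 1 := by
  have h3 : Function.Injective fun r : Fin k => (⟨π.co r - 1, by
      have := h1 r
      have := h2 r
      omega⟩ : Fin (n - 1)) := by
    intro r r' e
    refine h ?_
    have e1 := congrArg Fin.val e
    have a1 := h1 r
    have a2 := h1 r'
    dsimp only at e1
    omega
  have h4 := Fintype.card_le_of_injective _ h3
  rwa [Fintype.card_fin, Fintype.card_fin] at h4

theorem hh_fl {k n m K : ℕ} (d : SDat k n m K) {c : ℝ} (hc : 0 ≤ c) {ω ω' : d.Om}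
    (hL : d.L ω = d.L ω') (hF : ∀ t, d.F t = 0) (hs : ∀ t, d.s t = 0)
    (h1 : d.N ω = ⌊(2 : ℝ) ^ d.X * ∑ i, d.q (d.L ω) i * d.th (d.T ω) ^ (i.val + 1)⌋)
    (h2 : d.N ω' = ⌊(2 : ℝ) ^ d.X * ∑ i, d.q (d.L ω') i * d.th (d.T ω') ^ (i.val + 1)⌋) :
    |((d.N ω' : ℝ) - d.N ω) - 2 ^ d.X * (d.hgt (d.L ω) (d.T ω') - d.hgt (d.L ω) (d.T ω))| ≤
      (2 : ℝ) ^ c := by
  rw [← hL] at h2
  unfold SDat.hgt
  rw [hF, hF, hs, hs, map_zero, map_zero, h1, h2]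
  obtain ⟨u, hu⟩ : ∃ u : ℝ, u = ∑ i, d.q (d.L ω) i * d.th (d.T ω) ^ (i.val + 1) := ⟨_, rfl⟩
  obtain ⟨v, hv⟩ : ∃ v : ℝ, v = ∑ i, d.q (d.L ω) i * d.th (d.T ω') ^ (i.val + 1) := ⟨_, rfl⟩
  rw [← hu, ← hv]
  have a1 := Int.floor_le ((2 : ℝ) ^ d.X * u)
  have a2 := Int.lt_floor_add_one ((2 : ℝ) ^ d.X * u)
  have a3 := Int.floor_le ((2 : ℝ) ^ d.X * v)
  have a4 := Int.lt_floor_add_one ((2 : ℝ) ^ d.X * v)
  have a5 : (1 : ℝ) ≤ 2 ^ c := Real.one_le_rpow (by norm_num) hc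
  rw [abs_le]
  constructor <;> linarith

/-- **The sheets of a cell, wide coordinates allowed.** -/
theorem shf_ok (n K : ℕ) (lam gam : ℕ → ℝ) (C₁ : ℝ) (hn : 1 ≤ n) (hC₁ : 1 ≤ C₁) :
    ∃ N : ℕ, ∀ c K' : ℕ, ∃ C : ℝ, 0 ≤ C ∧ ∀ (M : ℕ) (η : ℝ), 2 ≤ M → 0 < η →
    ∃ (κ : ℝ) (z₀ : ℕ), 0 < κ ∧
    ∀ (J a₀ w₀ z X k : ℕ) (D : NDat2) (q : D.Ω → ℝ) (π : Pls k) (a : ℕ × ℕ) (ω₀ : D.Ω),
      z₀ ≤ z → z ≤ X → Plc D n z X c M π → Pln D n z X c M π a →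
      (∀ r l, 1 ≤ l → l < n → gl D (π.p r) l + X ≤ gl D a l) →
      (∀ l, 1 ≤ l → l < n → ¬ π.rk l < k → gl D a l ≤ gl D π.o l) →
      D.Ok2 n K J a₀ w₀ z M lam gam κ C₁ q → D.TmU J w₀ z κ q →
      ∃ G : Set D.Ω, Pb q (fun ω => ω ∉ G) ≤ η ∧
        ShF D π q J (w₀ + π.o.2 * z) ω₀ n X N K' a (C * z) G := by
  classical
  obtain ⟨K', C₀, hKK, hC₀, hfr⟩ := Pool.GSD.frm_ev n K lam gam C₁ hC₁
  obtain ⟨C₂, hC₂, hframe⟩ := frame_of n K' C₀ hC₀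
  obtain ⟨AR, hAR, hrow⟩ := P2.row ((K + 1) ^ (n + 1))
  obtain ⟨K₂, hK₂⟩ : ∃ K₂, K₂ = K' * (K' + 1) ^ n := ⟨_, rfl⟩
  have hA1 := A₀_ge K
  refine ⟨(K + 1) ^ (n + 1), fun c Kp => ?_⟩
  -- numbers
  obtain ⟨E, hE⟩ : ∃ E : ℕ → ℝ, E = fun z : ℕ => Real.exp ((C₂ + c + 3) * z) := ⟨_, rfl⟩
  have xE : Xb E := by
    rw [hE]
    exact Xb.exp (by positivity)
  have xz : Xb fun z => (2 : ℝ) ^ z := by
    refine ⟨1, zero_le_one, fun z _ => ⟨by positivity, ?_⟩⟩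
    have : (2 : ℝ) ≤ Real.exp 1 := by linarith [Real.exp_one_gt_d9]
    calc (2 : ℝ) ^ z ≤ Real.exp 1 ^ z := pow_le_pow_left₀ (by norm_num) this z
      _ = Real.exp (1 * z) := by rw [← Real.exp_nat_mul, mul_comm]
  have xW : Xb fun z => (4 * E z) ^ q2 K₂ n := ((Xb.const (by norm_num)).mul xE).pow _
  have xE2 : Xb fun z => E2 K K₂ n (E z) := by
    unfold E2
    exact ((xW.add (Xb.const (by linarith))).add (Xb.const (by norm_num))).add xE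
  have xW2 : Xb fun z => (4 * E2 K K₂ n (E z)) ^ q2 K₂ n :=
    ((Xb.const (by norm_num)).mul xE2).pow _
  obtain ⟨c1, hc1, h1⟩ := xW.rp
  obtain ⟨c2, hc2, h2'⟩ := (((Xb.const (by linarith : (0 : ℝ) ≤ AR)).mul xW).mul xz).rp
  obtain ⟨c3, hc3, h3⟩ := ((xW.mul (xE.add (Xb.const zero_le_one))).mul xz).rp
  obtain ⟨c4, hc4, h4⟩ := (xW2.mul xE2).rp
  obtain ⟨c5, hc5, h5⟩ := (Xb.const (by linarith : (0 : ℝ) ≤ 2 * A₀ K + 1)).rp
  obtain ⟨Cc, hCc⟩ : ∃ Cc : ℝ, Cc = c1 + c2 + c3 + c4 + c5 := ⟨_, rfl⟩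
  refine ⟨Cc, by rw [hCc]; positivity, fun M η hM hη => ?_⟩
  -- probabilities
  obtain ⟨m, hm⟩ : ∃ m : ℕ, m = n - 1 := ⟨_, rfl⟩
  obtain ⟨T, hT⟩ : ∃ T : ℝ, T = (m + 2) + (m * (m * (((K + 1) ^ (n + 1) : ℕ) + 1)) + 1) *
    (m + 3) := ⟨_, rfl⟩
  have hT0 : 0 < T := by
    rw [hT]
    positivity
  obtain ⟨η₁, hη₁⟩ : ∃ η₁ : ℝ, η₁ = η / T := ⟨_, rfl⟩
  have hη1 : 0 < η₁ := by
    rw [hη₁]
    positivity
  obtain ⟨κa, za, hκa, hFr⟩ := hfr M η₁ hM hη1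
  obtain ⟨κb, zb, hκb, hLE⟩ := le_ev n K η₁ hη1
  obtain ⟨κc, zc, hκc, hRm⟩ := rem_smp ((K + 1) ^ (n + 1) + 1) (by omega) η₁ hη1
  refine ⟨min κa (min κb κc), za + zb + zc + ⌈A₀ K⌉₊ + 1,
    lt_min hκa (lt_min hκb hκc), ?_⟩
  intro J a₀ w₀ z X k D q π a ω₀ hz0 hzX hP hA hdr hnr hO hU
  have hz1 : 1 ≤ z := by omega
  have hXA : A₀ K ≤ 2 ^ X := A₀_pow (by omega)
  have hq := hO.isLaw
  have hkm : k ≤ m := by
    rw [hm]
    exact kle_inj hP.inj hP.co_ge hP.co_lt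
  have hkr : (k : ℝ) ≤ m := by exact_mod_cast hkm
  have hUb : D.TmU J w₀ z κb q := TmU_mono hU ((min_le_right _ _).trans (min_le_left _ _))
  have hUc : D.TmU J w₀ z κc q := TmU_mono hU ((min_le_right _ _).trans (min_le_right _ _))
  obtain ⟨w, hw⟩ : ∃ w, w = w₀ + π.o.2 * z := ⟨_, rfl⟩
  have hwz : w + z ≤ J := by
    have e1 := hO.top
    have e2 := hO.thin
    have e3 : π.o.2 * z ≤ M * z := Nat.mul_le_mul_right z hP.o_lt.2.le
    have e4 : (M + 1) * z = M * z + z := by ring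
    omega
  have hwJ : w ≤ J := by omega
  have how : w₀ + π.o.2 * z ≤ w := hw.ge
  have do' : Det q (D.wn J w) (D.c π.o.1 π.o.2) := det_c hO hP.o_lt.1.le hP.o_lt.2.le how hwJ
  -- the constants at z
  have hE1 : (2 : ℝ) ^ (c * z) ≤ E z := by
    have : (2 : ℝ) ≤ Real.exp 1 := by linarith [Real.exp_one_gt_d9]
    calc (2 : ℝ) ^ (c * z) ≤ Real.exp 1 ^ (c * z) := pow_le_pow_left₀ (by norm_num) this _
      _ = Real.exp (c * z) := by
          rw [← Real.exp_nat_mul, mul_one]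
          push_cast
          rfl
      _ ≤ E z := by
          rw [hE]
          refine Real.exp_le_exp.2 (mul_le_mul_of_nonneg_right ?_ (Nat.cast_nonneg z))
          linarith
  have hE2 : 3 ≤ E z := by
    have e1 := Pool.GSD.six_le hz1
    have e2 : (1 : ℝ) ≤ 2 ^ z := one_le_pow₀ (by norm_num)
    have e3 : Real.exp (3 * z) ≤ E z := by
      rw [hE]
      refine Real.exp_le_exp.2 (mul_le_mul_of_nonneg_right ?_ (Nat.cast_nonneg z))
      have : (0 : ℝ) ≤ c := Nat.cast_nonneg c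
      linarith
    linarith
  have hE3 : Real.exp (C₂ * z) ≤ E z := by
    rw [hE]
    refine Real.exp_le_exp.2 (mul_le_mul_of_nonneg_right ?_ (Nat.cast_nonneg z))
    have : (0 : ℝ) ≤ c := Nat.cast_nonneg c
    linarith
  -- the places
  have hp2 : ∀ r, (π.p r).2 < M := by
    intro r
    by_contra hcon
    have e1 := hP.win r
    have e2 : π.o.2 * z ≤ (π.p r).2 * z :=
      Nat.mul_le_mul_right z (hP.o_lt.2.le.trans (not_lt.1 hcon))
    omega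
  have ha2 : a.2 < M := by
    by_contra hcon
    have e1 := hA.win
    have e2 : π.o.2 * z ≤ a.2 * z :=
      Nat.mul_le_mul_right z (hP.o_lt.2.le.trans (not_lt.1 hcon))
    omega
  -- the good event
  obtain ⟨E₀, hE₀⟩ : ∃ E₀ : D.Ω → Prop, E₀ = fun ω => Fra D n K' M z C₀ ω ∧
    (∀ r, LE D J (w₀ + (π.p r).2 * z) z n (π.p r) ω) ∧ LE D J (w₀ + a.2 * z) z n a ω := ⟨_, rfl⟩
  have hPE₀ : Pb q (fun ω => ¬ E₀ ω) ≤ (m + 2) * η₁ := by
    have e1 : Pb q (fun ω => ¬ E₀ ω) ≤ Pb q (fun ω => ¬ Fra D n K' M z C₀ ω ∨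
        ((∃ r ∈ (univ : Finset (Fin k)), ¬ LE D J (w₀ + (π.p r).2 * z) z n (π.p r) ω) ∨
          ¬ LE D J (w₀ + a.2 * z) z n a ω)) := by
      refine Pool.MIC.Pb_mono_ae hq.nonneg fun ω _ hb => ?_
      by_contra hcon
      push Not at hcon
      refine hb ?_
      rw [hE₀]
      exact ⟨hcon.1, fun r => hcon.2.1 r (Finset.mem_univ r), hcon.2.2⟩
    have e2 := Pb_or' hq.nonneg (fun ω => ¬ Fra D n K' M z C₀ ω) (fun ω =>
      (∃ r ∈ (univ : Finset (Fin k)), ¬ LE D J (w₀ + (π.p r).2 * z) z n (π.p r) ω) ∨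
          ¬ LE D J (w₀ + a.2 * z) z n a ω)
    have e3 := Pb_or' hq.nonneg (fun ω =>
      ∃ r ∈ (univ : Finset (Fin k)), ¬ LE D J (w₀ + (π.p r).2 * z) z n (π.p r) ω)
        (fun ω => ¬ LE D J (w₀ + a.2 * z) z n a ω)
    have e4 := Pool.MIC7.Pb_un hq.nonneg (univ : Finset (Fin k))
      (fun r ω => ¬ LE D J (w₀ + (π.p r).2 * z) z n (π.p r) ω)
    have e5 : ∑ r : Fin k, Pb q (fun ω => ¬ LE D J (w₀ + (π.p r).2 * z) z n (π.p r) ω) ≤
        m * η₁ := by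
      refine (Finset.sum_le_sum (g := fun _ => η₁) fun r _ => hLE J a₀ w₀ z M lam gam _ C₁ D q
        (by omega) hO hUb (π.p r) (hP.p_lt r).le (hp2 r).le).trans ?_
      rw [Finset.sum_const, Finset.card_univ, Fintype.card_fin, nsmul_eq_mul]
      exact mul_le_mul_of_nonneg_right hkr hη1.le
    have e6 := hFr J a₀ w₀ z _ D q (by omega) (min_le_left _ _) hO
    have e7 := hLE J a₀ w₀ z M lam gam _ C₁ D q (by omega) hO hUb a hA.a_lt.le ha2.le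
    linarith
  have hpack : ∀ ω, 0 < q ω → E₀ ω → (∃ P, Fr D n K₂ M (E z) P ω) ∧
      (∀ r, Wn D n w₀ w J z X M (π.p r) ω) ∧ Wn D n w₀ w J z (X + c * z) M a ω := by
    intro ω hω hE
    rw [hE₀] at hE
    refine ⟨?_, fun r => ⟨⟨hP.p_lt r, hp2 r⟩, ?_, hE.2.1 r⟩, ⟨⟨hA.a_lt, ha2⟩, ?_, hE.2.2⟩⟩
    · rw [hK₂]
      exact hframe K J a₀ w₀ z M lam gam _ C₁ D q hKK hz1 hO ω (E z) hω hE.1 hE3
    · have := hP.win r
      omega
    · have := hA.win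
      omega
  -- the coefficients of the sheets
  obtain ⟨Rs, hRs⟩ : ∃ Rs : Fin k × Fin k × Fin ((K + 1) ^ (n + 1) + 1) → D.Ω → ℝ[X],
    Rs = fun t ω => rp1 fun m => cf2 ((K + 1) ^ (n + 1)) (fun th y => shf D π w X t.1
      (Zd D π q J w ω₀ X t.1 (D.wn J w ω)) th y t.2.1) m t.2.2 := ⟨_, rfl⟩
  obtain ⟨Bs, hBs⟩ : ∃ Bs : ℝ, Bs = AR * (4 * E z) ^ q2 K₂ n := ⟨_, rfl⟩
  have hE0 : 0 < E z := by linarith
  have hW0 : 0 < (4 * E z) ^ q2 K₂ n := by positivity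
  have hs : ∀ t, Pb q (fun ω => ¬ ∀ m, |(Rs t ω).coeff m| ≤ Bs * 2 ^ z) ≤ (m + 3) * η₁ := by
    intro t
    have key := hRm J w₀ w z D q (by omega) (by omega) hwz hq hO.T_lt hO.ln_w hUc E₀ (Rs t) Bs
      (by rw [hBs]; positivity) (fun ω ω' _ _ e => by rw [hRs]; dsimp only; rw [e])
      (fun ω _ => by rw [hRs]; exact rp1_deg _) (fun ω hω hE => ?_)
    · refine key.trans ((add_le_add hPE₀ le_rfl).trans (le_of_eq ?_))
      ring
    · obtain ⟨⟨P, hF⟩, hWp, -⟩ := hpack ω hω hE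
      rw [hRs, rp1_eval, hBs]
      refine hrow (cf2 ((K + 1) ^ (n + 1)) fun th y => shf D π w X t.1
        (Zd D π q J w ω₀ X t.1 (D.wn J w ω)) th y t.2.1) (tm D J w ω) ((4 * E z) ^ q2 K₂ n) hW0
        (fun y hy => ?_) t.2.2
      rw [cf2_spec (shf_P2 hO.P_tri hO.P_deg hP.co_ge hP.co_lt w X t.1 _ t.2.1)]
      exact shf_bd hO hP hwJ ω₀ hω (hWp t.1) how hXA hE1 hE2 rfl hF hy t.2.1
  -- the coefficients of the motion of the target
  obtain ⟨Rt, hRt⟩ : ∃ Rt : D.Ω → ℝ[X], Rt = fun ω => rp1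
    (cf1 ((K + 1) ^ (n + 1)) (dnf D π n w X a (Vd D π q J w ω₀ X a (D.wn J w ω)).1)) := ⟨_, rfl⟩
  obtain ⟨Bt, hBt⟩ : ∃ Bt : ℝ, Bt = (4 * E z) ^ q2 K₂ n * (E z + 1) := ⟨_, rfl⟩
  have ht : Pb q (fun ω => ¬ ∀ m, |(Rt ω).coeff m| ≤ Bt * 2 ^ z) ≤ (m + 3) * η₁ := by
    have key := hRm J w₀ w z D q (by omega) (by omega) hwz hq hO.T_lt hO.ln_w hUc E₀ Rt Bt
      (by rw [hBt]; positivity) (fun ω ω' _ _ e => by rw [hRt]; dsimp only; rw [e])
      (fun ω _ => by rw [hRt]; exact rp1_deg _) (fun ω hω hE => ?_)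
    · refine key.trans ((add_le_add hPE₀ le_rfl).trans (le_of_eq ?_))
      ring
    · obtain ⟨⟨P, hF⟩, -, hWa⟩ := hpack ω hω hE
      rw [hRt, rp1_eval, hBt, cf1_spec (dnf_P2 hO.P_tri hO.P_deg w X a _)]
      exact dnf_bd hO hn hP hA hwJ ω₀ hω hWa.le_X how hXA hE1 hE2 hF
  -- the event
  refine ⟨{ω | E₀ ω ∧ (∀ t m, |(Rs t ω).coeff m| ≤ Bs * 2 ^ z) ∧
    ∀ m, |(Rt ω).coeff m| ≤ Bt * 2 ^ z}, ?_, ?_⟩
  · have e1 : Pb q (fun ω => ω ∉ {ω | E₀ ω ∧ (∀ t m, |(Rs t ω).coeff m| ≤ Bs * 2 ^ z) ∧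
        ∀ m, |(Rt ω).coeff m| ≤ Bt * 2 ^ z}) ≤ Pb q (fun ω => ¬ E₀ ω ∨
        ((∃ t ∈ (univ : Finset (Fin k × Fin k × Fin ((K + 1) ^ (n + 1) + 1))),
          ¬ ∀ m, |(Rs t ω).coeff m| ≤ Bs * 2 ^ z) ∨
          ¬ ∀ m, |(Rt ω).coeff m| ≤ Bt * 2 ^ z)) := by
      refine Pool.MIC.Pb_mono_ae hq.nonneg fun ω _ hb => ?_
      by_contra hcon
      push Not at hcon
      exact hb ⟨hcon.1, fun t => hcon.2.1 t (Finset.mem_univ t), hcon.2.2⟩
    have e2 := Pb_or' hq.nonneg (fun ω => ¬ E₀ ω) (fun ω =>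
      (∃ t ∈ (univ : Finset (Fin k × Fin k × Fin ((K + 1) ^ (n + 1) + 1))),
          ¬ ∀ m, |(Rs t ω).coeff m| ≤ Bs * 2 ^ z) ∨ ¬ ∀ m, |(Rt ω).coeff m| ≤ Bt * 2 ^ z)
    have e3 := Pb_or' hq.nonneg (fun ω =>
      ∃ t ∈ (univ : Finset (Fin k × Fin k × Fin ((K + 1) ^ (n + 1) + 1))),
          ¬ ∀ m, |(Rs t ω).coeff m| ≤ Bs * 2 ^ z) (fun ω =>
            ¬ ∀ m, |(Rt ω).coeff m| ≤ Bt * 2 ^ z)
    have e4 := Pool.MIC7.Pb_un hq.nonneg
      (univ : Finset (Fin k × Fin k × Fin ((K + 1) ^ (n + 1) + 1)))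
      (fun t ω => ¬ ∀ m, |(Rs t ω).coeff m| ≤ Bs * 2 ^ z)
    have e5 : ∑ t : Fin k × Fin k × Fin ((K + 1) ^ (n + 1) + 1),
        Pb q (fun ω => ¬ ∀ m, |(Rs t ω).coeff m| ≤ Bs * 2 ^ z) ≤
        (m * (m * (((K + 1) ^ (n + 1) : ℕ) + 1))) * ((m + 3) * η₁) := by
      refine (Finset.sum_le_sum (g := fun _ => (m + 3) * η₁) fun t _ => hs t).trans ?_
      rw [Finset.sum_const, Finset.card_univ, Fintype.card_prod, Fintype.card_prod,
        Fintype.card_fin, Fintype.card_fin, nsmul_eq_mul]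
      refine mul_le_mul_of_nonneg_right ?_ (by positivity)
      have e6 : k * (k * ((K + 1) ^ (n + 1) + 1)) ≤ m * (m * ((K + 1) ^ (n + 1) + 1)) :=
        Nat.mul_le_mul hkm (Nat.mul_le_mul_right _ hkm)
      exact_mod_cast e6
    have e6 : T * η₁ = η := by
      rw [hη₁]
      field_simp
    have e7 : T * η₁ = (m + 2) * η₁ + ((m * (m * (((K + 1) ^ (n + 1) : ℕ) + 1))) *
        ((m + 3) * η₁) + (m + 3) * η₁) := by
      rw [hT]
      ring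
    linarith
  · -- the fields
    have h2 : ∀ x : ℝ, ∀ c', 0 ≤ c' → c' ≤ Cc → x ≤ (2 : ℝ) ^ (c' * z : ℝ) →
        x ≤ (2 : ℝ) ^ (Cc * z : ℝ) := by
      intro x c' _ h0 h1
      refine h1.trans (Real.rpow_le_rpow_of_exponent_le (by norm_num) ?_)
      exact mul_le_mul_of_nonneg_right h0 (Nat.cast_nonneg z)
    have g1 : c1 ≤ Cc := by rw [hCc]; linarith
    have g2 : c2 ≤ Cc := by rw [hCc]; linarith
    have g3 : c3 ≤ Cc := by rw [hCc]; linarith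
    have g4 : c4 ≤ Cc := by rw [hCc]; linarith
    have g5 : c5 ≤ Cc := by rw [hCc]; linarith
    have hCc0 : 0 ≤ Cc := hc1.trans g1
    have one_le : (1 : ℝ) ≤ (2 : ℝ) ^ (Cc * z : ℝ) :=
      Real.one_le_rpow (by norm_num) (by positivity)
    have hyd : ∀ ω, 0 < q ω → E₀ ω → ∀ r,
        |(yr D π q J w ω₀ X (D.wn J w ω) r : ℝ) / 2 ^ X| ≤ 1 := by
      intro ω hω hE r
      exact yr_le hO hP hwJ ω₀ hω ((hpack ω hω hE).2.1 r) hXA hz1
    have h0X : (0 : ℝ) < 2 ^ X := by positivity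
    have hsub : ∀ x : ℝ, x ≤ (2 : ℝ) ^ (Cc * z : ℝ) → x / 2 ^ X ≤
        (2 : ℝ) ^ ((Cc * z : ℝ) - (X : ℝ)) := by
      intro x hx
      rw [Real.rpow_sub (by norm_num), Real.rpow_natCast]
      exact div_le_div_of_nonneg_right hx h0X.le
    rw [← hw]
    refine ⟨⟨hq, fun τ => ⟨?_, ?_⟩, fun τ => ?_, fun τ α => ?_, ?_, ?_, ?_, ?_,
      fun ω _ j => yd_all D π q J w ω₀ X (D.wn J w ω) j,
      ?_, ?_, ?_, ?_, ?_, ?_, ?_⟩, ?_, ?_, ?_, ?_⟩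
    · -- hth
      change (0 : ℝ) ≤ ((τ.2 % 2 ^ (J - w) : ℕ) : ℝ) / 2 ^ (J - w)
      positivity
    · change ((τ.2 % 2 ^ (J - w) : ℕ) : ℝ) / 2 ^ (J - w) < 1
      rw [div_lt_one (by positivity)]
      have : τ.2 % 2 ^ (J - w) < 2 ^ (J - w) := Nat.mod_lt _ (by positivity)
      exact_mod_cast this
    · -- hF
      change (0 : MvPolynomial (Fin k) ℝ).totalDegree ≤ Kp
      rw [totalDegree_zero]
      exact Nat.zero_le _
    · change |coeff α (0 : MvPolynomial (Fin k) ℝ)| ≤ _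
      rw [coeff_zero, abs_zero]
      positivity
    · -- hN
      intro ω ω' h h' e
      have e1 : D.wn J w ω = D.wn J w ω' := (Prod.ext_iff.1 e).1
      have e2 : (D.c π.o.1 π.o.2 ω, thr D J w ω) = (D.c π.o.1 π.o.2 ω', thr D J w ω') :=
        (Prod.ext_iff.1 e).2
      have e3 : thr D J w ω = thr D J w ω' := (Prod.ext_iff.1 e2).2
      change ⌊(2 : ℝ) ^ X * ∑ i, qd D π n w X ((K + 1) ^ (n + 1)) a
        (Vd D π q J w ω₀ X a (D.wn J w ω)) i * thq J w (thr D J w ω) ^ (i.val + 1)⌋ = 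
          ⌊(2 : ℝ) ^ X * ∑ i, qd D π n w X ((K + 1) ^ (n + 1)) a
        (Vd D π q J w ω₀ X a (D.wn J w ω')) i * thq J w (thr D J w ω') ^ (i.val + 1)⌋
      rw [e1, e3]
    · -- hV
      intro ω ω' _ _ e
      have e' : Vd D π q J w ω₀ X a (D.wn J w ω) = Vd D π q J w ω₀ X a (D.wn J w ω') := e
      have h1 : yd D π q J w ω₀ X (D.wn J w ω) = yd D π q J w ω₀ X (D.wn J w ω') :=
        congrArg (fun V : VdT D k => V.2.2) e'
      have h2 : qd D π n w X ((K + 1) ^ (n + 1)) a (Vd D π q J w ω₀ X a (D.wn J w ω)) =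
        qd D π n w X ((K + 1) ^ (n + 1)) a (Vd D π q J w ω₀ X a (D.wn J w ω')) := congrArg _ e'
      have h3 : (fun r => Zd D π q J w ω₀ X r (D.wn J w ω)) =
        fun r => Zd D π q J w ω₀ X r (D.wn J w ω') :=
        congrArg (fun V : VdT D k => V.2.1) e'
      exact Prod.ext h1 (Prod.ext h2 h3)
    · -- hZB
      intro j ω ω' _ _ e
      have e' : Zd D π q J w ω₀ X j (D.wn J w ω) = Zd D π q J w ω₀ X j (D.wn J w ω') := e
      exact congrArg Prod.fst e'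
    · -- hTB
      intro ω ω' h h' e
      have e1 : D.c π.o.1 π.o.2 ω = D.c π.o.1 π.o.2 ω' := congrArg Prod.fst e
      have c1 : cl D q J w ω₀ π.o (D.wn J w ω) = D.c π.o.1 π.o.2 ω := cl_eq ω₀ do' h
      have c2 : cl D q J w ω₀ π.o (D.wn J w ω') = D.c π.o.1 π.o.2 ω' := cl_eq ω₀ do' h'
      change cl D q J w ω₀ π.o (D.wn J w ω) = cl D q J w ω₀ π.o (D.wn J w ω')
      rw [c1, c2, e1]
    · -- tri
      intro ω _ _ j i t y hji
      exact (cf2_spec (shf_P2 hO.P_tri hO.P_deg hP.co_ge hP.co_lt w X j _ i) t y).trans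
        (shf_tri hO.P_tri hP.inj hP.co_ge w X hji _ t y)
    · -- dia
      intro ω _ _ j t y
      exact (cf2_spec (shf_P2 hO.P_tri hO.P_deg hP.co_ge hP.co_lt w X j _ j) t y).trans
        ((shf_dia hO.P_tri hP.inj hP.co_ge w X j _ t y).trans
          (congrArg (fun v => y + v)
            (cf2_spec (shf_P2 hO.P_tri hO.P_deg hP.co_ge hP.co_lt w X j _ j) t 0).symm))
    · -- hq
      intro ω hG hω i
      have e1 := hG.2.2 (i.succ : Fin ((K + 1) ^ (n + 1) + 1))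
      rw [hRt, rp1_coeff] at e1
      refine (le_trans e1 ?_).trans (h2 _ c3 hc3 g3 (h3 z hz1))
      rw [hBt]
    · -- hx
      intro ω hG hω i
      obtain ⟨⟨P, hF⟩, -, hWa⟩ := hpack ω hω hG.1
      have e1 : VAS.xf D π q J w ω₀ X a (D.wn J w ω) (thq J w (thr D J w ω)) i =
          nat (gl D π.o) (D.Φ π.o.1 π.o.2 ω)
            (xvp D π w X a (Vd D π q J w ω₀ X a (D.wn J w ω)).1 (tm D J w ω)) (π.co i) := by
        rw [thq_eq (D := D) J w ω, xf_eq (q := q) hP.co_ge ω₀ hω do']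
      refine (le_of_eq (congrArg abs e1)).trans ?_
      exact (xv_o hO hP hA hwJ ω₀ hω hWa.le_X how hXA hE1 hE2 hF (hP.co_ge i)
        (hP.co_lt i)).1.trans (h2 _ c1 hc1 g1 (h1 z hz1))
    · -- hs
      intro ω hG hω j i m b
      have e1 := hG.2.1 (j, i, b) (m : ℕ)
      rw [hRs, rp1_coeff] at e1
      refine (le_trans e1 ?_).trans (h2 _ c2 hc2 g2 (h2' z hz1))
      rw [hBs]
    · -- cc
      intro ω hG hω j i hij
      obtain ⟨⟨P, hF⟩, hWp, hWa⟩ := hpack ω hω hG.1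
      have e1 : (4 * E2 K K₂ n (E z)) ^ q2 K₂ n * (E2 K K₂ n (E z) / 2 ^ X) ≤
          (2 : ℝ) ^ ((Cc * z : ℝ) - (X : ℝ)) := by
        rw [← mul_div_assoc]
        exact hsub _ (h2 _ c4 hc4 g4 (h4 z hz1))
      refine le_trans ?_ e1
      have e0 : ∀ (j : Fin k) (ζ : ZeT D k) (t y : ℝ) (i : Fin k),
          (∑ a, ∑ b, cf2 ((K + 1) ^ (n + 1)) (fun t y => shf D π w X j ζ t y i) a b *
            t ^ a.val * y ^ b.val) = shf D π w X j ζ t y i := fun j ζ t y i =>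
        cf2_spec (shf_P2 hO.P_tri hO.P_deg hP.co_ge hP.co_lt w X j ζ i) t y
      have e2 := thq_eq (D := D) J w ω
      unfold SDat.up
      by_cases hj : j.val + 1 < k
      · rw [dif_pos hj]
        have key := cc_frz (r := j) (r' := ⟨j.val + 1, hj⟩) hO hP hwJ ω₀ hω rfl (hWp j) (hWp _)
          how hXA hE1 hE2 hF (hyd ω hω hG.1 j) i
        refine le_trans (le_of_eq ?_) key
        rw [← e2, ← e0, ← e0, ← e0]
        rfl
      · rw [dif_neg hj]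
        have hjk : (j : ℕ) + 1 = k := by
          have := j.2
          omega
        have key := cc_wide hO hP hA hwJ ω₀ hω hjk (fun l l1 l2 => hdr j l l1 l2) (hWp j)
          hWa.le_X how hXA hE1 hE2 hF (hyd ω hω hG.1 j) i
        refine le_trans (le_of_eq ?_) key
        rw [← e2, ← e0]
        rfl
    · -- hh
      intro ω hG ω' hG' hω hω' hL
      exact hh_fl _ (by positivity) hL (fun _ => rfl) (fun _ => rfl) rfl rfl
    · -- tgt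
      intro ω hG ω' hG' hω hω' e
      obtain ⟨-, -, hWa⟩ := hpack ω hω hG.1
      obtain ⟨-, -, hWa'⟩ := hpack ω' hω' hG'.1
      refine (tg_line hO hA hwJ ω₀ hω hω' e hWa hWa').trans (hsub _ ?_)
      refine le_trans ?_ (h2 _ c5 hc5 g5 (h5 z hz1))
      linarith
    · -- mot
      intro ω hG hω t
      have e1 := cf1_spec (dnf_P2 (n := n) (π := π) hO.P_tri hO.P_deg w X a
        (Vd D π q J w ω₀ X a (D.wn J w ω)).1) t
      have e2 := cf1_spec (dnf_P2 (n := n) (π := π) hO.P_tri hO.P_deg w X a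
        (Vd D π q J w ω₀ X a (D.wn J w ω)).1) 0
      rw [Fin.sum_univ_succ, Fin.val_zero, pow_zero, mul_one] at e1 e2
      have e3 : ∑ i : Fin ((K + 1) ^ (n + 1)), cf1 ((K + 1) ^ (n + 1)) (dnf D π n w X a
          (Vd D π q J w ω₀ X a (D.wn J w ω)).1) i.succ * (0 : ℝ) ^ (i.succ : Fin _).val = 0 := by
        refine Finset.sum_eq_zero fun i _ => ?_
        rw [Fin.val_succ, zero_pow (Nat.succ_ne_zero _), mul_zero]
      rw [e3, add_zero] at e2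
      rw [← e1, ← e2, add_sub_cancel_left]
      rfl
    · -- box
      intro ω hG hω
      obtain ⟨⟨P, hF⟩, -, hWa⟩ := hpack ω hω hG.1
      have hxv : xvs D π q J w ω₀ X a ω =
          xvp D π w X a (Vd D π q J w ω₀ X a (D.wn J w ω)).1 (tm D J w ω) := by
        unfold xvs
        rw [thq_eq]
      have hdiv : ∀ (g : ℕ → ℕ) (Φ : ℕ → PN) (x : ℕ → ℝ) (l : ℕ) (B : ℝ), |nat g Φ x l| ≤ B →
          B ≤ (2 : ℝ) ^ (Cc * z : ℝ) → |x l - eval x (Φ l)| ≤ (2 : ℝ) ^ (Cc * z : ℝ) / 2 ^ g l := by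
        intro g Φ x l B h h'
        unfold nat at h
        have h0 : (0 : ℝ) < 2 ^ g l := by positivity
        rw [abs_mul, abs_of_pos h0] at h
        rw [le_div_iff₀ h0]
        linarith
      refine ⟨⟨rfl, fun l l1 l2 => hdiv _ (D.Φ π.o.1 π.o.2 ω) _ l 1
        (zt_le1 hO hP.o_lt.1.le hP.o_lt.2.le hω l2.le) one_le, fun l l1 l2 _ =>
          hdiv _ (D.Φ a.1 a.2 ω) _ l 1 (zt_le1 hO hA.a_lt.le ha2.le hω l2.le) one_le⟩,
            ⟨?_, fun l l1 l2 => ?_, fun l l1 l2 _ => ?_⟩⟩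
      · rw [hxv]
        have da := det_c hO hA.a_lt.le ha2.le (w := w) (by have := hA.win; omega) hwJ
        exact (mp_xv hO hP.co_ge hwJ ω₀ (X := X) do' da hω).x0
      · rw [hxv]
        exact hdiv _ (D.Φ π.o.1 π.o.2 ω) _ l _ (xv_o hO hP hA hwJ ω₀ hω hWa.le_X how hXA hE1 hE2
          hF l1 l2).1 (h2 _ c1 hc1 g1 (h1 z hz1))
      · rw [hxv]
        exact hdiv _ (D.Φ a.1 a.2 ω) _ l _ (xv_o hO hP hA hwJ ω₀ hω hWa.le_X how hXA hE1 hE2
          hF l1 l2).2 (h2 _ c1 hc1 g1 (h1 z hz1))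
    · -- hts
      intro ω hG hω l l1 l2 hnl
      obtain ⟨⟨P, hF⟩, -, hWa⟩ := hpack ω hω hG.1
      have hxv : xvs D π q J w ω₀ X a ω =
          xvp D π w X a (Vd D π q J w ω₀ X a (D.wn J w ω)).1 (tm D J w ω) := by
        unfold xvs
        rw [thq_eq]
      have hS : π.rk l < k := by
        by_contra hcon
        have := hnr l l1 l2 hcon
        unfold gl at this
        omega
      rw [hxv]
      have key := xv_a hO hP hwJ ω₀ hω hWa.le_X how l1 l2 hS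
      have e1 : zt D a.1 a.2 ω l - nat (gl D a) (D.Φ a.1 a.2 ω) (xvp D π w X a
          (Vd D π q J w ω₀ X a (D.wn J w ω)).1 (tm D J w ω)) l = 2 ^ D.g a.1 a.2 l *
          ((D.X ω l - eval (D.X ω) (D.Φ a.1 a.2 ω l)) - (xvp D π w X a
          (Vd D π q J w ω₀ X a (D.wn J w ω)).1 (tm D J w ω) l - eval (xvp D π w X a
          (Vd D π q J w ω₀ X a (D.wn J w ω)).1 (tm D J w ω)) (D.Φ a.1 a.2 ω l))) := by
        unfold zt nat gl
        ring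
      have h0 : (0 : ℝ) < 2 ^ D.g a.1 a.2 l := by positivity
      rw [e1, abs_mul, abs_of_pos h0] at key
      rw [pow_add, le_div_iff₀ (by positivity)]
      rw [le_div_iff₀ h0X] at key
      refine le_trans (le_of_eq ?_) (key.trans (le_trans ?_ (h2 _ c5 hc5 g5 (h5 z hz1))))
      · ring
      · linarith

end Pool.LSH
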