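import Pool.Agent.H12.LSH.Obj

/-!
# The estimates at a sample
-/

set_option autoImplicit false

namespace Pool.LSH

open Finset MvPolynomial
open Pool.Agent.H49.Ent Pool.Agent.H32.Dense Pool.STK Pool.STAT Pool.MIC Pool.MicA Pool.PTH
open Pool.FRM
open Pool.MIC.Frm (nat pt pt_eq)
open Pool.BFL (Pl Pb)

theorem fl_near (X : ℕ) (x : ℝ) : |(⌊(2 : ℝ) ^ X * x⌋ : ℝ) / 2 ^ X - x| ≤ 1 / 2 ^ X := by
  have h0 : (0 : ℝ) < 2 ^ X := by positivity
  have h1 := Int.floor_le ((2 : ℝ) ^ X * x)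
  have h2 := Int.lt_floor_add_one ((2 : ℝ) ^ X * x)
  have e : (⌊(2 : ℝ) ^ X * x⌋ : ℝ) / 2 ^ X - x = ((⌊(2 : ℝ) ^ X * x⌋ : ℝ) - 2 ^ X * x) / 2 ^ X := by
    field_simp
  rw [e, abs_div, abs_of_pos h0]
  refine div_le_div_of_nonneg_right ?_ h0.le
  rw [abs_le]
  constructor <;> linarith

/-- The constant of the windows. -/
def A₀ (K : ℕ) : ℝ := (K * (K + 1) + 1) * (K * (K + 1) + 1)

theorem A₀_ge (K : ℕ) : 1 ≤ A₀ K := by
  unfold A₀
  have : (0 : ℝ) ≤ K * (K + 1) := by positivity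
  nlinarith

/-- The hypotheses at a sample, for one place `b`. -/
structure Wn (D : NDat2) (n w₀ w J z X M : ℕ) (b : ℕ × ℕ) (ω : D.Ω) : Prop where
  lt : b.1 < M ∧ b.2 < M
  win : w₀ + b.2 * z + X + z ≤ w
  le : LE D J (w₀ + b.2 * z) z n b ω

section

variable {D : NDat2} {n K J a₀ w₀ z M k w X c : ℕ} {lam gam : ℕ → ℝ} {κ C₁ : ℝ} {q : D.Ω → ℝ}
  {π : Pls k} {ω : D.Ω} {b : ℕ × ℕ}

theorem hz_near (hO : D.Ok2 n K J a₀ w₀ z M lam gam κ C₁ q) (hw : w ≤ J) (ω₀ : D.Ω)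
    (hω : 0 < q ω) (hb : Wn D n w₀ w J z X M b ω) {l : ℕ} (hl : l ≤ n) :
    |zt D b.1 b.2 ω l - hz D q J w ω₀ b (D.wn J w ω) l| ≤ A₀ K / 2 ^ X := by
  have hd := det_c hO hb.lt.1.le hb.lt.2.le (w := w) (by have := hb.win; omega) hw
  rw [hz_eq ω₀ hd hω, ← zt_Qp hO hw hω hl]
  obtain ⟨t1, t2⟩ := thr_bd J w ω
  exact hgt_const hO hb.win hw hb.le hl t1 t2.le

theorem hz_le (hO : D.Ok2 n K J a₀ w₀ z M lam gam κ C₁ q) (hw : w ≤ J) (ω₀ : D.Ω)
    (hω : 0 < q ω) (hb : Wn D n w₀ w J z X M b ω) (hX : A₀ K ≤ 2 ^ X) {l : ℕ} (hl : l ≤ n) :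
    |hz D q J w ω₀ b (D.wn J w ω) l| ≤ 2 := by
  have h1 := hz_near hO hw ω₀ hω hb hl
  have h2 := zt_le1 hO hb.lt.1.le hb.lt.2.le hω hl
  have h3 : A₀ K / 2 ^ X ≤ 1 := by
    rw [div_le_one (by positivity)]
    exact hX
  have h4 := abs_sub (zt D b.1 b.2 ω l) (zt D b.1 b.2 ω l - hz D q J w ω₀ b (D.wn J w ω) l)
  rw [sub_sub_cancel] at h4
  linarith

theorem fl_hz_le (hO : D.Ok2 n K J a₀ w₀ z M lam gam κ C₁ q) (hw : w ≤ J) (ω₀ : D.Ω)
    (hω : 0 < q ω) (hb : Wn D n w₀ w J z X M b ω) (hX : A₀ K ≤ 2 ^ X) {l : ℕ} (hl : l ≤ n) :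
    |(⌊(2 : ℝ) ^ X * hz D q J w ω₀ b (D.wn J w ω) l⌋ : ℝ) / 2 ^ X| ≤ 3 := by
  have h1 := hz_le hO hw ω₀ hω hb hX hl
  have h2 := fl_near X (hz D q J w ω₀ b (D.wn J w ω) l)
  have h3 : (1 : ℝ) / 2 ^ X ≤ 1 := by
    rw [div_le_one (by positivity)]
    exact one_le_pow₀ (by norm_num)
  have h4 := abs_add_le ((⌊(2 : ℝ) ^ X * hz D q J w ω₀ b (D.wn J w ω) l⌋ : ℝ) / 2 ^ X -
    hz D q J w ω₀ b (D.wn J w ω) l) (hz D q J w ω₀ b (D.wn J w ω) l)
  rw [sub_add_cancel] at h4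
  linarith

theorem pow_le_E {g g' : ℕ} {E : ℝ} (h : g ≤ g' + c * z) (hE : (2 : ℝ) ^ (c * z) ≤ E) :
    (2 : ℝ) ^ g ≤ E * 2 ^ g' := by
  calc (2 : ℝ) ^ g ≤ 2 ^ (g' + c * z) := pow_le_pow_right₀ (by norm_num) h
    _ = 2 ^ (c * z) * 2 ^ g' := by rw [pow_add]; ring
    _ ≤ E * 2 ^ g' := mul_le_mul_of_nonneg_right hE (by positivity)

/-- The levels of the sheet of rank `r`. -/
theorem ls_r (hP : Plc D n z X c M π) {E : ℝ} (hE : (2 : ℝ) ^ (c * z) ≤ E) (r : Fin k) :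
    Ls D n E π.o (π.p r) fun l => π.rk l ≤ r :=
  ⟨fun l l1 l2 h => hP.deep r l l1 l2 h, fun l l1 l2 h =>
    pow_le_E (hP.wide r l l1 l2 (not_le.1 h)) hE⟩

/-- The levels of the frozen sheet. -/
theorem ls_f (hP : Plc D n z X c M π) {E : ℝ} (hE : (2 : ℝ) ^ (c * z) ≤ E) {r r' : Fin k}
    (hr : (r' : ℕ) = r + 1) : Ls D n E π.o (π.p r') fun l => π.rk l ≤ r := by
  refine ⟨fun l l1 l2 h => hP.deep r' l l1 l2 (by omega), fun l l1 l2 h => ?_⟩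
  rcases Nat.lt_or_ge (r' : ℕ) (π.rk l) with h1 | h1
  · exact pow_le_E (hP.wide r' l l1 l2 h1) hE
  · have h2 : π.rk l = r' := by omega
    have h3 := of_rk_eq h2
    rw [← h3]
    exact pow_le_E (hP.self r').2 hE

theorem gS_o {o b : ℕ × ℕ} {S : ℕ → Prop} [DecidablePred S] {E : ℝ} (hE : 1 ≤ E)
    (hL : Ls D n E o b S) : ∀ l, 1 ≤ l → l < n → (2 : ℝ) ^ gl D o l ≤ E * 2 ^ gS D o b S l := by
  intro l l1 l2
  refine le_trans ?_ (le_mul_of_one_le_left (by positivity) hE)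
  refine pow_le_pow_right₀ (by norm_num) ?_
  unfold gS
  split_ifs with h
  · exact hL.deep l l1 l2 h
  · exact le_rfl

theorem gS_b {o b : ℕ × ℕ} {S : ℕ → Prop} [DecidablePred S] {E : ℝ} (hE : 1 ≤ E)
    (hL : Ls D n E o b S) : ∀ l, 1 ≤ l → l < n → (2 : ℝ) ^ gl D b l ≤ E * 2 ^ gS D o b S l := by
  intro l l1 l2
  unfold gS
  split_ifs with h
  · exact le_mul_of_one_le_left (by positivity) hE
  · exact hL.wide l l1 l2 h

/-- The heights of the sheet of rank `r`. -/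
theorem mxu_le (hO : D.Ok2 n K J a₀ w₀ z M lam gam κ C₁ q) (hP : Plc D n z X c M π) (hw : w ≤ J)
    (ω₀ : D.Ω) (hω : 0 < q ω) {r : Fin k} (hb : Wn D n w₀ w J z X M (π.p r) ω)
    (hX : A₀ K ≤ 2 ^ X) {E : ℝ} (hE : (2 : ℝ) ^ (c * z) ≤ E) (hE3 : 3 ≤ E) {y : ℝ}
    (hy : |y| ≤ 1) {l : ℕ} (l2 : l < n) :
    |mxu D π X r (hd D π q J w ω₀ X r (D.wn J w ω)) y l| ≤ E := by
  unfold mxu
  split_ifs with h1 h2
  · have e : hd D π q J w ω₀ X r (D.wn J w ω) l =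
        ⌊(2 : ℝ) ^ X * hz D q J w ω₀ (π.p r) (D.wn J w ω) l⌋ := if_pos h1
    rw [e]
    exact (fl_hz_le hO hw ω₀ hω hb hX l2.le).trans hE3
  · have h3 := of_rk_eq h2
    rw [abs_mul, abs_of_pos (by positivity)]
    have h4 : (2 : ℝ) ^ gl D (π.p r) l / 2 ^ gl D π.o l ≤ E := by
      rw [div_le_iff₀ (by positivity), ← h3]
      exact pow_le_E (hP.self r).2 hE
    calc (2 : ℝ) ^ gl D (π.p r) l / 2 ^ gl D π.o l * |y| ≤ E * 1 :=
          mul_le_mul h4 hy (abs_nonneg _) (by linarith)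
      _ = E := mul_one E
  · rw [abs_zero]
    linarith

/-- **The size of the sheets.** -/
theorem shf_bd {K₂ : ℕ} {E W : ℝ} {P : ℕ → PN} (hO : D.Ok2 n K J a₀ w₀ z M lam gam κ C₁ q)
    (hP : Plc D n z X c M π) (hw : w ≤ J) (ω₀ : D.Ω) (hω : 0 < q ω) {r : Fin k}
    (hb : Wn D n w₀ w J z X M (π.p r) ω) (how : w₀ + π.o.2 * z ≤ w) (hX : A₀ K ≤ 2 ^ X)
    (hE : (2 : ℝ) ^ (c * z) ≤ E) (hE3 : 3 ≤ E) (hW : W = 4 * E) (hF : Fr D n K₂ M E P ω)
    {y : ℝ} (hy : |y| ≤ 1) (i : Fin k) :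
    |shf D π w X r (Zd D π q J w ω₀ X r (D.wn J w ω)) (tm D J w ω) y i| ≤ W ^ q2 K₂ n := by
  have do' := det_c hO hP.o_lt.1.le hP.o_lt.2.le how hw
  have dp := det_c hO hb.lt.1.le hb.lt.2.le (w := w) (by have := hb.win; omega) hw
  have hL := ls_r hP hE r
  rw [shf_smp hP.co_ge J w ω₀ X r do' hω]
  exact (mp_mx hO hP.co_ge hw ω₀ (X := X) do' dp hω y).nat_bd hF hL hP.o_lt hb.lt hW
    (fun l _ l2 => mxu_le hO hP hw ω₀ hω hb hX hE hE3 hy l2) hP.o_lt (gS_o hF.e1 hL)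
    (hP.co_ge i) (hP.co_lt i)

theorem Fr.mono {K₂ : ℕ} {E E' : ℝ} {P : ℕ → PN} (hF : Fr D n K₂ M E P ω) (h : E ≤ E') :
    Fr D n K₂ M E' P ω := by
  refine ⟨hF.tri, hF.pt, hF.e1.trans h, fun a a1 a2 => ?_⟩
  have := hF.nb a a1 a2
  exact ⟨this.vars, this.deg, fun l hl => (this.nrm_le l hl).trans
    (div_le_div_of_nonneg_right h (by positivity))⟩

/-- The larger constant. -/
noncomputable def E2 (K K₂ n : ℕ) (E : ℝ) : ℝ := (4 * E) ^ q2 K₂ n + A₀ K + 2 + E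

/-- The truncated position is in the unit interval. -/
theorem yd_all (D : NDat2) {k : ℕ} (π : Pls k) (q : D.Ω → ℝ) (J w : ℕ) (ω₀ : D.Ω) (X : ℕ)
    (x : D.Λ × ℕ) (r : Fin k) : |(yd D π q J w ω₀ X x r : ℝ) / 2 ^ X| ≤ 1 := by
  have h0X : (0 : ℝ) < 2 ^ X := by positivity
  rw [abs_div, abs_of_pos h0X, div_le_one h0X]
  unfold yd
  split_ifs with h
  · have h1 : ((|yr D π q J w ω₀ X x r| : ℤ) : ℝ) ≤ ((2 ^ X : ℤ) : ℝ) := by exact_mod_cast h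
    rw [Int.cast_abs] at h1
    push_cast at h1
    exact h1
  · rw [Int.cast_zero, abs_zero]
    exact h0X.le

/-- The truncation does not act if the position is in the unit interval. -/
theorem yd_of {D : NDat2} {k : ℕ} {π : Pls k} {q : D.Ω → ℝ} {J w : ℕ} {ω₀ : D.Ω} {X : ℕ}
    {x : D.Λ × ℕ} {r : Fin k} (h : |(yr D π q J w ω₀ X x r : ℝ) / 2 ^ X| ≤ 1) :
    yd D π q J w ω₀ X x r = yr D π q J w ω₀ X x r := by
  have h0X : (0 : ℝ) < 2 ^ X := by positivity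
  rw [abs_div, abs_of_pos h0X, div_le_one h0X] at h
  have h1 : |yr D π q J w ω₀ X x r| ≤ 2 ^ X := by
    have h2 : ((|yr D π q J w ω₀ X x r| : ℤ) : ℝ) ≤ ((2 ^ X : ℤ) : ℝ) := by
      rw [Int.cast_abs]
      push_cast
      exact h
    exact_mod_cast h2
  unfold yd
  rw [if_pos h1]

/-- **The sheet against a point** whose heights at the place of the sheet are those of the
line. -/
theorem cmp_sh {K₂ : ℕ} {E : ℝ} {P : ℕ → PN} (hO : D.Ok2 n K J a₀ w₀ z M lam gam κ C₁ q)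
    (hP : Plc D n z X c M π) (hw : w ≤ J) (ω₀ : D.Ω) (hω : 0 < q ω) {r : Fin k}
    (hb : Wn D n w₀ w J z X M (π.p r) ω) (how : w₀ + π.o.2 * z ≤ w) (hX : A₀ K ≤ 2 ^ X)
    (hE : (2 : ℝ) ^ (c * z) ≤ E) (hE3 : 3 ≤ E) (hF : Fr D n K₂ M E P ω) {x u : ℕ → ℝ}
    (hx : Mp D n π.o (π.p r) (fun l => π.rk l ≤ r) ω u x)
    (hu : ∀ l, 1 ≤ l → l < n → π.rk l ≤ r →
      |u l - hz D q J w ω₀ (π.p r) (D.wn J w ω) l| ≤ ((4 * E) ^ q2 K₂ n + A₀ K + 1) / 2 ^ X)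
    (hu0 : ∀ l, 1 ≤ l → l < n → ¬ π.rk l ≤ r → u l = 0)
    (hyr : |(yr D π q J w ω₀ X (D.wn J w ω) r : ℝ) / 2 ^ X| ≤ 1) (i : Fin k) :
    |nat (gl D π.o) (D.Φ π.o.1 π.o.2 ω) x (π.co i) -
      shf D π w X r (Zd D π q J w ω₀ X r (D.wn J w ω)) (tm D J w ω)
        (yd D π q J w ω₀ X (D.wn J w ω) r / 2 ^ X) i| ≤
      (4 * E2 K K₂ n E) ^ q2 K₂ n * (E2 K K₂ n E / 2 ^ X) := by
  have do' := det_c hO hP.o_lt.1.le hP.o_lt.2.le how hw
  have dp := det_c hO hb.lt.1.le hb.lt.2.le (w := w) (by have := hb.win; omega) hw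
  have hyy := yd_of hyr
  have hy := yd_all D π q J w ω₀ X (D.wn J w ω) r
  have hW0 : (0 : ℝ) ≤ (4 * E) ^ q2 K₂ n := by positivity
  have hA := A₀_ge K
  have hEE : E ≤ E2 K K₂ n E := by
    unfold E2
    linarith
  have hE' : (2 : ℝ) ^ (c * z) ≤ E2 K K₂ n E := hE.trans hEE
  have hL := ls_r hP hE' r
  have hF' := hF.mono hEE
  have h2X : (1 : ℝ) ≤ 2 ^ X := one_le_pow₀ (by norm_num)
  have h0X : (0 : ℝ) < 2 ^ X := by positivity
  rw [shf_smp hP.co_ge J w ω₀ X r do' hω]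
  have hm := mp_mx hO hP.co_ge hw ω₀ (X := X) (r := r) do' dp hω
    (yd D π q J w ω₀ X (D.wn J w ω) r / 2 ^ X)
  refine hx.nat_df hF' hL hP.o_lt hb.lt rfl hm (fun l l1 l2 => ?_) (fun l l1 l2 => ?_)
    (by unfold E2; positivity) (fun l l1 l2 => ?_) hP.o_lt (gS_o hF'.e1 hL) (hP.co_ge i)
    (hP.co_lt i)
  · by_cases hS : π.rk l ≤ r
    · have h1 := hu l l1 l2 hS
      have h2 := hz_le hO hw ω₀ hω hb hX l2.le
      have h3 := abs_add_le (u l - hz D q J w ω₀ (π.p r) (D.wn J w ω) l)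
        (hz D q J w ω₀ (π.p r) (D.wn J w ω) l)
      rw [sub_add_cancel] at h3
      have h4 : ((4 * E) ^ q2 K₂ n + A₀ K + 1) / 2 ^ X ≤ (4 * E) ^ q2 K₂ n + A₀ K + 1 :=
        div_le_self (by linarith) h2X
      unfold E2
      linarith
    · rw [hu0 l l1 l2 hS, abs_zero]
      linarith
  · exact (mxu_le hO hP hw ω₀ hω hb hX hE hE3 hy l2).trans hEE
  · by_cases hS : π.rk l ≤ r
    · have h1 := hu l l1 l2 hS
      have h5 : |mxu D π X r (hd D π q J w ω₀ X r (D.wn J w ω))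
          (yd D π q J w ω₀ X (D.wn J w ω) r / 2 ^ X) l -
          hz D q J w ω₀ (π.p r) (D.wn J w ω) l| ≤ (1 + E) / 2 ^ X := by
        rcases hS.lt_or_eq with h6 | h6
        · have e : mxu D π X r (hd D π q J w ω₀ X r (D.wn J w ω))
              (yd D π q J w ω₀ X (D.wn J w ω) r / 2 ^ X) l =
              (⌊(2 : ℝ) ^ X * hz D q J w ω₀ (π.p r) (D.wn J w ω) l⌋ : ℝ) / 2 ^ X := by
            unfold mxu hd
            rw [if_pos h6, if_pos h6]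
          rw [e]
          refine (fl_near X _).trans (div_le_div_of_nonneg_right ?_ h0X.le)
          linarith
        · have h3 := of_rk_eq h6
          subst h3
          obtain ⟨h, hh⟩ : ∃ h, h = hz D q J w ω₀ (π.p r) (D.wn J w ω) (π.co r) := ⟨_, rfl⟩
          have e : mxu D π X r (hd D π q J w ω₀ X r (D.wn J w ω))
              (yd D π q J w ω₀ X (D.wn J w ω) r / 2 ^ X) (π.co r) =
              2 ^ gl D (π.p r) (π.co r) / 2 ^ gl D π.o (π.co r) *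
                ((⌊(2 : ℝ) ^ X * (2 ^ gl D π.o (π.co r) * h / 2 ^ gl D (π.p r) (π.co r))⌋ : ℝ) /
                  2 ^ X) := by
            unfold mxu
            rw [hyy]
            unfold yr
            rw [if_neg (by omega), if_pos h6, ← hh]
          rw [e, ← hh]
          obtain ⟨F, hF⟩ : ∃ F : ℝ, F = 2 ^ gl D (π.p r) (π.co r) / 2 ^ gl D π.o (π.co r) :=
            ⟨_, rfl⟩
          have hF0 : 0 < F := by
            rw [hF]
            positivity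
          have hFE : F ≤ E := by
            rw [hF, div_le_iff₀ (by positivity)]
            exact pow_le_E (hP.self r).2 hE
          have e1 : 2 ^ gl D π.o (π.co r) * h / 2 ^ gl D (π.p r) (π.co r) = h / F := by
            rw [hF]
            field_simp
          rw [e1, ← hF]
          have e2 := fl_near X (h / F)
          have e3 : F * ((⌊(2 : ℝ) ^ X * (h / F)⌋ : ℝ) / 2 ^ X) - h =
              F * ((⌊(2 : ℝ) ^ X * (h / F)⌋ : ℝ) / 2 ^ X - h / F) := by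
            field_simp
          rw [e3, abs_mul, abs_of_pos hF0]
          calc F * |(⌊(2 : ℝ) ^ X * (h / F)⌋ : ℝ) / 2 ^ X - h / F| ≤ E * (1 / 2 ^ X) :=
                mul_le_mul hFE e2 (abs_nonneg _) (by linarith)
            _ = E / 2 ^ X := by ring
            _ ≤ (1 + E) / 2 ^ X := div_le_div_of_nonneg_right (by linarith) h0X.le
      have h7 := abs_sub (u l - hz D q J w ω₀ (π.p r) (D.wn J w ω) l)
        (mxu D π X r (hd D π q J w ω₀ X r (D.wn J w ω))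
          (yd D π q J w ω₀ X (D.wn J w ω) r / 2 ^ X) l -
          hz D q J w ω₀ (π.p r) (D.wn J w ω) l)
      rw [sub_sub_sub_cancel_right] at h7
      refine h7.trans ((add_le_add h1 h5).trans ?_)
      rw [← add_div]
      refine div_le_div_of_nonneg_right ?_ h0X.le
      unfold E2
      linarith
    · rw [hu0 l l1 l2 hS]
      have e : mxu D π X r (hd D π q J w ω₀ X r (D.wn J w ω))
          (yd D π q J w ω₀ X (D.wn J w ω) r / 2 ^ X) l = 0 := by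
        unfold mxu
        rw [if_neg (by omega), if_neg (by omega)]
      rw [e, sub_self, abs_zero]
      unfold E2
      positivity

end

end Pool.LSH
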