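import Pool.Agent.H12.LSH.Smp

/-!
# The estimates at a sample: consistency, target
-/

set_option autoImplicit false

namespace Pool.LSH

open Finset MvPolynomial
open Pool.Agent.H49.Ent Pool.Agent.H32.Dense Pool.STK Pool.STAT Pool.MIC Pool.MicA Pool.PTH
open Pool.FRM
open Pool.GSD (ch)
open Pool.MIC.Frm (nat pt pt_eq)
open Pool.BFL (Pl Pb)

section

variable {D : NDat2} {n K K₂ J a₀ w₀ z M k w X c : ℕ} {lam gam : ℕ → ℝ} {κ C₁ : ℝ} {q : D.Ω → ℝ}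
  {π : Pls k} {ω : D.Ω} {b a : ℕ × ℕ} {E : ℝ} {P : ℕ → PN}

theorem xo_eq (hO : D.Ok2 n K J a₀ w₀ z M lam gam κ C₁ q) (hw : w ≤ J) (ω₀ : D.Ω)
    (hω : 0 < q ω) (do' : Det q (D.wn J w) (D.c π.o.1 π.o.2)) (hn : ∀ i, π.co i < n) (i : Fin k) :
    xo D π q J w ω₀ (D.wn J w ω) (tm D J w ω) i = zt D π.o.1 π.o.2 ω (π.co i) := by
  obtain ⟨h1, h2⟩ := rp_spec J w ω₀ hω
  unfold xo
  rw [Qp_congr do' h1 hω h2]
  exact zt_Qp hO hw hω (hn i).le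

/-- **The frozen sheet of the next rank is the sheet at the position.** -/
theorem cc_frz (hO : D.Ok2 n K J a₀ w₀ z M lam gam κ C₁ q) (hP : Plc D n z X c M π) (hw : w ≤ J)
    (ω₀ : D.Ω) (hω : 0 < q ω) {r r' : Fin k} (hr : (r' : ℕ) = r + 1)
    (hb : Wn D n w₀ w J z X M (π.p r) ω) (hb' : Wn D n w₀ w J z X M (π.p r') ω)
    (how : w₀ + π.o.2 * z ≤ w) (hX : A₀ K ≤ 2 ^ X) (hE : (2 : ℝ) ^ (c * z) ≤ E) (hE3 : 3 ≤ E)
    (hF : Fr D n K₂ M E P ω) (hy : |(yr D π q J w ω₀ X (D.wn J w ω) r : ℝ) / 2 ^ X| ≤ 1)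
    (i : Fin k) :
    |shf D π w X r' (Zd D π q J w ω₀ X r' (D.wn J w ω)) (tm D J w ω)
        (-shf D π w X r' (Zd D π q J w ω₀ X r' (D.wn J w ω)) (tm D J w ω) 0 r') i -
      shf D π w X r (Zd D π q J w ω₀ X r (D.wn J w ω)) (tm D J w ω)
        (yd D π q J w ω₀ X (D.wn J w ω) r / 2 ^ X) i| ≤
      (4 * E2 K K₂ n E) ^ q2 K₂ n * (E2 K K₂ n E / 2 ^ X) := by
  have do' := det_c hO hP.o_lt.1.le hP.o_lt.2.le how hw
  have dp' := det_c hO hb'.lt.1.le hb'.lt.2.le (w := w) (by have := hb'.win; omega) hw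
  have h0X : (0 : ℝ) < 2 ^ X := by positivity
  have h1X : (1 : ℝ) ≤ 2 ^ X := one_le_pow₀ (by norm_num)
  have hA := A₀_ge K
  have hW0 : (0 : ℝ) ≤ (4 * E) ^ q2 K₂ n := by positivity
  obtain ⟨y₀, hy₀⟩ : ∃ y₀, y₀ = -shf D π w X r' (Zd D π q J w ω₀ X r' (D.wn J w ω))
    (tm D J w ω) 0 r' := ⟨_, rfl⟩
  rw [← hy₀, shf_smp hP.co_ge J w ω₀ X r' do' hω]
  have hm := mp_mx hO hP.co_ge hw ω₀ (X := X) (r := r') do' dp' hω y₀
  obtain ⟨x, hx⟩ : ∃ x, x = mxpt D π w X r' (Zd D π q J w ω₀ X r' (D.wn J w ω)) (tm D J w ω) y₀ :=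
    ⟨_, rfl⟩
  have nat0 : nat (gl D π.o) (D.Φ π.o.1 π.o.2 ω) x (π.co r') = 0 := by
    rw [hx, ← shf_smp hP.co_ge J w ω₀ X r' do' hω, shf_dia hO.P_tri hP.inj hP.co_ge, hy₀]
    ring
  rw [← hx] at hm ⊢
  -- the frozen point
  obtain ⟨u₁, hu₁⟩ : ∃ u₁ : ℕ → ℝ, u₁ = fun l => if π.rk l ≤ r then
    (hd D π q J w ω₀ X r' (D.wn J w ω) l : ℝ) / 2 ^ X else 0 := ⟨_, rfl⟩
  have hx1 : Mp D n π.o (π.p r') (fun l => π.rk l ≤ r) ω u₁ x := by
    refine ⟨hm.x0, fun l l1 l2 hS => ?_, fun l l1 l2 hS => ?_⟩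
    · have h1 := hm.inn l l1 l2 (by omega)
      have e : mxu D π X r' (hd D π q J w ω₀ X r' (D.wn J w ω)) y₀ l = u₁ l := by
        rw [hu₁]
        dsimp only
        rw [if_pos hS]
        unfold mxu
        rw [if_pos (by omega)]
      rw [e] at h1
      exact h1
    · have e : u₁ l = 0 := by
        rw [hu₁]
        dsimp only
        rw [if_neg hS]
      rw [e, zero_div, add_zero]
      rcases Nat.lt_or_ge (r' : ℕ) (π.rk l) with h2 | h2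
      · have h1 := hm.out l l1 l2 (not_le.2 h2)
        have e3 : mxu D π X r' (hd D π q J w ω₀ X r' (D.wn J w ω)) y₀ l = 0 := by
          unfold mxu
          rw [if_neg (by omega), if_neg (by omega)]
        rw [e3, zero_div, add_zero] at h1
        exact h1
      · have h3 : π.rk l = r' := by omega
        have h4 := of_rk_eq h3
        rw [h4] at nat0
        unfold nat at nat0
        rcases mul_eq_zero.1 nat0 with h5 | h5
        · exact absurd h5 (by positivity)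
        · linarith
  have hd1 : ∀ l, π.rk l ≤ r → u₁ l =
      (⌊(2 : ℝ) ^ X * hz D q J w ω₀ (π.p r') (D.wn J w ω) l⌋ : ℝ) / 2 ^ X := by
    intro l hS
    rw [hu₁]
    dsimp only
    rw [if_pos hS]
    unfold hd
    rw [if_pos (by omega)]
  rcases hP.drop r r' (Fin.le_def.2 (by omega)) with hpp | hdr
  · -- the same place
    rw [← hpp] at hx1 hd1
    refine cmp_sh hO hP hw ω₀ hω hb how hX hE hE3 hF hx1 (fun l l1 l2 hS => ?_)
      (fun l l1 l2 hS => ?_) hy i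
    · rw [hd1 l hS]
      refine (fl_near X _).trans (div_le_div_of_nonneg_right ?_ h0X.le)
      linarith
    · rw [hu₁]
      dsimp only
      rw [if_neg hS]
  · -- the next place
    have hLf := ls_f hP hE hr
    have hu1E : ∀ l, 1 ≤ l → l < n → |u₁ l| ≤ E := by
      intro l l1 l2
      by_cases hS : π.rk l ≤ r
      · rw [hd1 l hS]
        exact (fl_hz_le hO hw ω₀ hω hb' hX l2.le).trans hE3
      · rw [hu₁]
        dsimp only
        rw [if_neg hS, abs_zero]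
        linarith
    have hgb := gS_b hF.e1 hLf
    have key : ∀ l, 1 ≤ l → l < n → |nat (gl D (π.p r)) (D.Φ (π.p r).1 (π.p r).2 ω) x l -
        zt D (π.p r).1 (π.p r).2 ω l| ≤ (4 * E) ^ q2 K₂ n * (1 / 2 ^ X) := by
      intro l l1 l2
      refine hx1.nat_own hF hLf hP.o_lt hb'.lt rfl hu1E hb.lt (by positivity) ?_
        (fun m m1 m2 => ?_) l1 l2
      · rw [div_le_one h0X]
        exact h1X
      · have h1 := hgb m m1 m2
        have h2 : (2 : ℝ) ^ gl D (π.p r) m * 2 ^ X ≤ 2 ^ gl D (π.p r') m := by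
          rw [← pow_add]
          exact pow_le_pow_right₀ (by norm_num) (hdr m m1 m2)
        rw [mul_assoc, one_div, inv_mul_eq_div, le_div_iff₀ h0X]
        exact h2.trans h1
    obtain ⟨u₂, hu₂⟩ : ∃ u₂ : ℕ → ℝ, u₂ = fun l => if π.rk l ≤ r then
      nat (gl D (π.p r)) (D.Φ (π.p r).1 (π.p r).2 ω) x l else 0 := ⟨_, rfl⟩
    have hx2 : Mp D n π.o (π.p r) (fun l => π.rk l ≤ r) ω u₂ x := by
      refine ⟨hm.x0, fun l l1 l2 hS => ?_, fun l l1 l2 hS => ?_⟩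
      · have e : u₂ l = nat (gl D (π.p r)) (D.Φ (π.p r).1 (π.p r).2 ω) x l := by
          rw [hu₂]
          dsimp only
          rw [if_pos hS]
        rw [e]
        unfold nat
        field_simp
        ring
      · have e : u₂ l = 0 := by
          rw [hu₂]
          dsimp only
          rw [if_neg hS]
        have e1 : u₁ l = 0 := by
          rw [hu₁]
          dsimp only
          rw [if_neg hS]
        have h1 := hx1.out l l1 l2 hS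
        rw [e1] at h1
        rw [e]
        exact h1
    refine cmp_sh hO hP hw ω₀ hω hb how hX hE hE3 hF hx2 (fun l l1 l2 hS => ?_)
      (fun l l1 l2 hS => ?_) hy i
    · have e : u₂ l = nat (gl D (π.p r)) (D.Φ (π.p r).1 (π.p r).2 ω) x l := by
        rw [hu₂]
        dsimp only
        rw [if_pos hS]
      rw [e]
      have h1 := key l l1 l2
      have h2 := hz_near hO hw ω₀ hω hb l2.le
      have h3 := abs_add_le (nat (gl D (π.p r)) (D.Φ (π.p r).1 (π.p r).2 ω) x l -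
        zt D (π.p r).1 (π.p r).2 ω l) (zt D (π.p r).1 (π.p r).2 ω l -
          hz D q J w ω₀ (π.p r) (D.wn J w ω) l)
      rw [sub_add_sub_cancel] at h3
      refine h3.trans ((add_le_add h1 h2).trans ?_)
      rw [mul_one_div, ← add_div]
      refine div_le_div_of_nonneg_right ?_ h0X.le
      linarith
    · rw [hu₂]
      dsimp only
      rw [if_neg hS]

/-- **The line is on the last sheet.** -/
theorem cc_top (hO : D.Ok2 n K J a₀ w₀ z M lam gam κ C₁ q) (hP : Plc D n z X c M π) (hw : w ≤ J)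
    (ω₀ : D.Ω) (hω : 0 < q ω) {r : Fin k} (hall : ∀ l, 1 ≤ l → l < n → π.rk l ≤ r)
    (hb : Wn D n w₀ w J z X M (π.p r) ω)
    (how : w₀ + π.o.2 * z ≤ w) (hX : A₀ K ≤ 2 ^ X) (hE : (2 : ℝ) ^ (c * z) ≤ E) (hE3 : 3 ≤ E)
    (hF : Fr D n K₂ M E P ω) (hy : |(yr D π q J w ω₀ X (D.wn J w ω) r : ℝ) / 2 ^ X| ≤ 1)
    (i : Fin k) :
    |xo D π q J w ω₀ (D.wn J w ω) (tm D J w ω) i -
      shf D π w X r (Zd D π q J w ω₀ X r (D.wn J w ω)) (tm D J w ω)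
        (yd D π q J w ω₀ X (D.wn J w ω) r / 2 ^ X) i| ≤
      (4 * E2 K K₂ n E) ^ q2 K₂ n * (E2 K K₂ n E / 2 ^ X) := by
  have do' := det_c hO hP.o_lt.1.le hP.o_lt.2.le how hw
  have h0X : (0 : ℝ) < 2 ^ X := by positivity
  have hW0 : (0 : ℝ) ≤ (4 * E) ^ q2 K₂ n := by positivity
  rw [xo_eq hO hw ω₀ hω do' hP.co_lt i]
  have hx : Mp D n π.o (π.p r) (fun l => π.rk l ≤ r) ω (zt D (π.p r).1 (π.p r).2 ω) (D.X ω) :=
    mp_own n π.o (π.p r) _ ω _ (fun _ _ _ _ => rfl) fun l l1 l2 hS => absurd (hall l l1 l2) hS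
  refine cmp_sh hO hP hw ω₀ hω hb how hX hE hE3 hF hx (fun l l1 l2 hS => ?_)
    (fun l l1 l2 hS => absurd (hall l l1 l2) hS) hy i
  refine (hz_near hO hw ω₀ hω hb l2.le).trans (div_le_div_of_nonneg_right ?_ h0X.le)
  linarith

/-- The position is in the unit interval. -/
theorem yr_le (hO : D.Ok2 n K J a₀ w₀ z M lam gam κ C₁ q) (hP : Plc D n z X c M π) (hw : w ≤ J)
    (ω₀ : D.Ω) (hω : 0 < q ω) {r : Fin k} (hb : Wn D n w₀ w J z X M (π.p r) ω)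
    (hX : A₀ K ≤ 2 ^ X) (hz1 : 1 ≤ z) :
    |(yr D π q J w ω₀ X (D.wn J w ω) r : ℝ) / 2 ^ X| ≤ 1 := by
  have h1 := hz_le hO hw ω₀ hω hb hX (hP.co_lt r).le
  obtain ⟨h, hh⟩ : ∃ h, h = hz D q J w ω₀ (π.p r) (D.wn J w ω) (π.co r) := ⟨_, rfl⟩
  rw [← hh] at h1
  have h0X : (0 : ℝ) < 2 ^ X := by positivity
  have h2 : |2 ^ gl D π.o (π.co r) * h / 2 ^ gl D (π.p r) (π.co r)| ≤ 1 := by
    rw [abs_div, abs_mul, abs_of_pos (by positivity : (0 : ℝ) < 2 ^ gl D π.o (π.co r)),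
      abs_of_pos (by positivity : (0 : ℝ) < 2 ^ gl D (π.p r) (π.co r)), div_le_one (by positivity)]
    have h3 : (2 : ℝ) ^ gl D π.o (π.co r) * 2 ≤ 2 ^ gl D (π.p r) (π.co r) := by
      rw [← pow_succ]
      refine pow_le_pow_right₀ (by norm_num) ?_
      have := (hP.self r).1
      omega
    calc (2 : ℝ) ^ gl D π.o (π.co r) * |h| ≤ 2 ^ gl D π.o (π.co r) * 2 :=
          mul_le_mul_of_nonneg_left h1 (by positivity)
      _ ≤ _ := h3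
  unfold yr
  rw [← hh]
  obtain ⟨v, hv⟩ : ∃ v, v = 2 ^ gl D π.o (π.co r) * h / 2 ^ gl D (π.p r) (π.co r) := ⟨_, rfl⟩
  rw [← hv] at h2 ⊢
  rw [abs_div, abs_of_pos h0X, div_le_one h0X, abs_le]
  rw [abs_le] at h2
  constructor
  · have h4 : (-(2 ^ X : ℤ)) ≤ ⌊(2 : ℝ) ^ X * v⌋ := by
      rw [Int.le_floor]
      push_cast
      nlinarith
    have : ((-(2 ^ X : ℤ) : ℤ) : ℝ) ≤ (⌊(2 : ℝ) ^ X * v⌋ : ℝ) := by exact_mod_cast h4
    push_cast at this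
    exact this
  · refine (Int.floor_le _).trans ?_
    nlinarith

/-- The position is not truncated. -/
theorem yd_yr (hO : D.Ok2 n K J a₀ w₀ z M lam gam κ C₁ q) (hP : Plc D n z X c M π) (hw : w ≤ J)
    (ω₀ : D.Ω) (hω : 0 < q ω) {r : Fin k} (hb : Wn D n w₀ w J z X M (π.p r) ω)
    (hX : A₀ K ≤ 2 ^ X) (hz1 : 1 ≤ z) :
    yd D π q J w ω₀ X (D.wn J w ω) r = yr D π q J w ω₀ X (D.wn J w ω) r :=
  yd_of (yr_le hO hP hw ω₀ hω hb hX hz1)

/-- The truncated position is in the unit interval. -/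
theorem yd_le (_ : D.Ok2 n K J a₀ w₀ z M lam gam κ C₁ q) (_ : Plc D n z X c M π) (_ : w ≤ J)
    (ω₀ : D.Ω) (_ : 0 < q ω) {r : Fin k} (_ : Wn D n w₀ w J z X M (π.p r) ω)
    (_ : A₀ K ≤ 2 ^ X) (_ : 1 ≤ z) :
    |(yd D π q J w ω₀ X (D.wn J w ω) r : ℝ) / 2 ^ X| ≤ 1 :=
  yd_all D π q J w ω₀ X _ r

/-! ### The target -/

theorem dnf_eq (n : ℕ) (ω₀ : D.Ω) (do' : Det q (D.wn J w) (D.c π.o.1 π.o.2))
    (da : Det q (D.wn J w) (D.c a.1 a.2)) (hω : 0 < q ω) (t : ℝ) :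
    dnf D π n w X a (Vd D π q J w ω₀ X a (D.wn J w ω)).1 t = 2 ^ gl D π.o n *
      (eval (xvp D π w X a (Vd D π q J w ω₀ X a (D.wn J w ω)).1 t) (D.Φ a.1 a.2 ω n) -
        eval (xvp D π w X a (Vd D π q J w ω₀ X a (D.wn J w ω)).1 t) (D.Φ π.o.1 π.o.2 ω n)) := by
  have e1 : (Vd D π q J w ω₀ X a (D.wn J w ω)).1.2.2.1 = D.c a.1 a.2 ω := cl_eq ω₀ da hω
  have e2 : (Vd D π q J w ω₀ X a (D.wn J w ω)).1.1 = D.c π.o.1 π.o.2 ω := cl_eq ω₀ do' hω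
  have h : ∀ x : ℕ → ℝ, eval x (D.P a.1 a.2 (Vd D π q J w ω₀ X a (D.wn J w ω)).1.2.2.1 n) -
      eval x (D.P π.o.1 π.o.2 (Vd D π q J w ω₀ X a (D.wn J w ω)).1.1 n) =
      eval x (D.Φ a.1 a.2 ω n) - eval x (D.Φ π.o.1 π.o.2 ω n) := by
    intro x
    rw [e1, e2]
    rfl
  unfold dnf
  rw [h]

/-- The levels of the target. -/
theorem ls_a (hA : Pln D n z X c M π a) (hE : (2 : ℝ) ^ (c * z) ≤ E) :
    Ls D n E π.o a fun l => π.rk l < k :=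
  ⟨fun l l1 l2 h => hA.deep l l1 l2 h, fun l l1 l2 h => pow_le_E (hA.wide l l1 l2 h) hE⟩

theorem xv_u (hO : D.Ok2 n K J a₀ w₀ z M lam gam κ C₁ q) (hw : w ≤ J) (ω₀ : D.Ω)
    (hω : 0 < q ω) (ha : Wn D n w₀ w J z X M a ω) (hX : A₀ K ≤ 2 ^ X) (hE3 : 3 ≤ E) {l : ℕ}
    (l2 : l < n) :
    |if π.rk l < k then (hn D π q J w ω₀ X a (D.wn J w ω) l : ℝ) / 2 ^ X else 0| ≤ E := by
  split_ifs with h
  · unfold hn
    rw [if_pos h]
    exact (fl_hz_le hO hw ω₀ hω ha hX l2.le).trans hE3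
  · rw [abs_zero]
    linarith

theorem Wn.le_X (h : Wn D n w₀ w J z (X + c) M a ω) : Wn D n w₀ w J z X M a ω :=
  ⟨h.lt, by have := h.win; omega, h.le⟩

/-- **The size of the motion of the target.** -/
theorem dnf_bd (hO : D.Ok2 n K J a₀ w₀ z M lam gam κ C₁ q) (hn1 : 1 ≤ n)
    (hP : Plc D n z X c M π) (hA : Pln D n z X c M π a) (hw : w ≤ J) (ω₀ : D.Ω) (hω : 0 < q ω)
    (ha : Wn D n w₀ w J z X M a ω) (how : w₀ + π.o.2 * z ≤ w) (hX : A₀ K ≤ 2 ^ X)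
    (hE : (2 : ℝ) ^ (c * z) ≤ E) (hE3 : 3 ≤ E) (hF : Fr D n K₂ M E P ω) :
    |dnf D π n w X a (Vd D π q J w ω₀ X a (D.wn J w ω)).1 (tm D J w ω)| ≤
      (4 * E) ^ q2 K₂ n * (E + 1) := by
  have do' := det_c hO hP.o_lt.1.le hP.o_lt.2.le how hw
  have da := det_c hO ha.lt.1.le ha.lt.2.le (w := w) (by have := ha.win; omega) hw
  have hm := mp_xv hO hP.co_ge hw ω₀ (X := X) do' da hω
  have hL := ls_a hA hE
  rw [dnf_eq n ω₀ do' da hω, dn_eq hF hm.x0 hn1 a π.o]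
  have b1 := hm.tg_bd hF hL hP.o_lt ha.lt rfl (fun l _ l2 => xv_u hO hw ω₀ hω ha hX hE3 l2)
    ha.lt (gS_b hF.e1 hL)
  have b2 := hm.tg_bd hF hL hP.o_lt ha.lt rfl (fun l _ l2 => xv_u hO hw ω₀ hω ha hX hE3 l2)
    hP.o_lt (gS_o hF.e1 hL)
  have h0 : (0 : ℝ) < 2 ^ gl D π.o n := by positivity
  rw [abs_mul, abs_of_pos h0]
  refine (mul_le_mul_of_nonneg_left ((abs_sub _ _).trans (add_le_add b1 b2)) h0.le).trans ?_
  have h1 : (2 : ℝ) ^ gl D π.o n / 2 ^ gl D a n ≤ E := by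
    rw [div_le_iff₀ (by positivity)]
    exact pow_le_E hA.tgt.2 hE
  have e : (2 : ℝ) ^ gl D π.o n * ((4 * E) ^ q2 K₂ n / 2 ^ gl D a n +
      (4 * E) ^ q2 K₂ n / 2 ^ gl D π.o n) = (4 * E) ^ q2 K₂ n *
        ((2 : ℝ) ^ gl D π.o n / 2 ^ gl D a n + 1) := by
    field_simp
  rw [e]
  refine mul_le_mul_of_nonneg_left (by linarith) (by positivity)

/-- **The height of the target along the line.** -/
theorem tg_smp (hO : D.Ok2 n K J a₀ w₀ z M lam gam κ C₁ q) (hn1 : 1 ≤ n)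
    (hP : Plc D n z X c M π) (hA : Pln D n z X c M π a) (hw : w ≤ J) (ω₀ : D.Ω) (hω : 0 < q ω)
    (hall : ∀ l, 1 ≤ l → l < n → π.rk l < k)
    (ha : Wn D n w₀ w J z (X + c * z) M a ω) (how : w₀ + π.o.2 * z ≤ w) (hX : A₀ K ≤ 2 ^ X)
    (hE : (2 : ℝ) ^ (c * z) ≤ E) (hE3 : 3 ≤ E) (hF : Fr D n K₂ M E P ω) :
    |zt D π.o.1 π.o.2 ω n - 2 ^ gl D π.o n / 2 ^ gl D a n * hz D q J w ω₀ a (D.wn J w ω) n -
      dnf D π n w X a (Vd D π q J w ω₀ X a (D.wn J w ω)).1 (tm D J w ω)| ≤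
      (A₀ K + (4 * E) ^ q2 K₂ n * (A₀ K + 1) * (E + 1)) / 2 ^ X := by
  have ha' := ha.le_X
  have do' := det_c hO hP.o_lt.1.le hP.o_lt.2.le how hw
  have da := det_c hO ha.lt.1.le ha.lt.2.le (w := w) (by have := ha.win; omega) hw
  have hm := mp_xv hO hP.co_ge hw ω₀ (X := X) do' da hω
  have hL := ls_a hA hE
  have h0X : (0 : ℝ) < 2 ^ X := by positivity
  have hA0 := A₀_ge K
  have hx : Mp D n π.o a (fun l => π.rk l < k) ω (zt D a.1 a.2 ω) (D.X ω) :=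
    mp_own n π.o a _ ω _ (fun _ _ _ _ => rfl) fun l l1 l2 hS => absurd (hall l l1 l2) hS
  rw [dnf_eq n ω₀ do' da hω, dn_eq hF hm.x0 hn1 a π.o]
  obtain ⟨x', hx'⟩ : ∃ x', x' = xvp D π w X a (Vd D π q J w ω₀ X a (D.wn J w ω)).1
    (tm D J w ω) := ⟨_, rfl⟩
  rw [← hx'] at hm ⊢
  have hu1 : ∀ l, 1 ≤ l → l < n → |zt D a.1 a.2 ω l| ≤ E := fun l _ l2 =>
    (zt_le1 hO ha.lt.1.le ha.lt.2.le hω l2.le).trans (by linarith)
  have hdu : ∀ l, 1 ≤ l → l < n → |zt D a.1 a.2 ω l - (if π.rk l < k then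
      (hn D π q J w ω₀ X a (D.wn J w ω) l : ℝ) / 2 ^ X else 0)| ≤ (A₀ K + 1) / 2 ^ X := by
    intro l l1 l2
    rw [if_pos (hall l l1 l2)]
    unfold hn
    rw [if_pos (hall l l1 l2)]
    have h1 := hz_near hO hw ω₀ hω ha' l2.le
    have h2 := fl_near X (hz D q J w ω₀ a (D.wn J w ω) l)
    have h3 := abs_sub (zt D a.1 a.2 ω l - hz D q J w ω₀ a (D.wn J w ω) l)
      ((⌊(2 : ℝ) ^ X * hz D q J w ω₀ a (D.wn J w ω) l⌋ : ℝ) / 2 ^ X -
        hz D q J w ω₀ a (D.wn J w ω) l)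
    rw [sub_sub_sub_cancel_right] at h3
    refine h3.trans ((add_le_add h1 h2).trans (le_of_eq ?_))
    rw [← add_div]
  have b1 := hx.tg_df hF hL hP.o_lt ha.lt rfl hm hu1
    (fun l _ l2 => xv_u hO hw ω₀ hω ha' hX hE3 l2) (by positivity) hdu ha.lt (gS_b hF.e1 hL)
  have b2 := hx.tg_df hF hL hP.o_lt ha.lt rfl hm hu1
    (fun l _ l2 => xv_u hO hw ω₀ hω ha' hX hE3 l2) (by positivity) hdu hP.o_lt (gS_o hF.e1 hL)
  obtain ⟨ra, hra⟩ : ∃ ra, ra = eval (zs P (D.X ω)) (ch P (D.X ω 0) (D.Φ a.1 a.2 ω) n) :=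
    ⟨_, rfl⟩
  obtain ⟨ra', hra'⟩ : ∃ ra', ra' = eval (zs P x') (ch P (D.X ω 0) (D.Φ a.1 a.2 ω) n) :=
    ⟨_, rfl⟩
  obtain ⟨ro, hro⟩ : ∃ ro, ro = eval (zs P (D.X ω)) (ch P (D.X ω 0) (D.Φ π.o.1 π.o.2 ω) n) :=
    ⟨_, rfl⟩
  obtain ⟨ro', hro'⟩ : ∃ ro', ro' = eval (zs P x') (ch P (D.X ω 0) (D.Φ π.o.1 π.o.2 ω) n) :=
    ⟨_, rfl⟩
  rw [← hra, ← hra'] at b1
  rw [← hro, ← hro'] at b2
  rw [← hra', ← hro']
  have h1 := hz_near hO hw ω₀ hω ha (l := n) le_rfl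
  -- the height
  have e0 := dn_eq hF (x := D.X ω) rfl hn1 a π.o
  rw [← hra, ← hro] at e0
  have e1 : zt D π.o.1 π.o.2 ω n = 2 ^ gl D π.o n / 2 ^ gl D a n * zt D a.1 a.2 ω n +
      2 ^ gl D π.o n * (ra - ro) := by
    rw [← e0]
    unfold zt nat gl
    field_simp
    ring
  have hg : (2 : ℝ) ^ gl D π.o n / 2 ^ gl D a n ≤ 2 ^ (c * z) := by
    rw [div_le_iff₀ (by positivity), ← pow_add]
    refine pow_le_pow_right₀ (by norm_num) ?_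
    have := hA.tgt.2
    omega
  have hg0 : (0 : ℝ) < 2 ^ gl D π.o n / 2 ^ gl D a n := by positivity
  have h0 : (0 : ℝ) < 2 ^ gl D π.o n := by positivity
  obtain ⟨G, hG⟩ : ∃ G : ℝ, G = 2 ^ gl D π.o n / 2 ^ gl D a n := ⟨_, rfl⟩
  rw [← hG] at hg hg0 e1 ⊢
  have e2 : zt D π.o.1 π.o.2 ω n - G * hz D q J w ω₀ a (D.wn J w ω) n -
      2 ^ gl D π.o n * (ra' - ro') =
      G * (zt D a.1 a.2 ω n - hz D q J w ω₀ a (D.wn J w ω) n) +
        2 ^ gl D π.o n * ((ra - ra') - (ro - ro')) := by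
    rw [e1]
    ring
  rw [e2]
  have b3 : |G * (zt D a.1 a.2 ω n - hz D q J w ω₀ a (D.wn J w ω) n)| ≤ A₀ K / 2 ^ X := by
    rw [abs_mul, abs_of_pos hg0]
    calc G * |zt D a.1 a.2 ω n - hz D q J w ω₀ a (D.wn J w ω) n| ≤
          2 ^ (c * z) * (A₀ K / 2 ^ (X + c * z)) :=
          mul_le_mul hg h1 (abs_nonneg _) (by positivity)
      _ = A₀ K / 2 ^ X := by
          rw [pow_add]
          field_simp
  have b4 : |2 ^ gl D π.o n * ((ra - ra') - (ro - ro'))| ≤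
      (4 * E) ^ q2 K₂ n * (A₀ K + 1) * (E + 1) / 2 ^ X := by
    rw [abs_mul, abs_of_pos h0]
    refine (mul_le_mul_of_nonneg_left ((abs_sub _ _).trans (add_le_add b1 b2)) h0.le).trans ?_
    have e : (2 : ℝ) ^ gl D π.o n * ((4 * E) ^ q2 K₂ n * ((A₀ K + 1) / 2 ^ X) / 2 ^ gl D a n +
        (4 * E) ^ q2 K₂ n * ((A₀ K + 1) / 2 ^ X) / 2 ^ gl D π.o n) =
        (4 * E) ^ q2 K₂ n * (A₀ K + 1) * (G + 1) / 2 ^ X := by
      rw [hG]
      field_simp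
    rw [e]
    refine div_le_div_of_nonneg_right (mul_le_mul_of_nonneg_left ?_ (by positivity)) h0X.le
    linarith
  refine (abs_add_le _ _).trans ((add_le_add b3 b4).trans (le_of_eq ?_))
  rw [← add_div]

end

end Pool.LSH
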