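import Pool.Agent.H12.LSH.Sha

/-!
# The sheets of a cell: the value of the own shape along the path
-/

set_option autoImplicit false

namespace Pool.LSH

open Finset MvPolynomial
open Pool.Agent.H49.Ent Pool.Agent.H32.Dense Pool.STK Pool.STAT Pool.MIC Pool.MicA Pool.PTH
open Pool.MIC.Frm (nat pt pt_eq)
open Pool.BFL (Pl Pb)
open scoped Polynomial

section

variable {D : NDat2} {n K K₀ J a₀ w₀ z M X bb w c : ℕ} {lam gam : ℕ → ℝ} {κ C₁ : ℝ}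
  {q : D.Ω → ℝ} {π : Pls (n - 1)} {o' a : ℕ × ℕ}

/-- The relative time of the sample. -/
theorem sha_th (ω₀ ω : D.Ω) (N : ℕ) :
    (shA D π q J w ω₀ n X N K₀ z bb o' a).th ((shA D π q J w ω₀ n X N K₀ z bb o' a).T ω) =
      (thr D J w ω : ℝ) / 2 ^ (J - w) :=
  th_eq ω₀ ω N

/-- The value of the own shape at zero. -/
theorem val_zero (D : NDat2) (n K₀ z bb : ℕ) (π : Pls (n - 1)) (i j i' j' X : ℕ) (ω : D.Ω) :
    eval 0 (Fd n K₀ z bb π (kpA D n K₀ z i j i' j' X bb ω)) =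
      eval (fun _ => 1 / 2) (kpA D n K₀ z i j i' j' X bb ω) := by
  rw [eval_Fd n K₀ z bb π (kpA_deg _ _ _ _ _ _ _ _ _ _ _) (kpA_coef _ _ _ _ _ _ _ _ _ _ _)]
  refine congrArg (fun v : Fin (n - 1) → ℝ => eval v (kpA D n K₀ z i j i' j' X bb ω)) ?_
  funext l
  split_ifs with h
  · rw [Pi.zero_apply, mul_zero, zero_add]
  · rfl

/-- **The value of the own shape along the path.** -/
theorem sha_val (hO : D.Ok2 n K J a₀ w₀ z M lam gam κ C₁ q) (hw : w ≤ J) (ω₀ : D.Ω) {ω : D.Ω}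
    (hω : 0 < q ω) (do' : Det q (D.wn J w) (D.c π.o.1 π.o.2)) (hi : Function.Injective π.co)
    (h1 : ∀ r, 1 ≤ π.co r) (h2 : ∀ r, π.co r < n) (N : ℕ) :
    (shA D π q J w ω₀ n X N K₀ z bb o' a).val (D.wn J w ω)
      ((shA D π q J w ω₀ n X N K₀ z bb o' a).T ω) =
    eval (fun l : Fin (n - 1) => up z (zt D π.o.1 π.o.2 ω (l + 1)))
        (kpA D n K₀ z π.o.1 π.o.2 o'.1 o'.2 X bb ω) -
      eval (fun _ => 1 / 2) (kpA D n K₀ z π.o.1 π.o.2 o'.1 o'.2 X bb ω) := by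
  unfold SDat.val
  rw [th_eq]
  have e1 : eval ((shA D π q J w ω₀ n X N K₀ z bb o' a).x (D.wn J w ω) (tm D J w ω))
      ((shA D π q J w ω₀ n X N K₀ z bb o' a).F ((shA D π q J w ω₀ n X N K₀ z bb o' a).T ω)) =
      eval (fun l : Fin (n - 1) => up z (zt D π.o.1 π.o.2 ω (l + 1)))
        (kpA D n K₀ z π.o.1 π.o.2 o'.1 o'.2 X bb ω) :=
    val_own hO hw ω₀ hω do' hi h1 h2
  have e2 : eval 0 ((shA D π q J w ω₀ n X N K₀ z bb o' a).F
      ((shA D π q J w ω₀ n X N K₀ z bb o' a).T ω)) =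
      eval (fun _ => 1 / 2) (kpA D n K₀ z π.o.1 π.o.2 o'.1 o'.2 X bb ω) :=
    val_zero D n K₀ z bb π π.o.1 π.o.2 o'.1 o'.2 X ω
  rw [e1, e2]

/-- **The value of the own shape along the path**, at the window of `o`. -/
theorem sha_val_o (hO : D.Ok2 n K J a₀ w₀ z M lam gam κ C₁ q) (hP : Plc D n z X c M π)
    (ω₀ : D.Ω) {ω : D.Ω} (hω : 0 < q ω) (N : ℕ) :
    (shA D π q J (w₀ + π.o.2 * z) ω₀ n X N K₀ z bb o' a).val (D.wn J (w₀ + π.o.2 * z) ω)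
      ((shA D π q J (w₀ + π.o.2 * z) ω₀ n X N K₀ z bb o' a).T ω) =
    eval (fun l : Fin (n - 1) => up z (zt D π.o.1 π.o.2 ω (l + 1)))
        (kpA D n K₀ z π.o.1 π.o.2 o'.1 o'.2 X bb ω) -
      eval (fun _ => 1 / 2) (kpA D n K₀ z π.o.1 π.o.2 o'.1 o'.2 X bb ω) := by
  have hwJ : w₀ + π.o.2 * z ≤ J := by
    have e1 := hO.top
    have e2 := hO.thin
    have e3 : π.o.2 * z ≤ M * z := Nat.mul_le_mul_right z hP.o_lt.2.le
    have e4 : (M + 1) * z = M * z + z := by ring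
    omega
  exact sha_val hO hwJ ω₀ hω (det_c hO hP.o_lt.1.le hP.o_lt.2.le le_rfl hwJ) hP.inj hP.co_ge
    hP.co_lt N

end

end Pool.LSH
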